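import Pool.Agent.Lib.MP_8a52c3_lc.Mono.Basic

/-! Polynomial evaluation gives a design. -/

open Finset
open scoped BigOperators

namespace Pool.Agent.Lib.MP_8a52c3_lc.Mono

/-- Evaluation of the polynomial with coefficients `q` at `u`. -/
def pev (p k : ℕ) (u : ZMod p) (q : Fin k → ZMod p) : ZMod p := ∑ i : Fin k, u ^ (i : ℕ) * q i

theorem des_inj {p k : ℕ} [Fact p.Prime] (f : Fin k → ZMod p) (hf : Function.Injective f) :
    Function.Injective fun (q : Fin k → ZMod p) (t : Fin k) => pev p k (f t) q := by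
  intro q q' h
  have : q - q' = 0 := Matrix.eq_zero_of_forall_index_sum_pow_mul_eq_zero hf fun j => by
    have := congrFun h j
    simp only [pev] at this
    simp only [Pi.sub_apply, mul_sub, sum_sub_distrib, this, sub_self]
  exact sub_eq_zero.1 this

theorem des_card {p k : ℕ} [Fact p.Prime] (q q' : Fin k → ZMod p) (h : q ≠ q') :
    (univ.filter fun u : ZMod p => pev p k u q = pev p k u q').card ≤ k := by
  by_contra hc
  push Not at hc
  obtain ⟨T, hT, hTc⟩ := Finset.exists_subset_card_eq hc.le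
  apply h
  apply des_inj (fun t => ((T.equivFinOfCardEq hTc).symm t : ZMod p))
    (Subtype.val_injective.comp (T.equivFinOfCardEq hTc).symm.injective)
  funext t
  have := hT ((T.equivFinOfCardEq hTc).symm t).2
  simpa using this

theorem des_shift {p k : ℕ} [Fact p.Prime] (hkp : k ≤ p) (u : ZMod p) :
    Function.Injective fun t : Fin k => u + ((t : ℕ) : ZMod p) := by
  intro t t' h
  have h1 : ((t : ℕ) : ZMod p) = ((t' : ℕ) : ZMod p) := add_left_cancel h
  have h2 := congrArg ZMod.val h1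
  rw [ZMod.val_natCast_of_lt (t.2.trans_le hkp), ZMod.val_natCast_of_lt (t'.2.trans_le hkp)] at h2
  exact Fin.ext h2

theorem des_unif {p k : ℕ} [Fact p.Prime] (hk : 0 < k) (hkp : k ≤ p) (u : ZMod p)
    (g : ZMod p → ℝ) : 𝔼 q : Fin k → ZMod p, g (pev p k u q) = 𝔼 v, g v := by
  have hb := Finite.injective_iff_bijective.1 (des_inj _ (des_shift hkp u))
  rw [← ex_coord (⟨0, hk⟩ : Fin k) g,
    ← ex_equiv (Equiv.ofBijective _ hb) fun y : Fin k → ZMod p => g (y ⟨0, hk⟩)]
  simp

/-- Translate all points by `t`. -/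
def desSh {p k n s : ℕ} (a : Fin n → Fin s → ZMod p) (t : Fin k) : Fin n → Fin s → ZMod p :=
  fun j b => a j b + ((t : ℕ) : ZMod p)

theorem des_bij {p k n s : ℕ} [Fact p.Prime] (hkp : k ≤ p) (a : Fin n → Fin s → ZMod p) :
    Function.Bijective fun (l : Fin n → Fin s → Fin k → ZMod p) (t : Fin k) =>
      lab (pev p k) l (desSh a t) := by
  rw [Fintype.bijective_iff_injective_and_card]
  refine ⟨fun l l' h => ?_, ?_⟩
  · funext j b
    apply des_inj _ (des_shift hkp (a j b))
    funext t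
    exact congrFun (congrFun (congrFun h t) j) b
  · simp only [Fintype.card_fun, Fintype.card_fin, ← pow_mul]
    congr 1
    ring

theorem des_prod {p k n s : ℕ} [Fact p.Prime] (hkp : k ≤ p) (a : Fin n → Fin s → ZMod p)
    (H : Fin k → (Fin n → Fin s → ZMod p) → ℝ) :
    𝔼 l : Fin n → Fin s → Fin k → ZMod p, ∏ t, H t (lab (pev p k) l (desSh a t)) =
      ∏ t, 𝔼 v, H t v := by
  rw [← ex_pi_prod H, ← ex_equiv (Equiv.ofBijective _ (des_bij hkp a))
    fun x : Fin k → Fin n → Fin s → ZMod p => ∏ t, H t (x t)]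
  simp

theorem des_lab {p k n s : ℕ} [Fact p.Prime] (hk : 0 < k) (hkp : k ≤ p)
    (u : Fin n → Fin s → ZMod p) (g : (Fin n → Fin s → ZMod p) → ℝ) :
    𝔼 l : Fin n → Fin s → Fin k → ZMod p, g (lab (pev p k) l u) = 𝔼 v, g v := by
  rw [← ex_coord (⟨0, hk⟩ : Fin k) g, ← ex_equiv (Equiv.ofBijective _ (des_bij hkp u))
    fun x : Fin k → Fin n → Fin s → ZMod p => g (x ⟨0, hk⟩)]
  have : desSh u (⟨0, hk⟩ : Fin k) = u := by
    funext j b
    simp [desSh]
  simp [this]

theorem des_tr {p k n s : ℕ} [Fact p.Prime] (t : Fin k) (g : (Fin n → Fin s → ZMod p) → ℝ) :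
    𝔼 a, g (desSh a t) = 𝔼 u, g u :=
  ex_equiv (Equiv.addRight fun _ _ => ((t : ℕ) : ZMod p)) g

theorem des_shear {p k n s : ℕ} [Fact p.Prime] (hk : 0 < k) (hkp : k ≤ p)
    (F : (Fin n → Fin s → ZMod p) → (Fin n → Fin s → ZMod p) → ℝ) :
    𝔼 l : Fin n → Fin s → Fin k → ZMod p, Real.exp (k * 𝔼 u, F u (lab (pev p k) l u)) ≤
      (𝔼 u, 𝔼 l : Fin n → Fin s → Fin k → ZMod p, Real.exp (F u (lab (pev p k) l u))) ^ k := by
  obtain ⟨G, hG⟩ : ∃ G : (Fin n → Fin s → ZMod p) → ℝ, ∀ u, G u = 𝔼 v, Real.exp (F u v) :=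
    ⟨_, fun _ => rfl⟩
  have hGpos : ∀ u, 0 < G u := fun u => by
    rw [hG]
    exact expect_pos (fun v _ => Real.exp_pos _) univ_nonempty
  have hR : 𝔼 u, 𝔼 l : Fin n → Fin s → Fin k → ZMod p, Real.exp (F u (lab (pev p k) l u)) =
      𝔼 u, G u := expect_congr rfl fun u _ => by
    rw [hG]; exact des_lab hk hkp u fun v => Real.exp (F u v)
  have hC : Real.exp (k * 𝔼 u, Real.log (G u)) ≤ (𝔼 u, G u) ^ k := by
    rw [Real.exp_nat_mul]
    refine pow_le_pow_left₀ (Real.exp_pos _).le ?_ k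
    refine (exp_ex_le _).trans_eq (expect_congr rfl fun u _ => Real.exp_log (hGpos u))
  have hpt : ∀ l : Fin n → Fin s → Fin k → ZMod p,
      Real.exp (k * 𝔼 u, F u (lab (pev p k) l u)) ≤ Real.exp (k * 𝔼 u, Real.log (G u)) *
        𝔼 a, ∏ t : Fin k, Real.exp (F (desSh a t) (lab (pev p k) l (desSh a t)) -
          Real.log (G (desSh a t))) := by
    intro l
    have e1 : (k : ℝ) * 𝔼 u, F u (lab (pev p k) l u) = k * 𝔼 u, Real.log (G u) +
        𝔼 a, ∑ t : Fin k, (F (desSh a t) (lab (pev p k) l (desSh a t)) -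
          Real.log (G (desSh a t))) := by
      rw [expect_sum_comm]
      have : ∀ t : Fin k, 𝔼 a, (F (desSh a t) (lab (pev p k) l (desSh a t)) -
          Real.log (G (desSh a t))) = 𝔼 u, F u (lab (pev p k) l u) - 𝔼 u, Real.log (G u) := by
        intro t
        rw [← expect_sub_distrib]
        exact des_tr t fun u => F u (lab (pev p k) l u) - Real.log (G u)
      simp only [this, sum_const, card_univ, Fintype.card_fin, nsmul_eq_mul]
      ring
    rw [e1, Real.exp_add]
    refine mul_le_mul_of_nonneg_left ?_ (Real.exp_pos _).le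
    refine (exp_ex_le _).trans_eq (expect_congr rfl fun a _ => ?_)
    rw [Real.exp_sum]
  refine (ex_mono hpt).trans ?_
  rw [← mul_expect, ex_comm, hR]
  have h1 : ∀ a : Fin n → Fin s → ZMod p, 𝔼 l : Fin n → Fin s → Fin k → ZMod p,
      ∏ t : Fin k, Real.exp (F (desSh a t) (lab (pev p k) l (desSh a t)) -
          Real.log (G (desSh a t))) = 1 := by
    intro a
    rw [des_prod hkp a fun t v => Real.exp (F (desSh a t) v - Real.log (G (desSh a t)))]
    refine prod_eq_one fun t _ => ?_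
    simp only [Real.exp_sub, Real.exp_log (hGpos _)]
    rw [← expect_div, ← hG, div_self (hGpos _).ne']
  simp only [h1, ex_const, mul_one]
  exact hC

theorem design (p k : ℕ) [Fact p.Prime] (hk : 0 < k) (hkp : k ≤ p) :
    IsDesign (pev p k) ((k : ℝ) / p) k := by
  have hp : (0 : ℝ) < p := by exact_mod_cast hk.trans_le hkp
  refine ⟨fun q q' h => ?_, fun q => ?_, fun n s F => des_shear hk hkp F⟩
  · rw [ex_eq_sum, ZMod.card]
    refine div_le_div_of_nonneg_right ?_ hp.le
    have h1 : ∑ u : ZMod p, ind (pev p k u q = pev p k u q') =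
        ((univ.filter fun u : ZMod p => pev p k u q = pev p k u q').card : ℝ) := by
      rw [← sum_boole]
      refine sum_congr rfl fun u _ => ?_
      by_cases hu : pev p k u q = pev p k u q'
      · rw [ind_of hu, if_pos hu]
      · rw [ind_of_not hu, if_neg hu]
    rw [h1]
    exact_mod_cast des_card q q' h
  · refine ex_le fun u => ?_
    rw [des_unif hk hkp u fun v => ind (pev p k u q = v), ex_eq_sum, ZMod.card]
    refine div_le_div_of_nonneg_right ?_ hp.le
    rw [Finset.sum_eq_single (pev p k u q)]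
    · rw [ind_of rfl]
      exact_mod_cast hk
    · intro v _ hv
      exact ind_of_not fun h => hv h.symm
    · simp

end Pool.Agent.Lib.MP_8a52c3_lc.Mono
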