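import Pool.Agent.Lib.MP_8a52c3_lc.Mono.Basic

/-! The three gadgets. -/

open Finset
open scoped BigOperators

namespace Pool.Agent.Lib.MP_8a52c3_lc.Mono

section Index

variable {X : Type} [Fintype X] [DecidableEq X] [Nonempty X] {n : ℕ}

omit [Nonempty X] in
/-- The coordinate characters are orthonormal. -/
theorem gad_orth (x x' : X) :
    𝔼 y : X → Bool, (if y x then (1 : ℝ) else -1) * (if y x' then (1 : ℝ) else -1) =
      if x = x' then 1 else 0 := by
  split_ifs with h
  · subst h
    refine (expect_congr rfl fun y _ => ?_).trans (ex_const 1)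
    cases y x <;> simp
  · have e : ∀ y : X → Bool, (if y x then (1 : ℝ) else -1) * (if y x' then (1 : ℝ) else -1) =
        (tauY x true y * (if y x' then (1 : ℝ) else -1) -
          tauY x false y * (if y x' then (1 : ℝ) else -1)) / 2 := by
      intro y
      unfold tauY
      cases y x <;> cases y x' <;> simp
    simp only [e]
    rw [← expect_div, expect_sub_distrib, ex_tauY x true fun y => if y x' then (1 : ℝ) else -1,
      ex_tauY x false fun y => if y x' then (1 : ℝ) else -1]
    simp [Function.update_of_ne (Ne.symm h)]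

omit [Nonempty X] in
/-- Second moment of a combination of the characters. -/
theorem gad_sq (c : X → ℝ) :
    𝔼 y : X → Bool, (∑ x, (if y x then (1 : ℝ) else -1) * c x) ^ 2 = ∑ x, c x ^ 2 := by
  have e : ∀ y : X → Bool, (∑ x, (if y x then (1 : ℝ) else -1) * c x) ^ 2 = ∑ x, ∑ x',
      c x * c x' * ((if y x then (1 : ℝ) else -1) * (if y x' then (1 : ℝ) else -1)) := by
    intro y
    rw [sq, sum_mul_sum]
    exact sum_congr rfl fun x _ => sum_congr rfl fun x' _ => by ring
  simp only [e, expect_sum_comm, ← mul_expect, gad_orth]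
  simp [sq]

/-- Bessel inequality for the coordinate characters. -/
theorem bessel (h : (X → Bool) → ℝ) :
    ∑ x, (𝔼 y : X → Bool, (if y x then (1 : ℝ) else -1) * h y) ^ 2 ≤ 𝔼 y, h y ^ 2 := by
  set c : X → ℝ := fun x => 𝔼 y : X → Bool, (if y x then (1 : ℝ) else -1) * h y with hc
  have h0 := ex_nonneg
    (f := fun y : X → Bool => (h y - ∑ x, (if y x then (1 : ℝ) else -1) * c x) ^ 2)
    fun _ => sq_nonneg _
  have e : ∀ y : X → Bool, (h y - ∑ x, (if y x then (1 : ℝ) else -1) * c x) ^ 2 =
      h y ^ 2 - 2 * ∑ x, c x * ((if y x then (1 : ℝ) else -1) * h y) +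
        (∑ x, (if y x then (1 : ℝ) else -1) * c x) ^ 2 := by
    intro y
    have : ∑ x, c x * ((if y x then (1 : ℝ) else -1) * h y) =
        h y * ∑ x, (if y x then (1 : ℝ) else -1) * c x := by
      rw [mul_sum]
      exact sum_congr rfl fun x _ => by ring
    rw [this]
    ring
  simp only [e, expect_add_distrib, expect_sub_distrib, gad_sq] at h0
  rw [← mul_expect, expect_sum_comm] at h0
  simp only [← mul_expect] at h0
  have e2 : ∑ x, c x * c x = ∑ x, c x ^ 2 := by simp only [sq]
  change 0 ≤ _ - 2 * ∑ x, c x * c x + _ at h0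
  linarith

theorem gad_half_add (b : Bool) :
    ((if b = false then (2 : ℝ) else 0) + if b = true then (2 : ℝ) else 0) / 2 = 1 := by
  cases b <;> simp

theorem gad_half_sub (b : Bool) :
    ((if b = true then (2 : ℝ) else 0) - if b = false then (2 : ℝ) else 0) / 2 =
      if b then (1 : ℝ) else -1 := by
  cases b <;> simp

theorem gad_tauY : IsGad (tauY : X → Bool → (X → Bool) → ℝ) (1 / Fintype.card X) := by
  refine ⟨fun a c l => ?_, fun h => ?_, fun h => ?_⟩
  · unfold tauY
    split_ifs <;> norm_num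
  · simp only [tauY, gad_half_add, one_mul]
    exact ex_le fun _ => ex_sq_le h
  · simp only [tauY, gad_half_sub]
    rw [ex_eq_sum, one_div, ← div_eq_inv_mul]
    exact div_le_div_of_nonneg_right (bessel h) (Nat.cast_nonneg _)

theorem gad_tauC : IsGad (tauC : (X → Bool) → Bool → X → ℝ) (1 / Fintype.card X) := by
  refine ⟨fun a c l => ?_, fun h => ?_, fun h => ?_⟩
  · unfold tauC
    split_ifs <;> norm_num
  · simp only [tauC, gad_half_add, one_mul]
    exact ex_le fun _ => ex_sq_le h
  · simp only [tauC, gad_half_sub, ex_eq_sum (α := X), div_pow]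
    rw [← expect_div, gad_sq]
    exact le_of_eq (by ring)

/-- The product kernel picks one point of the cube. -/
theorem gad_delta (σ : (Fin n → Bool) → ℝ) (w : Fin n → Bool) :
    𝔼 z, σ z * ∏ j, (if w j = z j then (2 : ℝ) else 0) = σ w := by
  rw [ex_eq_sum, sum_eq_single w]
  · simp
  · intro z _ hz
    obtain ⟨j, hj⟩ := Function.ne_iff.1 hz
    rw [prod_eq_zero (mem_univ j) (if_neg (Ne.symm hj)), mul_zero]
  · simp

theorem ff_tauY (σ : (Fin n → Bool) → ℝ) (x : Fin n → X) (h : (Fin n → X → Bool) → ℝ) :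
    ff tauY σ x h = fr σ x h := by
  unfold ff fr
  simp only [mul_expect, ← mul_assoc]
  rw [ex_comm]
  refine expect_congr rfl fun y _ => ?_
  rw [← expect_mul]
  exact congrArg (· * h y) (gad_delta σ (gad x y))

theorem ff_tauC (σ : (Fin n → Bool) → ℝ) (y : Fin n → X → Bool) (h : (Fin n → X) → ℝ) :
    ff tauC σ y h = fc σ y h := by
  unfold ff fc
  simp only [mul_expect, ← mul_assoc]
  rw [ex_comm]
  refine expect_congr rfl fun x _ => ?_
  rw [← expect_mul]
  exact congrArg (· * h x) (gad_delta σ (gad x y))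

end Index

variable {s : ℕ} [NeZero s] {Q : Type} [Fintype Q] [DecidableEq Q] [Nonempty Q]

/-- Cauchy-Schwarz for a probability density. -/
theorem gad_cs {α : Type} [Fintype α] (w f : α → ℝ) (h0 : ∀ a, 0 ≤ w a) (h1 : 𝔼 a, w a = 1) :
    (𝔼 a, w a * f a) ^ 2 ≤ 𝔼 a, w a * f a ^ 2 := by
  have h := ex_nonneg (f := fun a => w a * (f a - 𝔼 a, w a * f a) ^ 2)
    fun a => mul_nonneg (h0 a) (sq_nonneg _)
  have e : ∀ a, w a * (f a - 𝔼 a, w a * f a) ^ 2 = w a * f a ^ 2 -
      2 * (𝔼 a, w a * f a) * (w a * f a) + (𝔼 a, w a * f a) ^ 2 * w a := fun a => by ring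
  simp only [e, expect_add_distrib, expect_sub_distrib, ← mul_expect, h1] at h
  linarith

omit [NeZero s] [Nonempty Q] in
theorem gad_kap_nonneg (x : Fin s × Q) (l : Fin s → Q) : 0 ≤ kap x l := by
  unfold kap
  split_ifs <;> positivity

omit [NeZero s] in
theorem gad_kap_pt (b : Fin s) (l : Fin s → Q) : 𝔼 q, kap (b, q) l = 1 := by
  rw [ex_eq_sum]
  simp [kap]

omit [NeZero s] in
theorem gad_kap_smp (x : Fin s × Q) : 𝔼 l, kap x l = 1 := by
  unfold kap
  rw [ex_coord x.1 fun q => if q = x.2 then (Fintype.card Q : ℝ) else 0, ex_eq_sum]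
  simp

omit [NeZero s] [Nonempty Q] in
theorem gad_tauO_eq (x : Fin s × Q) (c : Bool) (o : Ob s Q) :
    tauO x c o = kap x o.1 * tauY x.1 c o.2 := by
  unfold tauO kap tauY
  by_cases h : o.1 x.1 = x.2 <;> by_cases h' : o.2 x.1 = c <;> simp [h, h', mul_comm]

theorem gad_tauO : IsGad (tauO : Fin s × Q → Bool → Ob s Q → ℝ) (1 / s) := by
  refine ⟨fun a c l => ?_, fun h => ?_, fun h => ?_⟩
  · unfold tauO
    split_ifs <;> positivity
  · simp only [gad_tauO_eq, ← mul_add, mul_div_assoc, tauY, gad_half_add, mul_one]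
    refine (ex_mono fun a => gad_cs (fun o : Ob s Q => kap a o.1) h
      (fun o => gad_kap_nonneg a o.1) ?_).trans (le_of_eq ?_)
    · rw [ex_prod]
      simp only [ex_const, gad_kap_smp]
    · rw [ex_comm]
      refine expect_congr rfl fun o _ => ?_
      rw [← expect_mul, ex_prod]
      simp only [gad_kap_pt, ex_const, one_mul]
  · simp only [gad_tauO_eq, ← mul_sub, mul_div_assoc, tauY, gad_half_sub]
    have e : ∀ a : Fin s × Q, 𝔼 o : Ob s Q, kap a o.1 * (if o.2 a.1 then (1 : ℝ) else -1) * h o =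
        𝔼 l, kap a l * 𝔼 β : Fin s → Bool, (if β a.1 then (1 : ℝ) else -1) * h (l, β) := by
      intro a
      rw [ex_prod]
      simp only [mul_expect, mul_assoc]
    simp only [e]
    refine (ex_mono fun a => gad_cs (kap a) _ (gad_kap_nonneg a) (gad_kap_smp a)).trans ?_
    rw [ex_comm, ex_prod fun o : Ob s Q => h o ^ 2, mul_expect]
    refine ex_mono fun l => ?_
    have e2 : ∀ b : Fin s, 𝔼 q : Q, kap (b, q) l *
        (𝔼 β : Fin s → Bool, (if β b then (1 : ℝ) else -1) * h (l, β)) ^ 2 =
        (𝔼 β : Fin s → Bool, (if β b then (1 : ℝ) else -1) * h (l, β)) ^ 2 := fun b => by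
      rw [← expect_mul, gad_kap_pt, one_mul]
    rw [ex_prod]
    simp only [e2]
    rw [ex_eq_sum, Fintype.card_fin, one_div, ← div_eq_inv_mul]
    exact div_le_div_of_nonneg_right (bessel fun β => h (l, β)) (Nat.cast_nonneg _)

theorem ex_tauO_one (x : Fin s × Q) (c : Bool) : 𝔼 o, tauO x c o = 1 := by
  rw [ex_prod]
  simp only [gad_tauO_eq, ← mul_expect, ex_tauY_one, mul_one, gad_kap_smp]

end Pool.Agent.Lib.MP_8a52c3_lc.Mono
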