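import Pool.Agent.Lib.MP_8a52c3_lc.Mono.Basic

/-! The pseudo-density of an expanding parity system. -/

open Finset
open scoped BigOperators

namespace Pool.Agent.Lib.MP_8a52c3_lc.Mono

/-- Sign of a bit. -/
def psChi (c : Bool) : ℝ := if c = true then -1 else 1

theorem psChi_mul_self (c : Bool) : psChi c * psChi c = 1 := by cases c <;> simp [psChi]

theorem psChi_pow (c : Bool) (k : ℕ) : psChi c ^ k = if Odd k then psChi c else 1 := by
  cases c
  · simp [psChi]
  · by_cases h : Odd k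
    · simp [psChi, h, h.neg_one_pow]
    · simp [psChi, h, (Nat.not_odd_iff_even.1 h).neg_one_pow]

theorem psA_prod_symm {E : Type} [DecidableEq E] (f : E → ℝ) (hf : ∀ e, f e * f e = 1)
    (T T' : Finset E) : (∏ e ∈ T, f e) * ∏ e ∈ T', f e = ∏ e ∈ symmDiff T T', f e := by
  have hd : Disjoint (T \ T') (T' \ T) := disjoint_sdiff_sdiff
  have h1 := prod_inter_mul_prod_sdiff T T' f
  have h2 := prod_inter_mul_prod_sdiff T' T f
  have h3 : (∏ e ∈ T ∩ T', f e) * ∏ e ∈ T ∩ T', f e = 1 := by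
    rw [← prod_mul_distrib]
    exact prod_eq_one fun e _ => hf e
  rw [Finset.symmDiff_def, prod_union hd, ← h1, ← h2, inter_comm T' T]
  calc (∏ e ∈ T ∩ T', f e) * (∏ e ∈ T \ T', f e) * ((∏ e ∈ T ∩ T', f e) * ∏ e ∈ T' \ T, f e)
      = ((∏ e ∈ T ∩ T', f e) * ∏ e ∈ T ∩ T', f e) *
        ((∏ e ∈ T \ T', f e) * ∏ e ∈ T' \ T, f e) := by ring
    _ = _ := by rw [h3, one_mul]

theorem psA_sum_symm {E : Type} [DecidableEq E] (f : E → ℕ) (T T' : Finset E) :
    ∑ e ∈ symmDiff T T', f e + 2 * ∑ e ∈ T ∩ T', f e = ∑ e ∈ T, f e + ∑ e ∈ T', f e := by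
  have hd : Disjoint (T \ T') (T' \ T) := disjoint_sdiff_sdiff
  have h1 := sum_inter_add_sum_sdiff T T' f
  have h2 := sum_inter_add_sum_sdiff T' T f
  rw [inter_comm T' T] at h2
  rw [Finset.symmDiff_def, sum_union hd]
  omega

theorem psA_card_symm {E : Type} [DecidableEq E] (T T' : Finset E) :
    (symmDiff T T').card ≤ T.card + T'.card := by
  have := psA_sum_symm (fun _ : E => 1) T T'
  simp only [sum_const, smul_eq_mul, mul_one] at this
  omega

section Sign

variable {E : Type} {κ n : ℕ}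

open Classical in
/-- Sign of one equation. -/
noncomputable def psS (S : E → Fin κ → Fin n) (b : E → Bool) (z : Fin n → Bool) (e : E) : ℝ :=
  if Viol S b e z then -1 else 1

/-- Sign of a set of equations. -/
noncomputable def psG (S : E → Fin κ → Fin n) (b : E → Bool) (T : Finset E)
    (z : Fin n → Bool) : ℝ := ∏ e ∈ T, psS S b z e

variable (S : E → Fin κ → Fin n) (b : E → Bool)

theorem psS_mul_self (z : Fin n → Bool) (e : E) : psS S b z e * psS S b z e = 1 := by
  unfold psS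
  split_ifs <;> norm_num

theorem psG_mul_self (T : Finset E) (z : Fin n → Bool) : psG S b T z * psG S b T z = 1 := by
  unfold psG
  rw [← prod_mul_distrib]
  exact prod_eq_one fun e _ => psS_mul_self S b z e

theorem psG_cases (T : Finset E) (z : Fin n → Bool) : psG S b T z = 1 ∨ psG S b T z = -1 :=
  mul_self_eq_one_iff.1 (psG_mul_self S b T z)

theorem psG_symm [DecidableEq E] (T T' : Finset E) (z : Fin n → Bool) :
    psG S b T z * psG S b T' z = psG S b (symmDiff T T') z :=
  psA_prod_symm _ (psS_mul_self S b z) T T'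

theorem psS_eq (z : Fin n → Bool) (e : E) :
    psS S b z e = psChi (b e) * ∏ i, psChi (z (S e i)) := by
  have h : ∏ i, psChi (z (S e i)) =
      (-1 : ℝ) ^ (univ.filter fun i => z (S e i) = true).card := by
    unfold psChi
    rw [prod_ite]
    simp
  rw [h]
  unfold psS Viol
  by_cases ho : Odd (univ.filter fun i => z (S e i) = true).card
  · rw [ho.neg_one_pow]
    cases hb : b e <;> simp [psChi, ho]
  · rw [(Nat.not_odd_iff_even.1 ho).neg_one_pow]
    cases hb : b e <;> simp [psChi, ho]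

theorem psG_eq (T : Finset E) (z : Fin n → Bool) :
    psG S b T z = (∏ e ∈ T, psChi (b e)) * ∏ j ∈ bdry S T, psChi (z j) := by
  unfold psG
  simp only [psS_eq]
  rw [prod_mul_distrib]
  congr 1
  have h : ∀ e, ∏ i, psChi (z (S e i)) =
      ∏ j, psChi (z j) ^ (univ.filter fun i => S e i = j).card := by
    intro e
    rw [← prod_fiberwise univ (S e) fun i => psChi (z (S e i))]
    refine prod_congr rfl fun j _ => ?_
    rw [← prod_const]
    refine prod_congr rfl fun i hi => ?_
    rw [(mem_filter.1 hi).2]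
  simp only [h]
  rw [prod_comm, bdry, prod_filter]
  refine prod_congr rfl fun j _ => ?_
  rw [prod_pow_eq_pow_sum, psChi_pow]

theorem psA_mem_bdry [DecidableEq E] (T T' : Finset E) (j : Fin n) :
    j ∈ bdry S (symmDiff T T') ↔ ¬ (j ∈ bdry S T ↔ j ∈ bdry S T') := by
  have := psA_sum_symm (fun e => (univ.filter fun i => S e i = j).card) T T'
  simp only [bdry, mem_filter, mem_univ, true_and, Nat.odd_iff]
  omega

end Sign

section Cube

variable {n : ℕ}

theorem psA_ind_agr (ρ : PA n) (z : Fin n → Bool) :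
    ind (Agr ρ z) = ∏ j, ind (∀ c, ρ j = some c → z j = c) := by
  by_cases h : Agr ρ z
  · rw [ind_of h]
    exact (prod_eq_one fun j _ => ind_of (h j)).symm
  · rw [ind_of_not h]
    unfold Agr at h
    obtain ⟨j, hj⟩ := not_forall.1 h
    exact (prod_eq_zero (mem_univ j) (ind_of_not hj)).symm

theorem psA_ex_bool (f : Bool → ℝ) : 𝔼 a, f a = (f true + f false) / 2 := by
  rw [ex_eq_sum]
  simp

theorem psA_ex_agr (ρ : PA n) : 𝔼 z, ind (Agr ρ z) = (1 / 2 : ℝ) ^ sz ρ := by
  simp only [psA_ind_agr]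
  rw [ex_pi_prod fun (j : Fin n) (a : Bool) => ind (∀ c, ρ j = some c → a = c), sz,
    ← prod_const, prod_filter]
  refine prod_congr rfl fun j _ => ?_
  rw [psA_ex_bool]
  rcases ρ j with _ | _ | _ <;> simp [ind]

theorem psA_ex_free (ρ : PA n) (B : Finset (Fin n)) (j : Fin n) (hj : j ∈ B) (hρ : ρ j = none) :
    𝔼 z : Fin n → Bool, (∏ i ∈ B, psChi (z i)) * ind (Agr ρ z) = 0 := by
  have h : ∀ z : Fin n → Bool, (∏ i ∈ B, psChi (z i)) * ind (Agr ρ z) =
      ∏ i, ((if i ∈ B then psChi (z i) else 1) * ind (∀ c, ρ i = some c → z i = c)) := by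
    intro z
    rw [prod_mul_distrib, psA_ind_agr, ← prod_filter]
    simp
  simp only [h]
  rw [ex_pi_prod fun (i : Fin n) (a : Bool) =>
    (if i ∈ B then psChi a else 1) * ind (∀ c, ρ i = some c → a = c)]
  refine prod_eq_zero (mem_univ j) ?_
  rw [psA_ex_bool]
  simp [hj, hρ, psChi, ind]

end Cube

section Main

variable {E : Type} [Fintype E] [DecidableEq E] {κ n : ℕ} (S : E → Fin κ → Fin n) (b : E → Bool)

/-- The pseudo-density. -/
noncomputable def psSig (r : ℕ) (z : Fin n → Bool) : ℝ :=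
  ∑ T ∈ univ.filter (fun T : Finset E => T.card ≤ r), psG S b T z

omit [Fintype E] [DecidableEq E] in
theorem psG_free (ρ : PA n) (T : Finset E) (j : Fin n) (hj : j ∈ bdry S T) (hρ : ρ j = none) :
    𝔼 z, psG S b T z * ind (Agr ρ z) = 0 := by
  simp only [psG_eq, mul_assoc]
  rw [← mul_expect, psA_ex_free ρ _ j hj hρ, mul_zero]

omit [Fintype E] [DecidableEq E] in
theorem psG_fixed (ρ : PA n) (T : Finset E) (hT : ∀ j ∈ bdry S T, ρ j ≠ none) :
    𝔼 z, psG S b T z * ind (Agr ρ z) =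
      psG S b T (fun j => (ρ j).getD false) * (1 / 2 : ℝ) ^ sz ρ := by
  rw [← psA_ex_agr, mul_expect]
  refine expect_congr rfl fun z _ => ?_
  by_cases h : Agr ρ z
  · congr 1
    rw [psG_eq, psG_eq]
    congr 1
    refine prod_congr rfl fun j hj => ?_
    obtain ⟨c, hc⟩ := Option.ne_none_iff_exists'.1 (hT j hj)
    rw [h j c hc, hc]
    rfl
  · rw [ind_of_not h, mul_zero, mul_zero]

omit [Fintype E] [DecidableEq E] in
theorem psG_mean_zero (T : Finset E) (hT : (bdry S T).Nonempty) : 𝔼 z, psG S b T z = 0 := by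
  obtain ⟨j, hj⟩ := hT
  have h := psG_free S b (fun _ => none) T j hj rfl
  have h1 : ∀ z : Fin n → Bool, ind (Agr (fun _ => none) z) = 1 := fun z =>
    ind_of fun j c hc => by simp at hc
  simpa only [h1, mul_one] using h

theorem psSig_mul (r : ℕ)
    (h0 : ∀ T : Finset E, T.Nonempty → T.card ≤ 2 * r → (bdry S T).Nonempty)
    (T' : Finset E) (hT' : T'.card ≤ r) : 𝔼 z, psSig S b r z * psG S b T' z = 1 := by
  simp only [psSig, sum_mul, psG_symm]
  rw [expect_sum_comm, sum_eq_single T']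
  · simp [psG]
  · intro T hT hne
    refine psG_mean_zero S b _ (h0 _ ?_ ?_)
    · rw [nonempty_iff_ne_empty]
      intro h
      exact hne (symmDiff_eq_bot.1 h)
    · have := psA_card_symm T T'
      have := (mem_filter.1 hT).2
      omega
  · intro h
    exact (h (mem_filter.2 ⟨mem_univ _, hT'⟩)).elim

omit [DecidableEq E] in
theorem psSig_pe (r : ℕ) (ρ : PA n) :
    pe (psSig S b r) ρ =
      (∑ T ∈ univ.filter (fun T : Finset E => T.card ≤ r ∧ ∀ j ∈ bdry S T, ρ j ≠ none),
        psG S b T (fun j => (ρ j).getD false)) * (1 / 2 : ℝ) ^ sz ρ := by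
  simp only [pe, psSig, sum_mul]
  rw [expect_sum_comm, ← filter_filter, sum_filter (fun T => ∀ j ∈ bdry S T, ρ j ≠ none)]
  refine sum_congr rfl fun T _ => ?_
  split_ifs with h
  · exact psG_fixed S b ρ T h
  · push Not at h
    obtain ⟨j, hj, hρ⟩ := h
    exact psG_free S b ρ T j hj hρ

theorem psSig_dich (r D : ℕ)
    (h0 : ∀ T : Finset E, T.Nonempty → T.card ≤ 2 * r → (bdry S T).Nonempty)
    (h1 : ∀ T : Finset E, r < T.card → T.card ≤ 2 * r → D < (bdry S T).card)
    (ρ : PA n) (hρ : sz ρ ≤ D) :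
    pe (psSig S b r) ρ = 0 ∨
      ((1 / 2 : ℝ) ^ sz ρ ≤ pe (psSig S b r) ρ ∧ pe (psSig S b r) ρ ≤ 1) := by
  rw [psSig_pe]
  set H := univ.filter (fun T : Finset E => T.card ≤ r ∧ ∀ j ∈ bdry S T, ρ j ≠ none) with hH
  set z₀ : Fin n → Bool := fun j => (ρ j).getD false
  have hmem : ∀ T, T ∈ H ↔ T.card ≤ r ∧ ∀ j ∈ bdry S T, ρ j ≠ none := fun T => by simp [hH]
  have hclosed : ∀ T ∈ H, ∀ T' ∈ H, symmDiff T T' ∈ H := by
    intro T hT T' hT'
    rw [hmem] at hT hT' ⊢
    have hsub : ∀ j ∈ bdry S (symmDiff T T'), ρ j ≠ none := by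
      intro j hj
      rw [psA_mem_bdry] at hj
      by_cases hjT : j ∈ bdry S T
      · exact hT.2 j hjT
      · exact hT'.2 j (by tauto)
    refine ⟨?_, hsub⟩
    by_contra hlt
    have h2 := psA_card_symm T T'
    have h3 := h1 (symmDiff T T') (by omega) (by omega)
    have h4 : (bdry S (symmDiff T T')).card ≤ sz ρ :=
      card_le_card fun j hj => mem_filter.2 ⟨mem_univ _, hsub j hj⟩
    omega
  by_cases hall : ∀ T ∈ H, psG S b T z₀ = 1
  · right
    rw [sum_congr rfl hall, sum_const, nsmul_eq_mul, mul_one]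
    have hlo : 1 ≤ H.card := by
      refine card_pos.2 ⟨∅, ?_⟩
      rw [hmem]
      refine ⟨by simp, fun j hj => ?_⟩
      simp [bdry] at hj
    have hhi : H.card ≤ 2 ^ sz ρ := by
      rw [sz, ← card_powerset]
      refine card_le_card_of_injOn (bdry S) (fun T hT => ?_) fun T hT T' hT' hEq => ?_
      · rw [mem_coe, hmem] at hT
        rw [mem_coe, mem_powerset]
        exact fun j hj => mem_filter.2 ⟨mem_univ _, hT.2 j hj⟩
      · by_contra hne
        rw [mem_coe, hmem] at hT hT'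
        have h2 := psA_card_symm T T'
        obtain ⟨j, hj⟩ := h0 (symmDiff T T')
          (nonempty_iff_ne_empty.2 fun h => hne (symmDiff_eq_bot.1 h)) (by omega)
        rw [psA_mem_bdry, hEq] at hj
        exact hj Iff.rfl
    have hp : (0 : ℝ) < (1 / 2 : ℝ) ^ sz ρ := by positivity
    have hlo' : (1 : ℝ) ≤ H.card := by exact_mod_cast hlo
    have hhi' : (H.card : ℝ) ≤ 2 ^ sz ρ := by exact_mod_cast hhi
    refine ⟨le_mul_of_one_le_left hp.le hlo', ?_⟩
    calc (H.card : ℝ) * (1 / 2) ^ sz ρ ≤ 2 ^ sz ρ * (1 / 2) ^ sz ρ :=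
          mul_le_mul_of_nonneg_right hhi' hp.le
      _ = 1 := by rw [← mul_pow]; norm_num
  · left
    push Not at hall
    obtain ⟨T₀, hT₀, hne⟩ := hall
    have hm : psG S b T₀ z₀ = -1 := (psG_cases S b T₀ z₀).resolve_left hne
    have hflip : ∀ T, psG S b (symmDiff T T₀) z₀ = -psG S b T z₀ := fun T => by
      rw [← psG_symm, hm, mul_neg_one]
    rw [sum_involution (fun T _ => symmDiff T T₀) (fun T _ => by rw [hflip, add_neg_cancel])
      (fun T _ hT h => hT (by have := hflip T; rw [h] at this; linarith))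
      (fun T hT => hclosed T hT T₀ hT₀) (fun T _ => symmDiff_symmDiff_cancel_right T₀ T), zero_mul]

omit [Fintype E] [DecidableEq E] in
theorem psA_ind_all (T : Finset E) (z : Fin n → Bool) :
    ind (∀ e ∈ T, ¬ Viol S b e z) = (1 / 2 : ℝ) ^ T.card * ∑ T' ∈ T.powerset, psG S b T' z := by
  unfold psG
  rw [← prod_one_add, ← prod_const, ← prod_mul_distrib]
  by_cases h : ∀ e ∈ T, ¬ Viol S b e z
  · rw [ind_of h]
    refine (prod_eq_one fun e he => ?_).symm
    simp only [psS, h e he, if_false]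
    norm_num
  · rw [ind_of_not h]
    push Not at h
    obtain ⟨e, he, hv⟩ := h
    refine (prod_eq_zero he ?_).symm
    simp [psS, hv]

end Main

theorem exists_pseudo {E : Type} [Fintype E] [DecidableEq E] {κ n : ℕ} (S : E → Fin κ → Fin n)
    (b : E → Bool) (r D : ℕ)
    (h0 : ∀ T : Finset E, T.Nonempty → T.card ≤ 2 * r → (bdry S T).Nonempty)
    (h1 : ∀ T : Finset E, r < T.card → T.card ≤ 2 * r → D < (bdry S T).card) :
    ∃ σ, IsPseudo n D (2 ^ Fintype.card E) σ ∧
      ∀ T : Finset E, T.card ≤ r → 𝔼 z, σ z * ind (∀ e ∈ T, ¬ Viol S b e z) = 1 := by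
  refine ⟨psSig S b r, ⟨fun z => ?_, ?_, psSig_dich S b r D h0 h1⟩, fun T hT => ?_⟩
  · unfold psSig
    refine (abs_sum_le_sum_abs _ _).trans ?_
    have h : ∀ T ∈ univ.filter (fun T : Finset E => T.card ≤ r), |psG S b T z| = 1 := by
      intro T _
      rcases psG_cases S b T z with h | h <;> simp [h]
    rw [sum_congr rfl h, sum_const, nsmul_eq_mul, mul_one]
    have h2 : (univ.filter fun T : Finset E => T.card ≤ r).card ≤ 2 ^ Fintype.card E := by
      rw [← Fintype.card_finset]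
      exact card_le_univ _
    exact_mod_cast h2
  · have h := psSig_mul S b r h0 ∅ (by simp)
    simpa [psG] using h
  · have h : ∀ z, psSig S b r z * ind (∀ e ∈ T, ¬ Viol S b e z) =
        (1 / 2 : ℝ) ^ T.card * ∑ T' ∈ T.powerset, psSig S b r z * psG S b T' z := by
      intro z
      rw [psA_ind_all, ← mul_sum]
      ring
    simp only [h]
    rw [← mul_expect, expect_sum_comm,
      sum_congr rfl fun T' hT' =>
        psSig_mul S b r h0 T' ((card_le_card (mem_powerset.1 hT')).trans hT),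
      sum_const, card_powerset, nsmul_eq_mul, mul_one]
    push_cast
    rw [← mul_pow]
    norm_num

theorem psA_sum_sz (n : ℕ) : ∑ ρ : PA n, (1 / 256 : ℝ) ^ sz ρ = (129 / 128) ^ n := by
  have h : ∀ ρ : PA n, (1 / 256 : ℝ) ^ sz ρ = ∏ j, if ρ j ≠ none then (1 / 256 : ℝ) else 1 := by
    intro ρ
    rw [sz, ← prod_const, prod_filter]
  simp only [h]
  have h2 := prod_univ_sum (fun _ : Fin n => (univ : Finset (Option Bool)))
    fun _ o => if o ≠ none then (1 / 256 : ℝ) else 1
  rw [Fintype.piFinset_univ] at h2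
  rw [← h2, prod_const, card_univ, Fintype.card_fin]
  congr 1
  simp [Fintype.sum_option]
  norm_num

theorem count_small {n r : ℕ} (hn : 500 ≤ n) (hr : 256 * r ≤ n) (σ : (Fin n → Bool) → ℝ) :
    (cons σ r).card * 2 ^ r ≤ 2 ^ (n / 20) := by
  have h1 : ((cons σ r).card : ℝ) * (1 / 256) ^ r ≤ (129 / 128) ^ n := by
    rw [← psA_sum_sz, ← nsmul_eq_mul, ← sum_const]
    refine (sum_le_sum fun ρ hρ => ?_).trans
      (sum_le_sum_of_subset_of_nonneg (subset_univ (cons σ r)) fun ρ _ _ => by positivity)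
    have hs : sz ρ ≤ r := by
      unfold cons at hρ
      exact (mem_filter.1 hρ).2.1
    exact pow_le_pow_of_le_one (by norm_num) (by norm_num) hs
  have h2 : (129 / 128 : ℝ) ^ n ≤ 2 ^ (n / 88 + 1) := by
    calc (129 / 128 : ℝ) ^ n ≤ (129 / 128) ^ (88 * (n / 88 + 1)) :=
          pow_le_pow_right₀ (by norm_num) (by omega)
      _ = ((129 / 128) ^ 88) ^ (n / 88 + 1) := pow_mul _ _ _
      _ ≤ 2 ^ (n / 88 + 1) := pow_le_pow_left₀ (by positivity) (by norm_num) _
  have h3 : n / 88 + 1 + 9 * r ≤ n / 20 := by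
    rcases Nat.lt_or_ge n 512 with h | h
    · omega
    · rcases Nat.lt_or_ge n 528 with h' | h'
      · omega
      · rcases Nat.lt_or_ge n 768 with h'' | h''
        · omega
        · omega
  have h4 : ((cons σ r).card : ℝ) * 2 ^ r ≤ 2 ^ (n / 20) := by
    have e : (2 : ℝ) ^ r = (1 / 256) ^ r * 2 ^ (9 * r) := by
      rw [pow_mul, ← mul_pow]
      norm_num
    calc ((cons σ r).card : ℝ) * 2 ^ r = (cons σ r).card * (1 / 256) ^ r * 2 ^ (9 * r) := by
          rw [e, mul_assoc]
      _ ≤ 2 ^ (n / 88 + 1) * 2 ^ (9 * r) :=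
          mul_le_mul_of_nonneg_right (h1.trans h2) (by positivity)
      _ = 2 ^ (n / 88 + 1 + 9 * r) := (pow_add _ _ _).symm
      _ ≤ 2 ^ (n / 20) := pow_le_pow_right₀ (by norm_num) h3
  exact_mod_cast h4

end Pool.Agent.Lib.MP_8a52c3_lc.Mono
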