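import Pool.Agent.Lib.MP_8a52c3_lc.Mono.Margulis
import Pool.Agent.Lib.MP_8a52c3_lc.Mono.Pseudo

/-! The parity system on the Margulis graph. -/

open Finset
open scoped BigOperators

namespace Pool.Agent.Lib.MP_8a52c3_lc.Mono

variable {q n : ℕ} [NeZero q]

omit [NeZero q] in
theorem tsA_card (e : (ZMod q × ZMod q) × Fin 4 ≃ Fin n) (u : ZMod q × ZMod q)
    (P : Fin n → Prop) [DecidablePred P] :
    (univ.filter fun c : Fin 8 => P (tsS e u c)).card =
      ∑ i : Fin 4, (if P (e (u, i)) then 1 else 0) +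
        ∑ i : Fin 4, (if P (e (mg q i u, i)) then 1 else 0) := by
  have h0 : tsS e u 0 = e (u, 0) := rfl
  have h1 : tsS e u 1 = e (u, 1) := rfl
  have h2 : tsS e u 2 = e (u, 2) := rfl
  have h3 : tsS e u 3 = e (u, 3) := rfl
  have h4 : tsS e u 4 = e (mg q 0 u, 0) := rfl
  have h5 : tsS e u 5 = e (mg q 1 u, 1) := rfl
  have h6 : tsS e u 6 = e (mg q 2 u, 2) := rfl
  have h7 : tsS e u 7 = e (mg q 3 u, 3) := rfl
  rw [Finset.card_filter, Fin.sum_univ_eight, Fin.sum_univ_four, Fin.sum_univ_four,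
    h0, h1, h2, h3, h4, h5, h6, h7]
  ring

omit [NeZero q] in
theorem tsA_count (e : (ZMod q × ZMod q) × Fin 4 ≃ Fin n) (T : Finset (ZMod q × ZMod q))
    (u0 : ZMod q × ZMod q) (i0 : Fin 4) :
    ∑ u ∈ T, (univ.filter fun c : Fin 8 => tsS e u c = e (mg q i0 u0, i0)).card =
      (if mg q i0 u0 ∈ T then 1 else 0) + if u0 ∈ T then 1 else 0 := by
  have h1 : ∀ u, (univ.filter fun c : Fin 8 => tsS e u c = e (mg q i0 u0, i0)).card =
      (if u = mg q i0 u0 then 1 else 0) + if u = u0 then 1 else 0 := by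
    intro u
    rw [tsA_card e u (fun j => j = e (mg q i0 u0, i0)), Finset.sum_eq_single i0,
      Finset.sum_eq_single i0]
    · simp only [EmbeddingLike.apply_eq_iff_eq, Prod.mk.injEq, and_true,
        (mg_bij q i0).1.eq_iff]
    · intro i _ hi
      rw [if_neg]
      intro h
      exact hi (Prod.ext_iff.1 (e.injective h)).2
    · intro h
      exact absurd (mem_univ _) h
    · intro i _ hi
      rw [if_neg]
      intro h
      exact hi (Prod.ext_iff.1 (e.injective h)).2
    · intro h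
      exact absurd (mem_univ _) h
  rw [Finset.sum_congr rfl fun u _ => h1 u, Finset.sum_add_distrib, Finset.sum_ite_eq',
    Finset.sum_ite_eq']

theorem ts_bdry (e : (ZMod q × ZMod q) × Fin 4 ≃ Fin n) (T : Finset (ZMod q × ZMod q))
    (hT : 2 * T.card ≤ q ^ 2) : T.card ≤ 8 * (bdry (tsS e) T).card := by
  refine (marg_expand q T hT).trans (Nat.mul_le_mul_left 8 ?_)
  refine Finset.card_le_card_of_injOn (fun p => e (mg q p.2 p.1, p.2)) ?_ ?_
  · intro p hp
    have hp' := (Finset.mem_filter.1 (Finset.mem_coe.1 hp)).2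
    refine Finset.mem_coe.2 (Finset.mem_filter.2 ⟨mem_univ _, ?_⟩)
    rw [tsA_count]
    by_cases a : p.1 ∈ T <;> by_cases b : mg q p.2 p.1 ∈ T <;> simp_all
  · rintro ⟨u, i⟩ _ ⟨u', i'⟩ _ h
    obtain ⟨h1, h2⟩ := Prod.ext_iff.1 (e.injective h)
    dsimp only at h1 h2
    subst h2
    rw [(mg_bij q i).1 h1]

theorem ts_unsat (e : (ZMod q × ZMod q) × Fin 4 ≃ Fin n) (z : Fin n → Bool) :
    ∃ u, Viol (tsS e) tsB u z := by
  by_contra hc
  have h1 : ∀ u, (Odd (univ.filter fun c : Fin 8 => z (tsS e u c) = true).card ↔ u = 0) := by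
    intro u
    have h := not_not.1 (fun h => hc ⟨u, h⟩ : ¬ Viol (tsS e) tsB u z)
    rw [h, tsB, decide_eq_true_iff]
  have h2 : ∑ u, (univ.filter fun c : Fin 8 => z (tsS e u c) = true).card =
      2 * ∑ i : Fin 4, ∑ u, (if z (e (u, i)) = true then 1 else 0) := by
    rw [Finset.sum_congr rfl fun u _ => tsA_card e u (fun j => z j = true),
      Finset.sum_add_distrib, Finset.sum_comm, Finset.sum_comm (s := univ) (t := (univ : Finset (Fin 4))),
      two_mul]
    congr 1
    refine Finset.sum_congr rfl fun i _ => ?_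
    exact (mg_bij q i).sum_comp fun u => if z (e (u, i)) = true then 1 else 0
  have h3 : Odd (∑ u, (univ.filter fun c : Fin 8 => z (tsS e u c) = true).card) := by
    rw [Finset.odd_sum_iff_odd_card_odd]
    simp only [h1]
    rw [Finset.filter_eq', if_pos (mem_univ _), Finset.card_singleton]
    exact odd_one
  rw [h2] at h3
  exact (Nat.not_even_iff_odd.2 h3) (even_two_mul _)

theorem ts_pseudo (hq : 2 ≤ q) (e : (ZMod q × ZMod q) × Fin 4 ≃ Fin n) :
    ∃ σ, IsPseudo n (2 * (n / 256)) (2 ^ n) σ ∧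
      ∀ u, 𝔼 z, σ z * ind (Viol (tsS e) tsB u z) = 0 := by
  have hE : Fintype.card (ZMod q × ZMod q) = q ^ 2 := by
    rw [Fintype.card_prod, ZMod.card, sq]
  have hn : n = q ^ 2 * 4 := by
    have := Fintype.card_congr e
    rw [Fintype.card_prod, hE, Fintype.card_fin, Fintype.card_fin] at this
    exact this.symm
  have h4 : 4 ≤ q ^ 2 := Nat.pow_le_pow_left hq 2
  obtain ⟨σ, hσ, hT⟩ := exists_pseudo (tsS e) tsB (q ^ 2 / 4) (2 * (n / 256))
    (fun T h0 h1 => by
      have h2 := ts_bdry e T (by omega)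
      have h3 := h0.card_pos
      exact Finset.card_pos.1 (by omega))
    (fun T h0 h1 => by
      have h2 := ts_bdry e T (by omega)
      omega)
  refine ⟨σ, ⟨fun z => (hσ.bound z).trans ?_, hσ.mean, hσ.dich⟩, fun u => ?_⟩
  · exact pow_le_pow_right₀ one_le_two (by omega)
  · have h1 := hT {u} (by rw [Finset.card_singleton]; omega)
    have h2 : ∀ z, σ z * ind (Viol (tsS e) tsB u z) =
        σ z - σ z * ind (∀ v ∈ ({u} : Finset (ZMod q × ZMod q)), ¬ Viol (tsS e) tsB v z) := by
      intro z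
      have h3 : (∀ v ∈ ({u} : Finset (ZMod q × ZMod q)), ¬ Viol (tsS e) tsB v z) ↔
          ¬ Viol (tsS e) tsB u z := by
        simp only [Finset.mem_singleton, forall_eq]
      rw [ind_congr h3, ind_not]
      ring
    rw [Finset.expect_congr rfl fun z _ => h2 z, Finset.expect_sub_distrib, h1, hσ.mean, sub_self]

end Pool.Agent.Lib.MP_8a52c3_lc.Mono
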