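import Pool.Agent.Lib.MP_8a52c3_lc.Mono.Tseitin

/-! Accepted and rejected inputs coming from the lifted parity system. -/

open Finset
open scoped BigOperators

namespace Pool.Agent.Lib.MP_8a52c3_lc.Mono

/-- The number of an edge. -/
def langNum {q : ℕ} (p : (ZMod q × ZMod q) × Fin 4) : ℕ :=
  (p.1.1.val * q + p.1.2.val) * 4 + p.2

/-- The vertex of equation number `i`. -/
def langVtx (M q i : ℕ) : ZMod q × ZMod q := ((i / M ^ 8 / q : ℕ), (i / M ^ 8 % q : ℕ))

/-- The digits of equation number `i`. -/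
def langDig {M : ℕ} (hM : 0 < M) (i : ℕ) (c : Fin 8) : Fin M :=
  ⟨i % M ^ 8 / M ^ (c : ℕ) % M, Nat.mod_lt _ hM⟩

theorem lang_pair {a b a' b' M : ℕ} (hb : b < M) (hb' : b' < M) (h : a * M + b = a' * M + b') :
    a = a' ∧ b = b' := by
  have h1 : (a * M + b) % M = (a' * M + b') % M := by rw [h]
  rw [Nat.mul_add_mod_of_lt hb, Nat.mul_add_mod_of_lt hb'] at h1
  subst h1
  exact ⟨Nat.eq_of_mul_eq_mul_right (by omega) (Nat.add_right_cancel h), rfl⟩

theorem lang_num_inj {q : ℕ} [NeZero q] : Function.Injective (langNum (q := q)) := by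
  rintro ⟨⟨a, b⟩, k⟩ ⟨⟨a', b'⟩, k'⟩ h
  obtain ⟨h1, h2⟩ := lang_pair k.2 k'.2 h
  obtain ⟨h3, h4⟩ := lang_pair (ZMod.val_lt b) (ZMod.val_lt b') h1
  exact Prod.ext (Prod.ext (ZMod.val_injective q h3) (ZMod.val_injective q h4)) (Fin.ext h2)

theorem lang_val1 {q : ℕ} [NeZero q] (a b : ZMod q) :
    (a + 2 * b).val = (a.val + 2 * b.val) % q := by
  rw [← ZMod.val_natCast]
  push_cast
  rw [ZMod.natCast_zmod_val, ZMod.natCast_zmod_val]

theorem lang_val2 {q : ℕ} [NeZero q] (a : ZMod q) : (a + 1).val = (a.val + 1) % q := by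
  rw [← ZMod.val_natCast]
  push_cast
  rw [ZMod.natCast_zmod_val]

theorem lang_mg {q : ℕ} [NeZero q] (k : Fin 4) (u : ZMod q × ZMod q) :
    mgN q k (u.1.val, u.2.val) = ((mg q k u).1.val, (mg q k u).2.val) := by
  fin_cases k <;> simp [mgN, mg, lang_val1, lang_val2]

theorem lang_edge {q n : ℕ} [NeZero q] (e : (ZMod q × ZMod q) × Fin 4 ≃ Fin n)
    (u : ZMod q × ZMod q) (c : Fin 8) :
    edgeN q (u.1.val, u.2.val) c = langNum (e.symm (tsS e u c)) := by
  unfold edgeN tsS
  by_cases h : (c : ℕ) < 4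
  · rw [if_pos h, dif_pos h, Equiv.symm_apply_apply]
    rfl
  · rw [if_neg h, dif_neg h, Equiv.symm_apply_apply]
    have := lang_mg (q := q) ⟨c - 4, by omega⟩ u
    simp only at this
    rw [this]
    rfl

theorem lang_vtx_val {M q i : ℕ} [NeZero q] (hi : i < q ^ 2 * M ^ 8) :
    (langVtx M q i).1.val = i / M ^ 8 / q ∧ (langVtx M q i).2.val = i / M ^ 8 % q := by
  have hq : 0 < q := Nat.pos_of_ne_zero (NeZero.ne q)
  have h1 : i / M ^ 8 < q ^ 2 := Nat.div_lt_of_lt_mul (by rwa [mul_comm])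
  have h2 : i / M ^ 8 / q < q := Nat.div_lt_of_lt_mul (by rwa [← sq])
  exact ⟨ZMod.val_cast_of_lt h2, ZMod.val_cast_of_lt (Nat.mod_lt _ hq)⟩

theorem lang_count (f : ℕ → ℕ) (y : ℕ → Bool) :
    ((List.range 8).map f).countP y = (univ.filter fun c : Fin 8 => y (f c) = true).card := by
  rw [Finset.card_filter, Fin.sum_univ_eight]
  simp only [List.range_succ, List.range_zero, List.map_append, List.map_cons, List.map_nil,
    List.countP_append, List.countP_cons, List.countP_nil, zero_add]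
  rfl

theorem lang_row {q n M : ℕ} [NeZero q] (hM : 0 < M) (e : (ZMod q × ZMod q) × Fin 4 ≃ Fin n)
    {i : ℕ} (hi : i < q ^ 2 * M ^ 8) (y : ℕ → Bool) :
    ((rowN M q i).1.countP y % 2 = 1 ↔ (rowN M q i).2 = true) ↔
      (Odd (univ.filter fun c : Fin 8 =>
        y (langNum (e.symm (tsS e (langVtx M q i) c)) * M + langDig hM i c) = true).card ↔
        tsB (langVtx M q i) = true) := by
  obtain ⟨h1, h2⟩ := lang_vtx_val hi
  have hq : 0 < q := Nat.pos_of_ne_zero (NeZero.ne q)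
  have e1 : (rowN M q i).1.countP y = (univ.filter fun c : Fin 8 =>
      y (langNum (e.symm (tsS e (langVtx M q i) c)) * M + langDig hM i c) = true).card := by
    unfold rowN
    rw [lang_count]
    congr 1
    refine Finset.filter_congr fun c _ => ?_
    rw [← lang_edge, h1, h2]
    rfl
  have e2 : (rowN M q i).2 = true ↔ tsB (langVtx M q i) = true := by
    unfold rowN tsB
    rw [decide_eq_true_iff, decide_eq_true_iff, Prod.ext_iff, Prod.fst_zero, Prod.snd_zero,
      ← ZMod.val_eq_zero, ← ZMod.val_eq_zero, h1, h2]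
    constructor
    · intro h
      rw [h]
      simp
    · rintro ⟨a, b⟩
      rw [← Nat.div_add_mod (i / M ^ 8) q, a, b]
      simp
  rw [e1, e2, Nat.odd_iff]

theorem lang_mem {M N q : ℕ} (hq : q = Nat.sqrt (N / M ^ 8)) (w : Fin N → Bool)
    (r : List ℕ × Bool) : r ∈ rowsN M (List.ofFn w) ↔
      ∃ i : Fin N, w i = true ∧ (i : ℕ) < q ^ 2 * M ^ 8 ∧ rowN M q i = r := by
  unfold rowsN
  rw [List.length_ofFn, ← hq, List.mem_map]
  have key : ∀ i : Fin N, (List.ofFn w).getD i false = w i := by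
    intro i
    rw [List.getD_eq_getElem _ _ (by rw [List.length_ofFn]; exact i.2), List.getElem_ofFn]
  constructor
  · rintro ⟨i, hi, rfl⟩
    rw [List.mem_filter, List.mem_range, Bool.and_eq_true, decide_eq_true_iff] at hi
    exact ⟨⟨i, hi.1⟩, (key ⟨i, hi.1⟩).symm.trans hi.2.1, hi.2.2, rfl⟩
  · rintro ⟨i, h1, h2, rfl⟩
    refine ⟨i, ?_, rfl⟩
    rw [List.mem_filter, List.mem_range, Bool.and_eq_true, decide_eq_true_iff, key]
    exact ⟨i.2, h1, h2⟩

theorem hard_spec {X : Type} [Fintype X] [DecidableEq X] [Nonempty X] (N q n : ℕ) [NeZero q]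
    (hq : q = Nat.sqrt (N / Fintype.card X ^ 8)) (e : (ZMod q × ZMod q) × Fin 4 ≃ Fin n) :
    ∃ (U : (Fin n → X) → Fin N → Bool) (W : (Fin n → X → Bool) → Fin N → Bool),
      (∀ x, hard (Fintype.card X) (List.ofFn (U x)) = true) ∧
      (∀ y, hard (Fintype.card X) (List.ofFn (W y)) = false) ∧
      ∀ i, ∃ u, ∀ x, U x i = true → ∀ y, (W y i = false ↔ Viol (tsS e) tsB u (gad x y)) := by
  classical
  have hM : 0 < Fintype.card X := Fintype.card_pos
  obtain ⟨pt⟩ : Nonempty (X ≃ Fin (Fintype.card X)) := ⟨Fintype.equivFin X⟩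
  generalize Fintype.card X = M at hq hM pt ⊢
  have hq0 : 0 < q := Nat.pos_of_ne_zero (NeZero.ne q)
  refine ⟨fun x i => decide ((i : ℕ) < q ^ 2 * M ^ 8 ∧
      ∀ c : Fin 8, pt (x (tsS e (langVtx M q i) c)) = langDig hM i c),
    fun y i => decide ((i : ℕ) < q ^ 2 * M ^ 8 ∧
      (Odd (univ.filter fun c : Fin 8 =>
        y (tsS e (langVtx M q i) c) (pt.symm (langDig hM i c)) = true).card ↔
        tsB (langVtx M q i) = true)), ?_, ?_, ?_⟩
  · intro x
    unfold hard
    rw [decide_eq_true_iff]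
    rintro ⟨y, hy⟩
    obtain ⟨u, hu⟩ := ts_unsat e fun j => y (langNum (e.symm j) * M + pt (x j))
    obtain ⟨d, hd⟩ : ∃ d : Fin (M ^ 8), ∀ c : Fin 8,
        (d : ℕ) / M ^ (c : ℕ) % M = pt (x (tsS e u c)) :=
      ⟨finFunctionFinEquiv fun c => pt (x (tsS e u c)), fun c => by
        rw [← finFunctionFinEquiv_symm_apply_val, Equiv.symm_apply_apply]⟩
    obtain ⟨i, hi⟩ : ∃ i, i = (u.1.val * q + u.2.val) * M ^ 8 + d := ⟨_, rfl⟩
    have hP : 0 < M ^ 8 := by positivity
    have i1 : i / M ^ 8 = u.1.val * q + u.2.val := by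
      rw [hi, add_comm, Nat.add_mul_div_right _ _ hP, Nat.div_eq_of_lt d.2, zero_add]
    have i2 : i % M ^ 8 = d := by rw [hi, Nat.mul_add_mod_of_lt d.2]
    have i3 : i < q ^ 2 * M ^ 8 := by
      rw [← Nat.div_lt_iff_lt_mul hP, i1]
      have a1 := ZMod.val_lt u.1
      have a2 := ZMod.val_lt u.2
      nlinarith
    have i4 : i < N := by
      refine i3.trans_le (le_trans (Nat.mul_le_mul_right _ ?_) (Nat.div_mul_le_self N (M ^ 8)))
      rw [hq]
      exact Nat.sqrt_le' _
    have i5 : langVtx M q i = u := by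
      unfold langVtx
      rw [i1, Nat.mul_add_mod_of_lt (ZMod.val_lt u.2), add_comm, Nat.add_mul_div_right _ _ hq0,
        Nat.div_eq_of_lt (ZMod.val_lt u.2), zero_add, ZMod.natCast_zmod_val,
        ZMod.natCast_zmod_val]
    have i6 : ∀ c : Fin 8, pt (x (tsS e u c)) = langDig hM i c := fun c => Fin.ext (by
      show _ = i % M ^ 8 / M ^ (c : ℕ) % M
      rw [i2, hd])
    have := hy (rowN M q i) ((lang_mem hq _ _).2 ⟨⟨i, i4⟩, by
      rw [decide_eq_true_iff]
      exact ⟨i3, fun c => by rw [← i6, show langVtx M q ((⟨i, i4⟩ : Fin N) : ℕ) = u from i5]⟩,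
      i3, rfl⟩)
    rw [lang_row hM e i3, i5] at this
    simp only [← i6] at this
    exact hu this
  · intro y
    unfold hard
    rw [decide_eq_false_iff_not, not_not]
    have hinj : Function.Injective fun p : Fin n × X => langNum (e.symm p.1) * M + pt p.2 := by
      rintro ⟨j, a⟩ ⟨j', a'⟩ h
      obtain ⟨h1, h2⟩ := lang_pair (pt a).2 (pt a').2 h
      exact Prod.ext (e.symm.injective (lang_num_inj h1)) (pt.injective (Fin.ext h2))
    refine ⟨Function.extend (fun p : Fin n × X => langNum (e.symm p.1) * M + pt p.2)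
      (fun p => y p.1 p.2) fun _ => false, fun r hr => ?_⟩
    obtain ⟨i, h1, h2, rfl⟩ := (lang_mem hq _ _).1 hr
    rw [decide_eq_true_iff] at h1
    rw [lang_row hM e h2, ← h1.2]
    congr! 3 with c
    have := hinj.extend_apply (fun p => y p.1 p.2) (fun _ => false)
      (tsS e (langVtx M q i) c, pt.symm (langDig hM i c))
    simp only [Equiv.apply_symm_apply] at this
    rw [this]
  · intro i
    refine ⟨langVtx M q i, fun x hx y => ?_⟩
    rw [decide_eq_true_iff] at hx
    rw [decide_eq_false_iff_not]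
    unfold Viol gad
    simp only [← hx.2, Equiv.symm_apply_apply, hx.1, true_and]

end Pool.Agent.Lib.MP_8a52c3_lc.Mono
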