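import Pool.Agent.Lib.MP_8a52c3_lc.Mono.Gauss

/-! The hard language is monotone and in P. -/

open Finset
open scoped BigOperators

namespace Pool.Agent.Lib.MP_8a52c3_lc.Mono

open Pool.Agent.Shared.PolyTime N68a2faeb in
theorem lp_row (M : ℕ) : IsPolyTime fun p : ℕ × ℕ => rowN M p.1 p.2 := by
  unfold rowN
  refine IsPolyTime.pair (IsPolyTime.map_const _ fun c => ?_) (by fun_prop)
  unfold edgeN mgN
  split_ifs <;> fun_prop

open Pool.Agent.Shared.PolyTime N68a2faeb in
theorem lp_rows (M : ℕ) : IsPolyTime (rowsN M) := by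
  have := lp_row M
  unfold rowsN
  refine IsPolyTime.map (f := fun (w : List Bool) i => rowN M (Nat.sqrt (w.length / M ^ 8)) i) ?_ ?_
  · exact this.comp (g := fun p : List Bool × ℕ => (Nat.sqrt (p.1.length / M ^ 8), p.2))
      (by fun_prop)
  · fun_prop

open Pool.Agent.Shared.PolyTime N68a2faeb in
theorem hard_mem_P (M : ℕ) : hard M ∈ N68a2faeb.P := by
  have h := xorSat_poly.comp (lp_rows M)
  have h2 : IsPolyTime fun w => !(open Classical in decide (XorSat (rowsN M w))) := by fun_prop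
  exact h2.of_eq fun w => by simp [hard]

theorem hard_mono (M N : ℕ) (x y : Fin N → Bool) (h : ∀ i, x i = true → y i = true)
    (hx : hard M (List.ofFn x) = true) : hard M (List.ofFn y) = true := by
  simp only [hard, decide_eq_true_eq] at hx ⊢
  rintro ⟨z, hz⟩
  refine hx ⟨z, fun r hr => hz r ?_⟩
  simp only [rowsN, List.mem_map, List.mem_filter, List.mem_range, List.length_ofFn,
    Bool.and_eq_true] at hr ⊢
  obtain ⟨i, ⟨h1, h2, h3⟩, rfl⟩ := hr
  refine ⟨i, ⟨h1, ?_, h3⟩, rfl⟩
  simp only [List.getD_eq_getElem?_getD, List.getElem?_ofFn, h1, dite_true, Option.getD_some]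
    at h2 ⊢
  exact h _ h2

end Pool.Agent.Lib.MP_8a52c3_lc.Mono
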