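import Pool.Agent.Lib.MP_8a52c3_lc.Mono.Defs

/-! Elementary facts on indicators and averages. -/

open Finset
open scoped BigOperators

namespace Pool.Agent.Lib.MP_8a52c3_lc.Mono

theorem ind_of {p : Prop} (h : p) : ind p = 1 := by simp [ind, h]

theorem ind_of_not {p : Prop} (h : ¬ p) : ind p = 0 := by simp [ind, h]

theorem ind_nonneg (p : Prop) : 0 ≤ ind p := by
  by_cases h : p <;> simp [ind, h]

theorem ind_le_one (p : Prop) : ind p ≤ 1 := by
  by_cases h : p <;> simp [ind, h]

theorem ind_and (p q : Prop) : ind (p ∧ q) = ind p * ind q := by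
  by_cases h : p <;> by_cases h' : q <;> simp [ind, h, h']

theorem ind_not (p : Prop) : ind (¬ p) = 1 - ind p := by
  by_cases h : p <;> simp [ind, h]

theorem ind_congr {p q : Prop} (h : p ↔ q) : ind p = ind q := by rw [propext h]

theorem ind_mono {p q : Prop} (h : p → q) : ind p ≤ ind q := by
  by_cases hp : p
  · rw [ind_of hp, ind_of (h hp)]
  · rw [ind_of_not hp]; exact ind_nonneg q

theorem ind_or_le (p q : Prop) : ind (p ∨ q) ≤ ind p + ind q := by
  by_cases h : p <;> by_cases h' : q <;> simp [ind, h, h']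

theorem ex_nonneg {α : Type} [Fintype α] {f : α → ℝ} (h : ∀ a, 0 ≤ f a) : 0 ≤ 𝔼 a, f a :=
  expect_nonneg fun a _ => h a

theorem ex_mono {α : Type} [Fintype α] {f g : α → ℝ} (h : ∀ a, f a ≤ g a) :
    𝔼 a, f a ≤ 𝔼 a, g a := expect_le_expect fun a _ => h a

theorem ex_const {α : Type} [Fintype α] [Nonempty α] (c : ℝ) : 𝔼 _a : α, c = c :=
  expect_const univ_nonempty c

theorem ex_le {α : Type} [Fintype α] [Nonempty α] {f : α → ℝ} {c : ℝ} (h : ∀ a, f a ≤ c) :
    𝔼 a, f a ≤ c := (ex_mono h).trans_eq (ex_const c)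

theorem ex_eq_sum {α : Type} [Fintype α] (f : α → ℝ) :
    𝔼 a, f a = (∑ a, f a) / Fintype.card α := by
  rw [Fintype.expect_eq_sum_div_card]

theorem ex_equiv {α β : Type} [Fintype α] [Fintype β] (e : α ≃ β) (f : β → ℝ) :
    𝔼 a, f (e a) = 𝔼 b, f b := Fintype.expect_equiv e _ _ fun _ => rfl

theorem ex_prod {α β : Type} [Fintype α] [Fintype β] (f : α × β → ℝ) :
    𝔼 p, f p = 𝔼 a, 𝔼 b, f (a, b) := by
  rw [← expect_product', univ_product_univ]

theorem ex_comm {α β : Type} [Fintype α] [Fintype β] (f : α → β → ℝ) :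
    𝔼 a, 𝔼 b, f a b = 𝔼 b, 𝔼 a, f a b := expect_comm _ _ _

/-- Splitting off block `0`. -/
theorem ex_cons {α : Type} [Fintype α] {n : ℕ} (f : (Fin (n + 1) → α) → ℝ) :
    𝔼 x, f x = 𝔼 x' : Fin n → α, 𝔼 a, f (Fin.cons a x') := by
  rw [ex_comm, ← ex_prod (fun p : α × (Fin n → α) => f (Fin.cons p.1 p.2))]
  exact (ex_equiv (Fin.consEquiv fun _ => α) f).symm

/-- Average of a product over independent coordinates. -/
theorem ex_pi_prod {ι α : Type} [Fintype ι] [DecidableEq ι] [Fintype α] (f : ι → α → ℝ) :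
    𝔼 x : ι → α, ∏ i, f i (x i) = ∏ i, 𝔼 a, f i a := by
  simp only [ex_eq_sum]
  rw [prod_div_distrib, Finset.prod_univ_sum, Fintype.piFinset_univ]
  simp

theorem ex_sq_le {α : Type} [Fintype α] [Nonempty α] (f : α → ℝ) :
    (𝔼 a, f a) ^ 2 ≤ 𝔼 a, f a ^ 2 := by
  have h := ex_nonneg (f := fun a => (f a - 𝔼 a, f a) ^ 2) fun a => sq_nonneg _
  have e : 𝔼 a, (f a - 𝔼 a, f a) ^ 2 = 𝔼 a, f a ^ 2 - (𝔼 a, f a) ^ 2 := by
    have : ∀ a, (f a - 𝔼 a, f a) ^ 2 = f a ^ 2 - 2 * (𝔼 a, f a) * f a + (𝔼 a, f a) ^ 2 :=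
      fun a => by ring
    simp only [this, expect_add_distrib, expect_sub_distrib, ← mul_expect, ex_const]
    ring
  linarith

theorem markov {α : Type} [Fintype α] {e : α → ℝ} {ε φ : ℝ} (h : Small ε e) (hφ : 0 < φ) :
    𝔼 a, ind (φ < e a) ≤ ε / φ := by
  rw [le_div_iff₀ hφ, expect_mul]
  refine (ex_mono fun a => ?_).trans h.2
  by_cases ha : φ < e a
  · rw [ind_of ha]; linarith
  · rw [ind_of_not ha, zero_mul]; exact h.1 a

theorem exists_le_of_ex {α : Type} [Fintype α] {f g : α → ℝ} (hg : ∀ a, 0 ≤ g a)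
    (hpos : 0 < 𝔼 a, g a) {c : ℝ} (h : 𝔼 a, g a * f a ≤ c * 𝔼 a, g a) :
    ∃ a, 0 < g a ∧ f a ≤ c := by
  by_contra hcon
  push Not at hcon
  obtain ⟨a0, ha0⟩ : ∃ a, 0 < g a := by
    by_contra h'
    push Not at h'
    have : 𝔼 a, g a ≤ 𝔼 _a : α, (0 : ℝ) := ex_mono h'
    simp only [expect_const_zero] at this
    linarith
  rw [mul_expect] at h
  refine absurd h (not_le.2 (expect_lt_expect (fun a _ => ?_) ⟨a0, mem_univ _, ?_⟩))
  · rcases (hg a).eq_or_lt with h0 | h0
    · simp [← h0]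
    · nlinarith [hcon a h0]
  · nlinarith [hcon a0 ha0]

/-- Jensen for the exponential with weights. -/
theorem exp_sum_le {α : Type} [Fintype α] (μ f : α → ℝ) (hμ : ∀ a, 0 ≤ μ a) (h1 : ∑ a, μ a = 1) :
    Real.exp (∑ a, μ a * f a) ≤ ∑ a, μ a * Real.exp (f a) := by
  have := convexOn_exp.map_sum_le (t := univ) (w := μ) (p := f) (fun a _ => hμ a) h1
    (fun a _ => Set.mem_univ _)
  simpa using this

theorem exp_ex_le {α : Type} [Fintype α] [Nonempty α] (f : α → ℝ) :
    Real.exp (𝔼 a, f a) ≤ 𝔼 a, Real.exp (f a) := by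
  have hc : (0 : ℝ) < Fintype.card α := by exact_mod_cast Fintype.card_pos
  have := exp_sum_le (fun _ : α => (1 : ℝ) / Fintype.card α) f (fun _ => by positivity)
    (by simp [hc.ne'])
  simp only [ex_eq_sum, sum_div]
  convert this using 3 <;> ring

/-- Gibbs variational inequality for a density `p` with respect to a weight `m` of mean one. -/
theorem gibbs {α : Type} [Fintype α] (m p G : α → ℝ) (hm : ∀ a, 0 ≤ m a) (hp : ∀ a, 0 ≤ p a)
    (h1 : 𝔼 a, m a * p a = 1) :
    𝔼 a, m a * p a * (G a - Real.log (p a)) ≤ Real.log (𝔼 a, m a * Real.exp (G a)) := by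
  set Z := 𝔼 a, m a * Real.exp (G a) with hZ
  have hZpos : 0 < Z := by
    obtain ⟨a, ha⟩ : ∃ a, 0 < m a := by
      by_contra h'
      push Not at h'
      have : ∀ a, m a = 0 := fun a => le_antisymm (h' a) (hm a)
      simp [this] at h1
    exact expect_pos' (fun a _ => mul_nonneg (hm a) (Real.exp_pos _).le)
      ⟨a, mem_univ _, mul_pos ha (Real.exp_pos _)⟩
  have key : ∀ a, m a * p a * (G a - Real.log (p a)) ≤
      m a * p a * Real.log Z + (m a * Real.exp (G a) / Z - m a * p a) := by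
    intro a
    rcases (hp a).eq_or_lt with h0 | h0
    · rw [← h0]
      have := div_nonneg (mul_nonneg (hm a) (Real.exp_pos (G a)).le) hZpos.le
      simpa using this
    · have h2 := Real.log_le_sub_one_of_pos (x := Real.exp (G a) / Z / p a) (by positivity)
      rw [Real.log_div (by positivity) h0.ne', Real.log_div (by positivity) hZpos.ne',
        Real.log_exp] at h2
      have h3 := mul_le_mul_of_nonneg_left h2 (mul_nonneg (hm a) h0.le)
      have e : m a * p a * (Real.exp (G a) / Z / p a - 1) =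
          m a * Real.exp (G a) / Z - m a * p a := by field_simp
      rw [e] at h3
      linarith
  refine (ex_mono key).trans_eq ?_
  rw [expect_add_distrib, expect_sub_distrib, ← expect_mul, ← expect_div, h1, ← hZ,
    div_self hZpos.ne']
  ring

section Index

variable {X : Type} [Fintype X] [DecidableEq X] {n : ℕ}

/-- Conditioning on one bit. -/
theorem ex_tauY (x : X) (c : Bool) (G : (X → Bool) → ℝ) :
    𝔼 y, tauY x c y * G y = 𝔼 y, G (Function.update y x c) := by
  have hinv : Function.Involutive fun y : X → Bool => Function.update y x (!y x) := by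
    intro y
    simp
  have h1 : 𝔼 y : X → Bool, tauY x c (Function.update y x (!y x)) * G (Function.update y x (!y x))
      = 𝔼 y, tauY x c y * G y := ex_equiv hinv.toPerm fun y => tauY x c y * G y
  have h2 : 𝔼 y, G (Function.update y x c) = 𝔼 y, (tauY x c y * G y +
      tauY x c (Function.update y x (!y x)) * G (Function.update y x (!y x))) / 2 := by
    refine expect_congr rfl fun y _ => ?_
    by_cases h : y x = c
    · subst h
      simp [tauY]
    · have h' : (!y x) = c := by
        revert h; cases y x <;> cases c <;> simp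
      simp [tauY, h, h']
  rw [h2, ← expect_div, expect_add_distrib, h1]
  ring

theorem ex_tauY_one (x : X) (c : Bool) : 𝔼 y, tauY x c y = 1 := by
  have := ex_tauY x c fun _ => 1
  simpa using this

theorem ex_coord {β : Type} [Fintype β] [Nonempty β] (x : X) (g : β → ℝ) :
    𝔼 y : X → β, g (y x) = 𝔼 b, g b := by
  have h := ex_pi_prod (fun (i : X) (a : β) => if i = x then g a else 1)
  simp only [prod_ite_eq', mem_univ, if_true] at h
  rw [h, Finset.prod_eq_single x]
  · simp
  · intro i _ hi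
    simp [hi]
  · simp

/-- The lifted assignment is uniform in each row. -/
theorem ex_gad (x : Fin n → X) (G : (Fin n → Bool) → ℝ) : 𝔼 y, G (gad x y) = 𝔼 z, G z := by
  induction n with
  | zero =>
    have : ∀ z, G z = G Fin.elim0 := fun z => congrArg G (Subsingleton.elim _ _)
    simp only [this, ex_const]
  | succ n ih =>
    rw [ex_cons, ex_cons G, ← ih (Fin.tail x) fun z' => 𝔼 a, G (Fin.cons a z')]
    refine expect_congr rfl fun y' _ => ?_
    rw [← ex_coord (x 0) fun a => G (Fin.cons a (gad (Fin.tail x) y'))]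
    refine expect_congr rfl fun y0 _ => congrArg G ?_
    funext j
    refine Fin.cases ?_ (fun j => ?_) j <;> simp [gad, Fin.tail]

theorem fr_add (σ : (Fin n → Bool) → ℝ) (x : Fin n → X) (h h' : (Fin n → X → Bool) → ℝ) :
    fr σ x (fun y => h y + h' y) = fr σ x h + fr σ x h' := by
  simp only [fr, mul_add, expect_add_distrib]

theorem fr_sub (σ : (Fin n → Bool) → ℝ) (x : Fin n → X) (h h' : (Fin n → X → Bool) → ℝ) :
    fr σ x (fun y => h y - h' y) = fr σ x h - fr σ x h' := by
  simp only [fr, mul_sub, expect_sub_distrib]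

theorem fr_zero (σ : (Fin n → Bool) → ℝ) (x : Fin n → X) : fr σ x (fun _ => 0) = 0 := by
  simp [fr]

theorem fr_one (σ : (Fin n → Bool) → ℝ) (x : Fin n → X) : fr σ x (fun _ => 1) = 𝔼 z, σ z := by
  simp only [fr, mul_one]; exact ex_gad x σ

theorem fc_add (σ : (Fin n → Bool) → ℝ) (y : Fin n → X → Bool) (h h' : (Fin n → X) → ℝ) :
    fc σ y (fun x => h x + h' x) = fc σ y h + fc σ y h' := by
  simp only [fc, mul_add, expect_add_distrib]

theorem fc_sub (σ : (Fin n → Bool) → ℝ) (y : Fin n → X → Bool) (h h' : (Fin n → X) → ℝ) :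
    fc σ y (fun x => h x - h' x) = fc σ y h - fc σ y h' := by
  simp only [fc, mul_sub, expect_sub_distrib]

theorem fc_zero (σ : (Fin n → Bool) → ℝ) (y : Fin n → X → Bool) : fc σ y (fun _ => 0) = 0 := by
  simp [fc]

/-- The total pseudo-measure by rows and by columns. -/
theorem ex_fr_eq_ex_fc (σ : (Fin n → Bool) → ℝ) (h : (Fin n → X) → (Fin n → X → Bool) → ℝ) :
    𝔼 x, fr σ x (h x) = 𝔼 y, fc σ y (fun x => h x y) := by
  simp only [fr, fc]; exact ex_comm _

end Index

section Cell

variable {s n : ℕ} {Q U V : Type} [Fintype Q] [DecidableEq Q]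

theorem same_mix (ev : U → Q → V) (u : Fin n → Fin s → U) (v : Fin n → Fin s → V)
    (y y' : Fin n → Fin s × Q → Bool) : Same ev u v y (mix ev u v y y') := by
  intro j p h
  simp [mix, h]

theorem mix_of_same {ev : U → Q → V} {u : Fin n → Fin s → U} {v : Fin n → Fin s → V}
    {y₁ y₂ : Fin n → Fin s × Q → Bool} (h : Same ev u v y₁ y₂) (y' : Fin n → Fin s × Q → Bool) :
    mix ev u v y₁ y' = mix ev u v y₂ y' := by
  funext j p
  by_cases hp : ev (u j p.1) p.2 = v j p.1
  · simp [mix, hp, h j p hp]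
  · simp [mix, hp]

theorem obs_of_same {ev : U → Q → V} {u : Fin n → Fin s → U} {l : Fin n → Fin s → Q}
    {y₁ y₂ : Fin n → Fin s × Q → Bool} (h : Same ev u (lab ev l u) y₁ y₂) :
    obs l y₁ = obs l y₂ := by
  funext j
  simp only [obs, Prod.mk.injEq, true_and]
  funext b
  exact h j (b, l j b) rfl

/-- Resampling outside the cell. -/
theorem ex_mix (ev : U → Q → V) (u : Fin n → Fin s → U) (v : Fin n → Fin s → V)
    (H : (Fin n → Fin s × Q → Bool) → (Fin n → Fin s × Q → Bool) → ℝ)
    (hH : ∀ y₁ y₂ y, Same ev u v y₁ y₂ → H y₁ y = H y₂ y) :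
    𝔼 y, H y y = 𝔼 y, 𝔼 y', H y (mix ev u v y y') := by
  have hinv : Function.Involutive fun p : (Fin n → Fin s × Q → Bool) ×
      (Fin n → Fin s × Q → Bool) => (mix ev u v p.1 p.2, mix ev u v p.2 p.1) := by
    intro p
    ext j a <;> by_cases h : ev (u j a.1) a.2 = v j a.1 <;> simp [mix, h]
  have h1 := ex_equiv hinv.toPerm fun p => H p.1 p.1
  rw [ex_prod, ex_prod] at h1
  simp only [ex_const] at h1
  rw [← h1]
  refine expect_congr rfl fun y _ => expect_congr rfl fun y' _ => ?_
  exact (hH _ _ _ (same_mix ev u v y y')).symm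

end Cell

end Pool.Agent.Lib.MP_8a52c3_lc.Mono
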