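import Pool.Agent.Lib.MP_8a52c3_lc.Mono.P1
import Pool.Agent.Lib.MP_8a52c3_lc.Mono.Gad

/-! Strategies that see only the observations. -/

open Finset
open scoped BigOperators

namespace Pool.Agent.Lib.MP_8a52c3_lc.Mono

variable {s n : ℕ} [NeZero s] {Q : Type} [Fintype Q] [DecidableEq Q] [Nonempty Q]

theorem obsA_pt (q0 : Q) : 𝔼 q, (if q0 = q then (Fintype.card Q : ℝ) else 0) = 1 := by
  have hc : (Fintype.card Q : ℝ) ≠ 0 := by exact_mod_cast Fintype.card_ne_zero
  rw [ex_eq_sum, Finset.sum_ite_eq]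
  simp [hc]

theorem kap_nonneg (x : Fin s × Q) (l : Fin s → Q) : 0 ≤ kap x l := by
  unfold kap
  split_ifs
  · positivity
  · exact le_rfl

theorem ex_kap_left (l : Fin s → Q) : 𝔼 x, kap x l = 1 := by
  rw [ex_prod]
  have h : ∀ a : Fin s, 𝔼 q : Q, kap (a, q) l = 1 := fun a => obsA_pt (l a)
  simp only [h, ex_const]

theorem ex_kap_right (x : Fin s × Q) : 𝔼 l, kap x l = 1 := by
  have h := ex_coord x.1 (fun q : Q => if x.2 = q then (Fintype.card Q : ℝ) else 0)
  rw [obsA_pt] at h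
  rw [← h]
  refine expect_congr rfl fun l _ => ?_
  simp only [kap, eq_comm]

theorem tauO_obs (x : Fin s × Q) (c : Bool) (l : Fin s → Q) (y : Fin s × Q → Bool) :
    tauO x c (l, fun b => y (b, l b)) = kap x l * tauY x c y := by
  obtain ⟨a, q⟩ := x
  by_cases h : l a = q
  · subst h
    by_cases h' : y (a, l a) = c
    · simp [tauO, kap, tauY, h', mul_comm]
    · simp [tauO, kap, tauY, h']
  · simp [tauO, kap, h]

/-- Overwrite `y` with the observation `o`. -/
def ow (o : Fin n → Ob s Q) (y : Fin n → Fin s × Q → Bool) : Fin n → Fin s × Q → Bool :=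
  fun j p => if (o j).1 p.1 = p.2 then (o j).2 p.1 else y j p

theorem obsA_obs_ow (l : Fin n → Fin s → Q) (β : Fin n → Fin s → Bool)
    (y : Fin n → Fin s × Q → Bool) :
    obs l (ow (fun j => (l j, β j)) y) = fun j => (l j, β j) := by
  funext j
  simp [obs, ow]

theorem obsA_fix (l : Fin n → Fin s → Q) (G : (Fin n → Ob s Q) → ℝ)
    (h : (Fin n → Fin s × Q → Bool) → ℝ) :
    𝔼 y, G (obs l y) * h y = 𝔼 β : Fin n → Fin s → Bool,
      G (fun j => (l j, β j)) * 𝔼 y, h (ow (fun j => (l j, β j)) y) := by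
  have hinv : Function.Involutive fun p : (Fin n → Fin s → Bool) × (Fin n → Fin s × Q → Bool) =>
      ((fun j b => p.2 j (b, l j b), ow (fun j => (l j, p.1 j)) p.2) :
        (Fin n → Fin s → Bool) × (Fin n → Fin s × Q → Bool)) := by
    rintro ⟨β, y⟩
    refine Prod.ext ?_ ?_
    · funext j b
      simp [ow]
    · funext j p
      obtain ⟨a, q⟩ := p
      by_cases hq : l j a = q
      · subst hq
        simp [ow]
      · simp [ow, hq]
  have h1 := ex_equiv hinv.toPerm fun p => G (obs l p.2) * h p.2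
  rw [ex_prod, ex_prod] at h1
  simp only [ex_const] at h1
  rw [← h1]
  refine expect_congr rfl fun β _ => ?_
  rw [mul_expect]
  refine expect_congr rfl fun y _ => ?_
  change G (obs l (ow (fun j => (l j, β j)) y)) * h (ow (fun j => (l j, β j)) y) = _
  rw [obsA_obs_ow]

/-- Conditional expectation given the observation. -/
theorem ex_obs_mul (G : (Fin n → Ob s Q) → ℝ) (h : (Fin n → Fin s × Q → Bool) → ℝ) :
    𝔼 l : Fin n → Fin s → Q, 𝔼 y, G (obs l y) * h y = 𝔼 o, G o * 𝔼 y, h (ow o y) := by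
  simp only [obsA_fix]
  rw [← ex_equiv (Equiv.arrowProdEquivProdArrow (Fin n) (fun _ => Fin s → Q)
    (fun _ => Fin s → Bool)).symm, ex_prod]
  rfl

/-- The observation of a uniform pair is uniform. -/
theorem ex_obs (G : (Fin n → Ob s Q) → ℝ) :
    𝔼 l : Fin n → Fin s → Q, 𝔼 y : Fin n → Fin s × Q → Bool, G (obs l y) = 𝔼 o, G o := by
  have h := ex_obs_mul G fun _ => 1
  simpa only [mul_one, ex_const] using h

theorem obsA_ker (x : Fin n → Fin s × Q) (z : Fin n → Bool) (l : Fin n → Fin s → Q)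
    (y : Fin n → Fin s × Q → Bool) :
    ker tauO x z (obs l y) = (∏ j, kap (x j) (l j)) * ker tauY x z y := by
  simp only [ker, ← prod_mul_distrib]
  exact prod_congr rfl fun j _ => tauO_obs (x j) (z j) (l j) (y j)

theorem obsA_tauY_nonneg (a : Fin s × Q) (c : Bool) (y : Fin s × Q → Bool) : 0 ≤ tauY a c y := by
  unfold tauY
  split_ifs <;> norm_num

theorem obsA_tauY_le (a : Fin s × Q) (c : Bool) (y : Fin s × Q → Bool) : tauY a c y ≤ 2 := by
  unfold tauY
  split_ifs <;> norm_num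

theorem den_nonneg (x : Fin n → Fin s × Q) (t : (Fin n → Ob s Q) → Fin n → Bool)
    (l : Fin n → Fin s → Q) (y : Fin n → Fin s × Q → Bool) : 0 ≤ den x t l y := by
  rw [den, obsA_ker]
  exact mul_nonneg (prod_nonneg fun j _ => kap_nonneg _ _)
    (prod_nonneg fun j _ => obsA_tauY_nonneg _ _ _)

theorem den_le (x : Fin n → Fin s × Q) (t : (Fin n → Ob s Q) → Fin n → Bool)
    (l : Fin n → Fin s → Q) (y : Fin n → Fin s × Q → Bool) :
    den x t l y ≤ 2 ^ n * ∏ j, kap (x j) (l j) := by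
  rw [den, obsA_ker, mul_comm]
  refine mul_le_mul_of_nonneg_right ?_ (prod_nonneg fun j _ => kap_nonneg _ _)
  calc ker tauY x (t (obs l y)) y ≤ ∏ _j : Fin n, (2 : ℝ) :=
        prod_le_prod (fun j _ => obsA_tauY_nonneg _ _ _) fun j _ => obsA_tauY_le _ _ _
    _ = 2 ^ n := by simp

theorem ex_den_left (t : (Fin n → Fin s × Q) → (Fin n → Ob s Q) → Fin n → Bool)
    (l : Fin n → Fin s → Q) (y : Fin n → Fin s × Q → Bool) : 𝔼 x, den x (t x) l y ≤ 2 ^ n := by
  refine (ex_mono fun x => den_le x (t x) l y).trans_eq ?_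
  rw [← mul_expect, ex_pi_prod fun j a => kap a (l j)]
  simp only [ex_kap_left, prod_const_one, mul_one]

theorem ex_den_right (x : Fin n → Fin s × Q) (t : (Fin n → Ob s Q) → Fin n → Bool)
    (y : Fin n → Fin s × Q → Bool) : 𝔼 l, den x t l y ≤ 2 ^ n := by
  refine (ex_mono fun l => den_le x t l y).trans_eq ?_
  rw [← mul_expect, ex_pi_prod fun j a => kap (x j) a]
  simp only [ex_kap_right, prod_const_one, mul_one]

theorem ex_den (x : Fin n → Fin s × Q) {t : (Fin n → Ob s Q) → Fin n → Bool} (ht : Adapted t) :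
    𝔼 l, 𝔼 y, den x t l y = 1 := by
  exact (ex_obs fun o => ker tauO x (t o) o).trans (ex_ker_adapted ex_tauO_one x ht)

theorem val_lip (x : Fin n → Fin s × Q) (t : (Fin n → Ob s Q) → Fin n → Bool)
    (h h' : (Fin n → Fin s × Q → Bool) → ℝ) :
    val x t h ≤ val x t h' + 2 ^ n * 𝔼 y, |h y - h' y| := by
  have h1 : val x t h ≤ 𝔼 l, 𝔼 y, (den x t l y * h' y + den x t l y * |h y - h' y|) := by
    refine ex_mono fun l => ex_mono fun y => ?_
    rw [← mul_add]
    refine mul_le_mul_of_nonneg_left ?_ (den_nonneg x t l y)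
    linarith [le_abs_self (h y - h' y)]
  simp only [expect_add_distrib] at h1
  refine h1.trans (add_le_add le_rfl ?_)
  rw [ex_comm, mul_expect]
  refine ex_mono fun y => ?_
  rw [← expect_mul]
  exact mul_le_mul_of_nonneg_right (ex_den_right x t y) (abs_nonneg _)

theorem obsA_ff (σ : (Fin n → Bool) → ℝ) (x : Fin n → Fin s × Q)
    (h : (Fin n → Fin s × Q → Bool) → ℝ) :
    ff tauO σ x (fun o => 𝔼 y, h (ow o y)) = fr σ x h := by
  rw [← ff_tauY]
  refine expect_congr rfl fun z _ => congrArg (σ z * ·) ?_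
  rw [← ex_obs_mul (fun o => ker tauO x z o) h, ex_comm]
  refine expect_congr rfl fun y _ => ?_
  simp only [obsA_ker, mul_assoc]
  rw [← expect_mul, ex_pi_prod fun j a => kap (x j) a]
  simp only [ex_kap_right, prod_const_one, one_mul]

/-- Strategies on observations with small value. -/
theorem obs_strat {t C Λ : ℝ} {r : ℕ} {σ : (Fin n → Bool) → ℝ} (ht : 1 ≤ t)
    (hs : 4 * t ^ 2 ≤ s) (hσ : IsPseudo n (2 * r) Λ σ) {h : (Fin n → Fin s × Q → Bool) → ℝ}
    (h0 : ∀ y, 0 ≤ h y) (hC : ∀ y, h y ≤ C) :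
    ∃ e, Small (Λ * 9 ^ n * C / t ^ r) e ∧ ∀ x, ∀ ρ ∈ cons σ r, ∃ st, Adapted st ∧ Resp st ρ ∧
      val x st h ≤ 2 ^ r * (fr σ x h + e x) := by
  have hs0 : (0 : ℝ) < s := by exact_mod_cast Nat.pos_of_ne_zero (NeZero.ne s)
  have hl : 4 * t ^ 2 * (1 / (s : ℝ)) ≤ 1 := by
    rw [mul_one_div, div_le_one hs0]
    exact hs
  obtain ⟨e, he, hx⟩ := p1 (gad_tauO (s := s) (Q := Q)) ht hl hσ
    (h := fun o => 𝔼 y, h (ow o y)) (C := C) (fun o => ex_nonneg fun y => h0 _)
    (fun o => ex_le fun y => hC _)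
  refine ⟨e, he, fun x ρ hρ => ?_⟩
  obtain ⟨st, ha, hr, hv⟩ := exists_strat tauO ρ x fun o => 𝔼 y, h (ow o y)
  refine ⟨st, ha, hr, ?_⟩
  have h1 : val x st h = wv tauO n ρ x fun o => 𝔼 y, h (ow o y) :=
    (ex_obs_mul (fun o => ker tauO x (st o) o) h).trans hv
  rw [h1, ← obsA_ff]
  exact (hx x).2.2 ρ hρ

end Pool.Agent.Lib.MP_8a52c3_lc.Mono
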