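import Pool.Agent.Lib.MP_8a52c3_lc.Mono.Finner
import Pool.Agent.Lib.MP_8a52c3_lc.Mono.Obs

/-! The entropy inequality in one block. -/

open Finset
open scoped BigOperators

namespace Pool.Agent.Lib.MP_8a52c3_lc.Mono

variable {s : ℕ} [NeZero s] {Q U V : Type} [Fintype Q] [DecidableEq Q] [Nonempty Q] [Fintype U]
  [Nonempty U]

theorem blk_two {ι α : Type} [Fintype ι] [DecidableEq ι] [Fintype α] [Nonempty α] {i j : ι}
    (h : i ≠ j) (f g : α → ℝ) :
    𝔼 l : ι → α, f (l i) * g (l j) = (𝔼 a, f a) * 𝔼 a, g a := by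
  have e := ex_pi_prod fun (t : ι) (a : α) => if t = i then f a else if t = j then g a else 1
  rw [Fintype.prod_eq_mul i j h fun t ht => by simp [ht.1, ht.2]] at e
  simp only [if_true, h.symm, if_false] at e
  rw [← e]
  refine expect_congr rfl fun l _ => ?_
  rw [Fintype.prod_eq_mul i j h fun t ht => by simp [ht.1, ht.2]]
  simp [h.symm]

omit [Nonempty Q] [Nonempty U] [NeZero s] in
theorem blk_sum (x : Fin s × Q) (f : (Fin s → Q) × (Fin s → U) → ℝ) :
    ∑ ω : (Fin s → Q) × (Fin s → U), kap x ω.1 / Fintype.card ((Fin s → Q) × (Fin s → U)) * f ω =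
      𝔼 l, 𝔼 u, kap x l * f (l, u) := by
  rw [← ex_prod fun ω : (Fin s → Q) × (Fin s → U) => kap x ω.1 * f ω, ex_eq_sum, sum_div]
  exact sum_congr rfl fun ω _ => by ring

theorem coverage {ev : U → Q → V} {η : ℝ} {k : ℕ} (hD : IsDesign ev η k) (x p : Fin s × Q)
    (hp : p ≠ x) :
    𝔼 l : Fin s → Q, 𝔼 u : Fin s → U, kap x l * ind (ev (u p.1) p.2 = ev (u p.1) (l p.1)) ≤ η := by
  have e : ∀ l : Fin s → Q, 𝔼 u : Fin s → U, kap x l * ind (ev (u p.1) p.2 = ev (u p.1) (l p.1)) =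
      kap x l * 𝔼 a, ind (ev a p.2 = ev a (l p.1)) := fun l => by
    rw [← mul_expect, ex_coord p.1 fun a => ind (ev a p.2 = ev a (l p.1))]
  simp only [e]
  by_cases h : p.1 = x.1
  · have h2 : p.2 ≠ x.2 := fun h' => hp (Prod.ext h h')
    refine (ex_mono (g := fun l => kap x l * η) fun l => ?_).trans_eq ?_
    · by_cases hl : l x.1 = x.2
      · rw [h, hl]
        exact mul_le_mul_of_nonneg_left (hD.cov1 _ _ h2) (kap_nonneg x l)
      · simp [kap, hl]
    · rw [← expect_mul, ex_kap_right, one_mul]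
  · have h1 := blk_two (Ne.symm h) (fun q : Q => if q = x.2 then (Fintype.card Q : ℝ) else 0)
      fun q => 𝔼 a, ind (ev a p.2 = ev a q)
    have h2 := ex_coord x.1 fun q : Q => if q = x.2 then (Fintype.card Q : ℝ) else 0
    rw [← h2, ex_comm fun q a => ind (ev a p.2 = ev a q)] at h1
    have h3 : 𝔼 l : Fin s → Q, (if l x.1 = x.2 then (Fintype.card Q : ℝ) else 0) = 1 :=
      ex_kap_right x
    rw [h3, one_mul] at h1
    exact h1.trans_le (hD.cov2 _)

theorem block {ev : U → Q → V} {η : ℝ} {k : ℕ} (hD : IsDesign ev η k) (hη : 0 < η)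
    (x : Fin s × Q) (c : Bool) (b : (Fin s × Q → Bool) → ℝ) (hb : ∀ y, 0 ≤ b y) {Z : ℝ}
    (hZ : 𝔼 y, tauY x c y * b y = Z) (hZ0 : 0 < Z)
    (ψ : (Fin s → Q) → (Fin s → U) → (Fin s × Q → Bool) → ℝ)
    (hψ : ∀ l u y y', (∀ p : Fin s × Q, ev (u p.1) p.2 = ev (u p.1) (l p.1) → y p = y' p) →
      ψ l u y = ψ l u y') :
    𝔼 l, 𝔼 y, 𝔼 u, kap x l * tauY x c y * (b y / Z) * (ψ l u y - η * Real.log (b y)) ≤
      Real.log (𝔼 l, 𝔼 y, 𝔼 u, kap x l * tauY x c y * Real.exp (ψ l u y)) - η * Real.log Z := by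
  obtain ⟨μ, hμ⟩ : ∃ μ : (Fin s → Q) × (Fin s → U) → ℝ,
      μ = fun ω => kap x ω.1 / Fintype.card ((Fin s → Q) × (Fin s → U)) := ⟨_, rfl⟩
  have hs : ∀ f : (Fin s → Q) × (Fin s → U) → ℝ,
      ∑ ω, μ ω * f ω = 𝔼 l, 𝔼 u, kap x l * f (l, u) := fun f => by
    rw [hμ]
    exact blk_sum x f
  have h0 : ∀ ω, 0 ≤ μ ω := fun ω => by
    rw [hμ]
    exact div_nonneg (kap_nonneg _ _) (Nat.cast_nonneg _)
  have h1 : ∑ ω, μ ω = 1 := by
    simpa only [mul_one, ex_const, ex_kap_right] using hs fun _ => 1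
  have hp : 𝔼 y, tauY x c y * (b y / Z) = 1 := by
    simp only [← mul_div_assoc]
    rw [← expect_div, hZ, div_self hZ0.ne']
  have hg := gibbs (tauY x c) (fun y => b y / Z) (fun y => ∑ ω, μ ω / η * ψ ω.1 ω.2 y)
    (fun y => by unfold tauY; split_ifs <;> norm_num) (fun y => div_nonneg (hb y) hZ0.le) hp
  rw [ex_tauY x c fun y => Real.exp (∑ ω, μ ω / η * ψ ω.1 ω.2 y)] at hg
  have hf := finner (fun ω => μ ω / η) (fun ω => div_nonneg (h0 ω) hη.le)
    (fun ω (p : Fin s × Q) => p ≠ x ∧ ev (ω.2 p.1) p.2 = ev (ω.2 p.1) (ω.1 p.1)) (fun p => ?_)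
    (fun ω y => ψ ω.1 ω.2 (Function.update y x c)) fun ω y y' h => hψ _ _ _ _ fun p hp => ?_
  rotate_left
  · by_cases hp : p = x
    · simp [hp, ind]
    · simp only [div_mul_eq_mul_div, ← sum_div, div_le_one hη, ne_eq, hp, not_false_eq_true,
        true_and]
      rw [hs fun ω => ind (ev (ω.2 p.1) p.2 = ev (ω.2 p.1) (ω.1 p.1))]
      exact coverage hD x p hp
  · by_cases hpx : p = x
    · simp [hpx]
    · rw [Function.update_of_ne hpx, Function.update_of_ne hpx, h p ⟨hpx, hp⟩]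
  have hpos : ∀ ω : (Fin s → Q) × (Fin s → U),
      0 < 𝔼 y, Real.exp (ψ ω.1 ω.2 (Function.update y x c)) := fun ω =>
    expect_pos (fun y _ => Real.exp_pos _) univ_nonempty
  have hj := exp_sum_le μ
    (fun ω => Real.log (𝔼 y, Real.exp (ψ ω.1 ω.2 (Function.update y x c)))) h0 h1
  simp only [Real.exp_log (hpos _)] at hj
  have e1 : ∑ ω, μ ω * 𝔼 y, Real.exp (ψ ω.1 ω.2 (Function.update y x c)) =
      𝔼 l, 𝔼 y, 𝔼 u, kap x l * tauY x c y * Real.exp (ψ l u y) := by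
    rw [hs fun ω => 𝔼 y, Real.exp (ψ ω.1 ω.2 (Function.update y x c))]
    refine expect_congr rfl fun l _ => ?_
    rw [ex_comm fun y u => kap x l * tauY x c y * Real.exp (ψ l u y)]
    refine expect_congr rfl fun u _ => ?_
    rw [← ex_tauY x c fun y => Real.exp (ψ l u y), mul_expect]
    simp only [mul_assoc]
  rw [e1] at hj
  have hj' := (Real.le_log_iff_exp_le ((Real.exp_pos _).trans_le hj)).2 hj
  have e2 : 𝔼 l, 𝔼 y, 𝔼 u, kap x l * tauY x c y * (b y / Z) * (ψ l u y - η * Real.log (b y)) =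
      η * (𝔼 y, tauY x c y * (b y / Z) * (∑ ω, μ ω / η * ψ ω.1 ω.2 y - Real.log (b y / Z))) -
        η * Real.log Z * 𝔼 y, tauY x c y * (b y / Z) := by
    rw [ex_comm, mul_expect, mul_expect, ← expect_sub_distrib]
    refine expect_congr rfl fun y _ => ?_
    have e3 : b y / Z * Real.log (b y / Z) = b y / Z * (Real.log (b y) - Real.log Z) := by
      rcases (hb y).eq_or_lt with h | h
      · simp [← h]
      · rw [Real.log_div h.ne' hZ0.ne']
    have e4 : η * ∑ ω, μ ω / η * ψ ω.1 ω.2 y = ∑ ω, μ ω * ψ ω.1 ω.2 y := by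
      rw [mul_sum]
      exact sum_congr rfl fun ω _ => by field_simp
    have e5 := hs fun ω => tauY x c y * (b y / Z) * (ψ ω.1 ω.2 y - η * Real.log (b y))
    simp only [← mul_assoc] at e5
    rw [← e5]
    have e6 : ∀ ω, μ ω * tauY x c y * (b y / Z) * (ψ ω.1 ω.2 y - η * Real.log (b y)) =
        tauY x c y * (b y / Z) * (μ ω * ψ ω.1 ω.2 y) -
          tauY x c y * (b y / Z) * (η * Real.log (b y)) * μ ω := fun ω => by ring
    simp only [e6, sum_sub_distrib, ← mul_sum]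
    rw [h1, ← e4]
    linear_combination η * tauY x c y * e3
  have e7 : η * ∑ ω, μ ω / η * Real.log (𝔼 y, Real.exp (ψ ω.1 ω.2 (Function.update y x c))) =
      ∑ ω, μ ω * Real.log (𝔼 y, Real.exp (ψ ω.1 ω.2 (Function.update y x c))) := by
    rw [mul_sum]
    exact sum_congr rfl fun ω _ => by field_simp
  rw [e2, hp, mul_one]
  linarith [mul_le_mul_of_nonneg_left (hg.trans hf) hη.le]

end Pool.Agent.Lib.MP_8a52c3_lc.Mono
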