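import Pool.Agent.Lib.MP_8a52c3_lc.Mono.Basic

/-! Covering the slices of triangles by few functions. -/

open Finset
open scoped BigOperators

namespace Pool.Agent.Lib.MP_8a52c3_lc.Mono

variable {α β : Type} [Fintype β] [Nonempty β]

omit [Fintype β] [Nonempty β] in
theorem Tri.swap {R : α → β → Prop} (h : Tri R) : Tri fun y x => R x y := by
  intro y y' x x' h1 h2
  exact (h x x' y y' h1 h2).symm

omit [Fintype β] [Nonempty β] in
theorem Tri.restrict {R : α → β → Prop} (h : Tri R) (A : α → Prop) (B : β → Prop) :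
    Tri fun x y => A x ∧ B y ∧ R x y := by
  rintro x x' y y' ⟨a1, b1, h1⟩ ⟨a2, b2, h2⟩
  exact (h x x' y y' h1 h2).imp (fun h3 => ⟨a1, b2, h3⟩) fun h3 => ⟨a2, b1, h3⟩

omit [Fintype β] [Nonempty β] in
theorem Tri.compl {R : α → β → Prop} (h : Tri R) : Tri fun x y => ¬ R x y := by
  intro x x' y y' h1 h2
  by_contra h3
  rw [not_or, not_not, not_not] at h3
  exact (h x x' y' y h3.1 h3.2).elim h1 h2

omit [Fintype β] [Nonempty β] in
theorem tri_false : Tri fun (_ : α) (_ : β) => False := by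
  intro _ _ _ _ h _
  exact h.elim

theorem Tri.cov {R : α → β → Prop} (h : Tri R) {K : ℕ} (hK : 0 < K) :
    Cov (K + 1) (1 / K) fun x y => ind (R x y) := by
  classical
  have hK' : (0 : ℝ) < K := by exact_mod_cast hK
  have nest : ∀ x x', (∀ y, R x y → R x' y) →
      𝔼 y, |ind (R x y) - ind (R x' y)| = 𝔼 y, ind (R x' y) - 𝔼 y, ind (R x y) := by
    intro x x' hx
    rw [← expect_sub_distrib]
    refine expect_congr rfl fun y _ => ?_
    rw [abs_sub_comm, abs_of_nonneg (sub_nonneg.2 (ind_mono (hx y)))]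
  have dist : ∀ x x', 𝔼 y, |ind (R x y) - ind (R x' y)| ≤
      |𝔼 y, ind (R x y) - 𝔼 y, ind (R x' y)| := by
    intro x x'
    by_cases hx : ∀ y, R x y → R x' y
    · rw [nest x x' hx, abs_sub_comm]
      exact le_abs_self _
    · obtain ⟨y, hy⟩ := not_forall.1 hx
      obtain ⟨hy1, hy2⟩ := Classical.not_imp.1 hy
      have h1 := nest x' x fun y' hy' => (h x x' y y' hy1 hy').resolve_right hy2
      simp only [abs_sub_comm (ind (R x _))]
      rw [h1]
      exact le_abs_self _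
  have h0 : ∀ x, 0 ≤ (K : ℝ) * 𝔼 y, ind (R x y) := fun x =>
    mul_nonneg hK'.le (ex_nonneg fun y => ind_nonneg _)
  have hb : ∀ x, ⌊(K : ℝ) * 𝔼 y, ind (R x y)⌋₊ < K + 1 := fun x => by
    refine Nat.lt_succ_of_le (Nat.floor_le_of_le ?_)
    exact mul_le_of_le_one_right hK'.le (ex_le fun y => ind_le_one _)
  refine ⟨fun i y => if hi : ∃ x, ⌊(K : ℝ) * 𝔼 y, ind (R x y)⌋₊ = i then ind (R hi.choose y)
    else 0, fun x => ⟨⟨_, hb x⟩, ?_⟩⟩
  have hi : ∃ x', ⌊(K : ℝ) * 𝔼 y, ind (R x' y)⌋₊ = ⌊(K : ℝ) * 𝔼 y, ind (R x y)⌋₊ := ⟨x, rfl⟩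
  simp only [dif_pos hi]
  refine (dist x _).trans ?_
  have h1 := Nat.floor_le (h0 x)
  have h2 := Nat.lt_floor_add_one ((K : ℝ) * 𝔼 y, ind (R x y))
  have h3 := Nat.floor_le (h0 hi.choose)
  have h4 := Nat.lt_floor_add_one ((K : ℝ) * 𝔼 y, ind (R hi.choose y))
  rw [hi.choose_spec] at h3 h4
  generalize hi.choose = x' at h3 h4 ⊢
  have h5 : 1 / (K : ℝ) * K = 1 := one_div_mul_cancel hK'.ne'
  rw [abs_le]
  constructor <;> refine le_of_mul_le_mul_right ?_ hK' <;> linarith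

omit [Nonempty β] in
theorem Cov.add {K K' : ℕ} {δ δ' : ℝ} {h h' : α → β → ℝ} (H : Cov K δ h) (H' : Cov K' δ' h') :
    Cov (K * K') (δ + δ') fun x y => h x y + h' x y := by
  obtain ⟨d, hd⟩ := H
  obtain ⟨d', hd'⟩ := H'
  refine ⟨fun i y => d (finProdFinEquiv.symm i).1 y + d' (finProdFinEquiv.symm i).2 y, fun x => ?_⟩
  obtain ⟨i, hi⟩ := hd x
  obtain ⟨i', hi'⟩ := hd' x
  refine ⟨finProdFinEquiv (i, i'), le_trans ?_ (add_le_add hi hi')⟩
  rw [← expect_add_distrib]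
  refine ex_mono fun y => ?_
  simp only [Equiv.symm_apply_apply]
  refine le_trans (le_of_eq (congrArg _ ?_)) (abs_add_le _ _)
  ring

omit [Nonempty β] in
theorem Cov.sub {K K' : ℕ} {δ δ' : ℝ} {h h' : α → β → ℝ} (H : Cov K δ h) (H' : Cov K' δ' h') :
    Cov (K * K') (δ + δ') fun x y => h x y - h' x y := by
  obtain ⟨d, hd⟩ := H
  obtain ⟨d', hd'⟩ := H'
  refine ⟨fun i y => d (finProdFinEquiv.symm i).1 y - d' (finProdFinEquiv.symm i).2 y, fun x => ?_⟩
  obtain ⟨i, hi⟩ := hd x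
  obtain ⟨i', hi'⟩ := hd' x
  refine ⟨finProdFinEquiv (i, i'), le_trans ?_ (add_le_add hi hi')⟩
  rw [← expect_add_distrib]
  refine ex_mono fun y => ?_
  simp only [Equiv.symm_apply_apply]
  refine le_trans (le_of_eq (congrArg _ ?_)) (abs_sub _ _)
  ring

omit [Nonempty β] in
/-- The approximating functions can be clipped to the range of the family. -/
theorem Cov.clip {K : ℕ} {δ C : ℝ} {h : α → β → ℝ} (H : Cov K δ h) (hC0 : 0 ≤ C)
    (h0 : ∀ x y, 0 ≤ h x y) (hC : ∀ x y, h x y ≤ C) :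
    ∃ d : Fin K → β → ℝ, (∀ i y, 0 ≤ d i y) ∧ (∀ i y, d i y ≤ C) ∧
      ∀ x, ∃ i, 𝔼 y, |h x y - d i y| ≤ δ := by
  obtain ⟨d, hd⟩ := H
  refine ⟨fun i y => max 0 (min C (d i y)), fun i y => le_max_left _ _,
    fun i y => max_le hC0 (min_le_left _ _), fun x => ?_⟩
  obtain ⟨i, hi⟩ := hd x
  refine ⟨i, le_trans (ex_mono fun y => ?_) hi⟩
  have h1 := h0 x y
  have h2 := hC x y
  have h3 := le_abs_self (h x y - d i y)
  have h4 := neg_abs_le (h x y - d i y)
  have h5 := abs_nonneg (h x y - d i y)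
  rw [abs_le]
  beta_reduce
  rcases le_total C (d i y) with h6 | h6
  · rw [min_eq_left h6, max_eq_right hC0]
    constructor <;> linarith
  · rw [min_eq_right h6]
    rcases le_total 0 (d i y) with h7 | h7
    · rw [max_eq_right h7]
      constructor <;> linarith
    · rw [max_eq_left h7]
      constructor <;> linarith

/-- Lower quantiles of a total preorder. -/
theorem quantile_le {γ : Type} [Fintype γ] (le : γ → γ → Prop) (htot : ∀ a b, le a b ∨ le b a)
    (htr : ∀ a b c, le a b → le b c → le a c) {β₀ : ℝ} (hβ : 0 ≤ β₀) :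
    𝔼 a, ind (𝔼 a', ind (le a' a) < β₀) ≤ β₀ := by
  classical
  by_cases hS : (univ.filter fun a => 𝔼 a', ind (le a' a) < β₀).Nonempty
  · obtain ⟨b, hb, hmax⟩ := exists_max_image _ (fun a => 𝔼 a', ind (le a' a)) hS
    refine le_trans (ex_mono fun a => ind_mono fun ha => ?_) (mem_filter.1 hb).2.le
    by_contra hab
    have hba := (htot a b).resolve_left hab
    refine absurd (hmax a (mem_filter.2 ⟨mem_univ _, ha⟩)) (not_le.2 ?_)
    have hc : (0 : ℝ) < Fintype.card γ := by exact_mod_cast Fintype.card_pos_iff.2 ⟨a⟩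
    rw [ex_eq_sum, ex_eq_sum]
    refine div_lt_div_of_pos_right (sum_lt_sum (fun c _ => ind_mono fun hc => htr _ _ _ hc hba)
      ⟨a, mem_univ _, ?_⟩) hc
    rw [ind_of_not hab, ind_of ((htot a a).elim id id)]
    exact one_pos
  · refine le_trans (le_of_eq ?_) hβ
    exact expect_eq_zero fun a _ =>
      ind_of_not fun ha => hS ⟨a, mem_filter.2 ⟨mem_univ _, ha⟩⟩

end Pool.Agent.Lib.MP_8a52c3_lc.Mono
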