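import Pool.Agent.Lib.MP_8a52c3_lc.Mono.Wv
import Pool.Agent.Lib.MP_8a52c3_lc.Mono.Cover

/-! The bottleneck argument. -/

open Finset
open scoped BigOperators

namespace Pool.Agent.Lib.MP_8a52c3_lc.Mono

variable {s n : ℕ} [NeZero s] {Q : Type} [Fintype Q] [DecidableEq Q] [Nonempty Q]

theorem botA_mass {α : Type} [Fintype α] {φ D : ℝ} (hφ : 0 < φ) {A A' : α → Prop} {f g : α → ℝ}
    {c : ℝ} (hA : 𝔼 a, ind (¬ A a) ≤ c) (h1 : ∀ a, A a → φ < f a → g a = f a)
    (h0 : ∀ a, ¬ (A a ∧ φ < f a) → g a = 0) (hg : 𝔼 a, g a ≤ φ / D)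
    (hA' : ∀ a, A' a ↔ A a ∧ f a ≤ φ) : 𝔼 a, ind (¬ A' a) ≤ c + 1 / D := by
  have e1 : φ * 𝔼 a, ind (A a ∧ φ < f a) ≤ φ * (1 / D) := by
    rw [mul_expect, mul_one_div]
    refine (ex_mono fun a => ?_).trans hg
    by_cases h : A a ∧ φ < f a
    · rw [ind_of h, h1 a h.1 h.2, mul_one]
      exact h.2.le
    · rw [ind_of_not h, h0 a h, mul_zero]
  have e2 := le_of_mul_le_mul_left e1 hφ
  refine le_trans (ex_mono (g := fun a => ind (¬ A a) + ind (A a ∧ φ < f a)) fun a => ?_) ?_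
  · refine (ind_mono fun h => ?_).trans (ind_or_le _ _)
    by_cases ha : A a
    · exact Or.inr ⟨ha, lt_of_not_ge fun h' => h ((hA' a).2 ⟨ha, h'⟩)⟩
    · exact Or.inl ha
  · rw [expect_add_distrib]
    exact add_le_add hA e2

/-- The invariant after `m` nodes. -/
def botInv (σ : (Fin n → Bool) → ℝ) (φ D : ℝ) {S : ℕ}
    (T : Fin S → (Fin n → Fin s × Q) → (Fin n → Fin s × Q → Bool) → Prop) (m : ℕ)
    (A : (Fin n → Fin s × Q) → Prop) (B : (Fin n → Fin s × Q → Bool) → Prop)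
    (R : Fin S → (Fin n → Fin s × Q) → (Fin n → Fin s × Q → Bool) → Prop) : Prop :=
  𝔼 x, ind (¬ A x) ≤ m / D ∧ 𝔼 y, ind (¬ B y) ≤ m / D ∧ ∀ v : Fin S, (v : ℕ) < m →
    Tri (R v) ∧ (∀ x y, A x → B y → T v x y → R v x y) ∧
      (∀ x, A x → fr σ x (fun y => ind (R v x y)) ≤ φ) ∧
      ∀ y, B y → fc σ y (fun x => ind (R v x y)) ≤ φ

theorem botA_aux {σ : (Fin n → Bool) → ℝ} {r : ℕ} {ε φ D : ℝ} (hφ : 0 < φ)
    (hε : ε ≤ φ / D) (hE : Env σ s Q r ε) (hI : Improves σ s Q ε φ D)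
    {S : ℕ} {T : Fin S → (Fin n → Fin s × Q) → (Fin n → Fin s × Q → Bool) → Prop}
    (hT : IsDag σ T) {v : Fin S} {A B R} (h : botInv σ φ D T v A B R)
    (A₀ : (Fin n → Fin s × Q) → Prop) (B₀ : (Fin n → Fin s × Q → Bool) → Prop)
    (hA : ∀ x, A₀ x → A x) (hB : ∀ y, B₀ y → B y) :
    𝔼 x, fr σ x (fun y => ind (A₀ x ∧ B₀ y ∧ T v x y)) ≤ φ / D := by
  have htri := (hT.tri v).restrict A₀ B₀
  rcases hT.step v with h0 | ⟨u, w, hu, hw, huw⟩
  · obtain ⟨e, he, h1⟩ := hE.rowPos _ _ _ htri (hT.tri v) tri_false fun x y k => Or.inl k.2.2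
    refine (ex_mono fun x => ?_).trans (he.2.trans hε)
    have := h1 x
    simp only [h0 x, ind_of_not not_false, fr_zero] at this
    linarith
  · obtain ⟨tu, cu, ru, lu⟩ := h.2.2 u hu
    obtain ⟨tw, cw, rw', lw⟩ := h.2.2 w hw
    have hc : ∀ x y, A₀ x ∧ B₀ y ∧ T v x y → R u x y ∨ R w x y := fun x y k =>
      (huw x y k.2.2).imp (cu x y (hA x k.1) (hB y k.2.1)) (cw x y (hA x k.1) (hB y k.2.1))
    refine hI _ htri ?_ ?_
    · obtain ⟨e, he, h1⟩ := hE.rowPos _ _ _ htri tu tw hc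
      refine ⟨e, he, fun x => ?_⟩
      by_cases hx : A₀ x
      · have := h1 x
        have := ru x (hA x hx)
        have := rw' x (hA x hx)
        linarith
      · have e0 : (fun y => ind (A₀ x ∧ B₀ y ∧ T v x y)) = fun _ => 0 :=
          funext fun y => ind_of_not fun k => hx k.1
        rw [e0, fr_zero]
        have := he.1 x
        linarith
    · obtain ⟨e, he, h1⟩ := hE.colPos _ _ _ htri tu tw hc
      refine ⟨e, he, fun y => ?_⟩
      by_cases hy : B₀ y
      · have := h1 y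
        have := lu y (hB y hy)
        have := lw y (hB y hy)
        linarith
      · have e0 : (fun x => ind (A₀ x ∧ B₀ y ∧ T v x y)) = fun _ => 0 :=
          funext fun x => ind_of_not fun k => hy k.2.1
        rw [e0, fc_zero]
        have := he.1 y
        linarith

theorem botA_step {σ : (Fin n → Bool) → ℝ} {r : ℕ} {ε φ D : ℝ} (hφ : 0 < φ)
    (hε : ε ≤ φ / D) (hE : Env σ s Q r ε) (hI : Improves σ s Q ε φ D)
    {S : ℕ} {T : Fin S → (Fin n → Fin s × Q) → (Fin n → Fin s × Q → Bool) → Prop}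
    (hT : IsDag σ T) {v : Fin S} {A B R} (h : botInv σ φ D T v A B R) :
    ∃ A' B' R', botInv σ φ D T (v + 1) A' B' R' := by
  refine ⟨fun x => A x ∧ fr σ x (fun y => ind (A x ∧ B y ∧ T v x y)) ≤ φ,
    fun y => B y ∧ fc σ y (fun x => ind (A x ∧ B y ∧ T v x y)) ≤ φ,
    Function.update R v fun x y => A x ∧ B y ∧ T v x y, ?_, ?_, fun u hu => ?_⟩
  · rw [Nat.cast_add_one, add_div]
    refine botA_mass hφ h.1 (fun x hx hf => ?_) (fun x hx => ?_) (botA_aux hφ hε hE hI hT h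
      (fun x => A x ∧ φ < fr σ x (fun y => ind (A x ∧ B y ∧ T v x y))) B (fun _ k => k.1)
      fun _ k => k) fun _ => Iff.rfl
    · exact congrArg _ (funext fun y => ind_congr (and_congr_left' (and_iff_left hf)))
    · exact (congrArg _ (funext fun y => ind_of_not fun k => hx k.1)).trans (fr_zero σ x)
  · rw [Nat.cast_add_one, add_div]
    have := botA_aux hφ hε hE hI hT h A
      (fun y => B y ∧ φ < fc σ y (fun x => ind (A x ∧ B y ∧ T v x y))) (fun _ k => k)
      fun _ k => k.1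
    rw [ex_fr_eq_ex_fc σ fun x y => ind (A x ∧
      (B y ∧ φ < fc σ y (fun x => ind (A x ∧ B y ∧ T v x y))) ∧ T v x y)] at this
    refine botA_mass hφ h.2.1 (fun y hy hf => ?_) (fun y hy => ?_) this fun _ => Iff.rfl
    · exact congrArg _ (funext fun x =>
        ind_congr (and_congr_right' (and_congr_left' (and_iff_left hf))))
    · exact (congrArg _ (funext fun x => ind_of_not fun k => hy k.2.1)).trans (fc_zero σ y)
  · by_cases e : u = v
    · subst e
      rw [Function.update_self]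
      exact ⟨(hT.tri u).restrict A B, fun x y hx hy k => ⟨hx.1, hy.1, k⟩, fun x hx => hx.2,
        fun y hy => hy.2⟩
    · rw [Function.update_of_ne e]
      obtain ⟨a, b, c, d⟩ := h.2.2 u (by
        have : (u : ℕ) ≠ v := fun k => e (Fin.ext k)
        omega)
      exact ⟨a, fun x y hx hy => b x y hx.1 hy.1, fun x hx => c x hx.1, fun y hy => d y hy.1⟩

theorem botA_all {σ : (Fin n → Bool) → ℝ} {r : ℕ} {ε φ D : ℝ} (hφ : 0 < φ)
    (hε : ε ≤ φ / D) (hE : Env σ s Q r ε) (hI : Improves σ s Q ε φ D)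
    {S : ℕ} {T : Fin S → (Fin n → Fin s × Q) → (Fin n → Fin s × Q → Bool) → Prop}
    (hT : IsDag σ T) (m : ℕ) (hm : m ≤ S) : ∃ A B R, botInv σ φ D T m A B R := by
  induction m with
  | zero =>
    refine ⟨fun _ => True, fun _ => True, T, ?_, ?_, fun v hv => absurd hv (Nat.not_lt_zero _)⟩
    · simp [ind]
    · simp [ind]
  | succ m ih =>
    obtain ⟨A, B, R, h⟩ := ih (by omega)
    exact botA_step hφ hε hE hI hT (v := ⟨m, hm⟩) h

theorem bottle {σ : (Fin n → Bool) → ℝ} (hσ : 𝔼 z, σ z = 1) {r : ℕ} {ε φ D B : ℝ} (hφ : 0 < φ)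
    (hφ1 : φ ≤ 1 / 8) (hD : 0 < D) (hε : ε ≤ φ / D) (hε1 : ε ≤ 1 / 8) (hB1 : 1 ≤ B)
    (hB : ((cons σ r).card : ℝ) * 2 ^ r ≤ B) (hE : Env σ s Q r ε) (hI : Improves σ s Q ε φ D)
    {S : ℕ} {T : Fin S → (Fin n → Fin s × Q) → (Fin n → Fin s × Q → Bool) → Prop}
    (hT : IsDag σ T) : D ≤ 4 * B * S := by
  obtain ⟨A, B', R, hA, hB', h⟩ := botA_all hφ hε hE hI hT S le_rfl
  obtain ⟨v, hv⟩ := hT.root
  obtain ⟨tv, cv, rv, -⟩ := h v v.2
  obtain ⟨e, he, h1⟩ := hE.rowUp _ (tv.compl.restrict A fun _ => True)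
  have hδ : (0 : ℝ) ≤ S / D := by positivity
  have key : ∀ x, 7 / 8 * (1 - ind (¬ A x)) ≤ B * (S / D) + e x := by
    intro x
    have hw : ∀ ρ ∈ cons σ r, wv tauY n ρ x (fun y => ind (A x ∧ True ∧ ¬ R v x y)) ≤
        2 ^ r * (S / D) := by
      intro ρ hρ
      refine (wv_le_mean (fun a c l => ?_) (fun a l => ?_) ρ x fun y => ind_nonneg _).trans ?_
      · unfold tauY
        split_ifs <;> norm_num
      · unfold tauY
        cases l a <;> simp
      · refine mul_le_mul (pow_le_pow_right₀ one_le_two (mem_filter.1 hρ).2.1)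
          ((ex_mono fun y => ind_mono fun k hy => k.2.2 (cv x y k.1 hy (hv x y))).trans hB')
          (ex_nonneg fun y => ind_nonneg _) (by positivity)
    have h2 := (h1 x).trans (add_le_add_left (sum_le_card_nsmul _ _ _ hw) _)
    rw [nsmul_eq_mul, ← mul_assoc] at h2
    have h3 := h2.trans (add_le_add_left (mul_le_mul_of_nonneg_right hB hδ) _)
    by_cases hx : A x
    · have e0 : (fun y => ind (A x ∧ True ∧ ¬ R v x y)) = fun y => 1 - ind (R v x y) :=
        funext fun y => by rw [← ind_not]; exact ind_congr (by simp [hx])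
      rw [e0, fr_sub σ x (fun _ => 1), fr_one, hσ] at h3
      have := rv x hx
      rw [ind_of_not (not_not.2 hx)]
      linarith
    · rw [ind_of hx]
      have := he.1 x
      have : 0 ≤ B * (S / D) := by positivity
      linarith
  have k2 := ex_mono key
  rw [← mul_expect, expect_sub_distrib, expect_add_distrib, ex_const, ex_const] at k2
  have k3 := he.2
  have k4 : S / D ≤ B * (S / D) := le_mul_of_one_le_left hδ hB1
  have k5 : 1 ≤ 4 * B * S / D := by
    rw [mul_div_assoc, mul_assoc]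
    linarith
  rwa [one_le_div hD] at k5

end Pool.Agent.Lib.MP_8a52c3_lc.Mono
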