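import Pool.Agent.Lib.MP_8a52c3_lc.Mono.HCore

/-! The self-improvement lemma. -/

open Finset
open scoped BigOperators

namespace Pool.Agent.Lib.MP_8a52c3_lc.Mono

variable {s n : ℕ} [NeZero s] {Q U V : Type} [Fintype Q] [DecidableEq Q] [Nonempty Q] [Fintype U]
  [Nonempty U]

/-- The numerical contradiction. -/
theorem hlem_num {n a : ℕ} {η : ℝ} (hn : 80 ≤ n) (ha : 20 * a ≤ n) (hη0 : 0 < η)
    (hη : η ≤ 1 / 20) :
    ∃ c : ℝ, 0 ≤ c ∧
      2 ^ n / ((1 / 2 : ℝ) ^ n / (4 * 2 ^ (3 * a))) * (2 * Real.exp (-c / 4)) ^ 40 ≤ 1 / 8 ∧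
      3 * 2 ^ a * (1 / 2 : ℝ) ^ n <
        Real.exp (-c) * ((1 / 2 : ℝ) ^ n / (4 * 2 ^ (3 * a))) /
          (8 * (24 * 2 ^ (4 * a) * (1 / 2 : ℝ) ^ n)) *
          (((1 / 2 : ℝ) ^ n / (4 * 2 ^ (3 * a))) ^ (2 * η) * Real.exp (-2)) := by
  set L := Real.log 2 with hL
  have hL0 : 0 < L := Real.log_pos one_lt_two
  have h2 : (2 : ℝ) = Real.exp L := (Real.exp_log two_pos).symm
  have p2 : ∀ k : ℕ, (2 : ℝ) ^ k = Real.exp (k * L) := fun k => by
    rw [Real.exp_nat_mul, ← h2]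
  have ph : (1 / 2 : ℝ) ^ n = Real.exp (-(n * L)) := by
    rw [Real.exp_neg, ← p2, one_div, inv_pow]
  have hw : (1 / 2 : ℝ) ^ n / (4 * 2 ^ (3 * a)) = Real.exp (-((n + 3 * a + 2) * L)) := by
    rw [ph, show (4 : ℝ) = 2 ^ 2 by norm_num, p2, p2, ← Real.exp_add, ← Real.exp_sub]
    congr 1
    push_cast
    ring
  have hn' : (80 : ℝ) ≤ n := by exact_mod_cast hn
  have ha' : 20 * (a : ℝ) ≤ n := by exact_mod_cast ha
  have ha0 : (0 : ℝ) ≤ a := Nat.cast_nonneg a
  refine ⟨L * (4 + (2 * n + 3 * a + 5) / 10), by positivity, ?_, ?_⟩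
  · have e1 : 2 * Real.exp (-(L * (4 + (2 * n + 3 * a + 5) / 10)) / 4) =
        Real.exp (-((2 * n + 3 * a + 5) / 40 * L)) := by
      nth_rewrite 1 [h2]
      rw [← Real.exp_add]
      congr 1
      ring
    have e2 : (1 / 8 : ℝ) = Real.exp (-((3 : ℕ) * L)) := by
      rw [Real.exp_neg, ← p2]
      norm_num
    rw [e1, hw, p2, ← Real.exp_nat_mul, ← Real.exp_sub, ← Real.exp_add, e2]
    refine le_of_eq (congrArg _ ?_)
    push_cast
    ring
  · have e3 : Real.exp (-((n + 3 * a + 2) / 10 * L)) ≤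
        Real.exp (-((n + 3 * a + 2) * L)) ^ (2 * η) := by
      rw [← Real.exp_mul]
      refine Real.exp_le_exp.2 ?_
      have : 0 ≤ ((n : ℝ) + 3 * a + 2) * L := by positivity
      nlinarith
    have e4 : (1 / 8 : ℝ) ≤ Real.exp (-2) := by
      rw [Real.exp_neg, one_div]
      refine inv_anti₀ (Real.exp_pos _) ?_
      have := Real.exp_one_lt_d9
      have h3 : Real.exp 2 = Real.exp 1 * Real.exp 1 := by rw [← Real.exp_add]; norm_num
      have := Real.exp_pos 1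
      nlinarith
    have e5 : (2 : ℝ) ^ 13 ≤ Real.exp ((7 / 10 * n - 43 / 5 * a - 29 / 10 - 4) * L) := by
      rw [p2]
      refine Real.exp_le_exp.2 (mul_le_mul_of_nonneg_right ?_ hL0.le)
      push_cast
      linarith
    have e6 : Real.exp (-(L * (4 + (2 * n + 3 * a + 5) / 10))) *
        Real.exp (-((n + 3 * a + 2) * L)) /
          (8 * (24 * Real.exp (((4 * a : ℕ) : ℝ) * L) * Real.exp (-(n * L)))) *
          (Real.exp (-((n + 3 * a + 2) / 10 * L)) * (1 / 8)) =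
        Real.exp (a * L) * Real.exp (-(n * L)) *
          Real.exp ((7 / 10 * n - 43 / 5 * a - 29 / 10 - 4) * L) *
            Real.exp (1 / 5 * L) / 1536 := by
      have hA : Real.exp (-(L * (4 + (2 * n + 3 * a + 5) / 10))) *
          Real.exp (-((n + 3 * a + 2) * L)) * Real.exp (-((n + 3 * a + 2) / 10 * L)) =
          (Real.exp (a * L) * Real.exp (-(n * L)) *
            Real.exp ((7 / 10 * n - 43 / 5 * a - 29 / 10 - 4) * L) * Real.exp (1 / 5 * L)) *
            (Real.exp (((4 * a : ℕ) : ℝ) * L) * Real.exp (-(n * L))) := by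
        simp only [← Real.exp_add]
        congr 1
        push_cast
        ring
      have hp : 0 < Real.exp (((4 * a : ℕ) : ℝ) * L) * Real.exp (-(n * L)) := by positivity
      rw [mul_assoc 24, div_mul_eq_mul_div, ← mul_assoc, hA]
      field_simp
      norm_num
    have e7 : 1 ≤ Real.exp (1 / 5 * L) := Real.one_le_exp (by positivity)
    rw [hw, ph, p2 a, p2 (4 * a)]
    refine lt_of_lt_of_le ?_ (mul_le_mul_of_nonneg_left
      (mul_le_mul e3 e4 (by norm_num) (by positivity)) (by positivity))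
    rw [e6, lt_div_iff₀ (by norm_num)]
    have hp : 0 < Real.exp (a * L) * Real.exp (-(n * L)) := by positivity
    have e8 : (2 : ℝ) ^ 13 ≤ Real.exp ((7 / 10 * n - 43 / 5 * a - 29 / 10 - 4) * L) *
        Real.exp (1 / 5 * L) := e5.trans (le_mul_of_one_le_right (by positivity) e7)
    rw [mul_assoc (Real.exp (a * L) * Real.exp (-(n * L)))]
    nlinarith [mul_le_mul_of_nonneg_left e8 hp.le]

omit [NeZero s] [Nonempty Q] in
theorem hlemA_val (x : Fin n → Fin s × Q) (t : (Fin n → Ob s Q) → Fin n → Bool)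
    (h : (Fin n → Fin s × Q → Bool) → ℝ) (c : ℝ) :
    𝔼 y, c * h y * 𝔼 l, den x t l y = c * val x t h := by
  rw [val, ex_comm, mul_expect]
  refine expect_congr rfl fun y _ => ?_
  rw [← expect_mul]
  ring

theorem hlemA_union {α ι : Type} [Fintype α] (S : Finset ι) (f : ι → α → ℝ) {b q : ℝ}
    (hq : 0 < q) (hf : ∀ i ∈ S, Small b (f i)) :
    𝔼 y, ind (¬ ∀ i ∈ S, f i y ≤ q) ≤ S.card * (b / q) := by
  have h1 : ∀ y, ind (¬ ∀ i ∈ S, f i y ≤ q) ≤ ∑ i ∈ S, ind (q < f i y) := by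
    intro y
    by_cases h : ∀ i ∈ S, f i y ≤ q
    · rw [ind_of_not (not_not.2 h)]
      exact sum_nonneg fun i _ => ind_nonneg _
    · rw [ind_of h]
      push Not at h
      obtain ⟨i, hi, hi'⟩ := h
      rw [← ind_of hi']
      exact single_le_sum (f := fun i => ind (q < f i y)) (fun i _ => ind_nonneg _) hi
  refine (ex_mono h1).trans ?_
  rw [expect_sum_comm, ← nsmul_eq_mul]
  exact sum_le_card_nsmul _ _ _ fun i hi => markov (hf i hi) hq

theorem hlem {ev : U → Q → V} {η : ℝ} (hD : IsDesign ev η 40) (hη0 : 0 < η) (hη : η ≤ 1 / 20)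
    {σ : (Fin n → Bool) → ℝ} {r a : ℕ} (hn : 80 ≤ n) (ha : 20 * a ≤ n) (hra : r ≤ a)
    (hG : (cons σ r).card ≤ 2 ^ a) (hE : Env σ s Q r ((1 / 2) ^ (2 * n))) :
    Improves σ s Q ((1 / 2) ^ (2 * n)) ((1 / 2) ^ n) (2 ^ (2 * a)) := by
  rintro R hR ⟨e1, he1, h1⟩ ⟨e2, he2, h2⟩
  obtain ⟨c, hc0, hc1, hc2⟩ := hlem_num hn ha hη0 hη
  obtain ⟨e3, he3, h3⟩ := hE.rowStrat R hR
  have hεφ : (1 / 2 : ℝ) ^ (2 * n) = ((1 / 2) ^ n) ^ 2 := by rw [mul_comm, pow_mul]
  have hsm : 32 * (1 / 2 : ℝ) ^ n * (2 ^ a) ^ 2 ≤ 1 := by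
    rw [← pow_mul, one_div, inv_pow, mul_right_comm, ← div_eq_mul_inv, div_le_one (by positivity),
      show (32 : ℝ) = 2 ^ 5 by norm_num, ← pow_add]
    exact pow_le_pow_right₀ one_le_two (by omega)
  have hra' : (2 : ℝ) ^ r ≤ 2 ^ a := pow_le_pow_right₀ one_le_two hra
  have hG' : ((cons σ r).card : ℝ) ≤ 2 ^ a := by exact_mod_cast hG
  rw [hεφ] at he1 he2 he3 hE
  rw [mul_comm 3 a, pow_mul] at hc1 hc2
  rw [mul_comm 4 a, pow_mul] at hc2
  rw [mul_comm 2 a, pow_mul]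
  have hφ : 0 < (1 / 2 : ℝ) ^ n := by positivity
  have hg : 0 < (2 : ℝ) ^ a := by positivity
  generalize (1 / 2 : ℝ) ^ n = φ at *
  generalize (2 : ℝ) ^ a = g at *
  have h3' : ∀ ρ x, ∃ t, ρ ∈ cons σ r → Adapted t ∧ Resp t ρ ∧
      val x t (fun y => ind (R x y)) ≤ 2 ^ r * (fr σ x (fun y => ind (R x y)) + e3 x) := by
    intro ρ x
    by_cases hρ : ρ ∈ cons σ r
    · obtain ⟨t, ht⟩ := h3 x ρ hρ
      exact ⟨t, fun _ => ht⟩
    · exact ⟨fun _ _ => false, fun h => absurd h hρ⟩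
  choose T hT using h3'
  obtain ⟨A, hA⟩ : ∃ A : (Fin n → Fin s × Q) → Prop, ∀ x, A x ↔ e1 x + e3 x ≤ φ :=
    ⟨_, fun _ => Iff.rfl⟩
  have hval : ∀ ρ ∈ cons σ r, ∀ x, A x → val x (T ρ x) (fun y => ind (R x y)) ≤ 3 * g * φ := by
    intro ρ hρ x hx
    have a1 := (hA x).1 hx
    have a2 := h1 x
    calc val x (T ρ x) (fun y => ind (R x y))
        ≤ 2 ^ r * (fr σ x (fun y => ind (R x y)) + e3 x) := (hT ρ x hρ).2.2
      _ ≤ 2 ^ r * (3 * φ) := mul_le_mul_of_nonneg_left (by linarith) (by positivity)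
      _ ≤ g * (3 * φ) := mul_le_mul_of_nonneg_right hra' (by positivity)
      _ = 3 * g * φ := by ring
  obtain ⟨Qf, hQf⟩ : ∃ Qf : PA n → (Fin n → Fin s × Q → Bool) → ℝ, ∀ ρ y,
      Qf ρ y = 𝔼 x, ind (A x) * ind (R x y) * 𝔼 l, den x (T ρ x) l y := ⟨_, fun _ _ => rfl⟩
  have hQs : ∀ ρ ∈ cons σ r, Small (3 * g * φ) (Qf ρ) := by
    intro ρ hρ
    refine ⟨fun y => ?_, ?_⟩
    · rw [hQf]
      exact ex_nonneg fun x => mul_nonneg (mul_nonneg (ind_nonneg _) (ind_nonneg _))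
        (ex_nonneg fun l => den_nonneg _ _ _ _)
    · simp only [hQf]
      rw [ex_comm]
      refine ex_le fun x => ?_
      rw [hlemA_val x (T ρ x) (fun y => ind (R x y))]
      by_cases hx : A x
      · rw [ind_of hx, one_mul]
        exact hval ρ hρ x hx
      · rw [ind_of_not hx, zero_mul]
        positivity
  obtain ⟨N, hN⟩ : ∃ N : (Fin n → Fin s × Q → Bool) → Prop,
      ∀ y, N y ↔ ∀ ρ ∈ cons σ r, Qf ρ y ≤ 24 * g ^ 4 * φ := ⟨_, fun _ => Iff.rfl⟩
  have hNm : 𝔼 y, ind (¬ N y) ≤ 1 / (8 * g ^ 2) := by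
    simp only [hN]
    refine (hlemA_union _ Qf (by positivity) hQs).trans ?_
    refine (mul_le_mul_of_nonneg_right hG' (by positivity)).trans_eq ?_
    field_simp
    ring
  have hw : ∀ ρ ∈ cons σ r,
      𝔼 x, ind (A x) * wv tauY n ρ x (fun y => ind (N y ∧ R x y)) ≤ 2 * (φ / (4 * g ^ 3)) := by
    intro ρ hρ
    by_contra hcon
    refine absurd (hcore hD hη0 hR ρ (T ρ) (fun x => (hT ρ x hρ).1) (fun x => (hT ρ x hρ).2.1) A N
      (by positivity) (by positivity) hc0 (hval ρ hρ) (fun y hy => ?_) (not_le.1 hcon).le hc1)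
      (not_le.2 hc2)
    rw [← hQf]
    exact (hN y).1 hy ρ hρ
  obtain ⟨e4, he4, h4⟩ := hE.colPos _ R _ (hR.restrict A fun y => ¬ N y) hR tri_false
    fun x y h => Or.inl h.2.2
  obtain ⟨e5, he5, h5⟩ := hE.rowUp _ (hR.restrict A N)
  have hsplit : ∀ x, fr σ x (fun y => ind (R x y)) =
      ind (¬ A x) * fr σ x (fun y => ind (R x y)) +
        fr σ x (fun y => ind (A x ∧ ¬ N y ∧ R x y)) + fr σ x (fun y => ind (A x ∧ N y ∧ R x y)) := by
    intro x
    rw [add_assoc, ← fr_add]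
    by_cases hx : A x
    · rw [ind_of_not (not_not.2 hx), zero_mul, zero_add]
      congr 1
      funext y
      simp only [ind_and, ind_not, ind_of hx]
      ring
    · simp only [ind_and, ind_of hx, ind_of_not hx, zero_mul, add_zero, one_mul, fr_zero]
  have p1 : 𝔼 x, ind (¬ A x) * fr σ x (fun y => ind (R x y)) ≤ 5 * φ ^ 2 := by
    have a1 : ∀ x, ind (¬ A x) * fr σ x (fun y => ind (R x y)) ≤
        2 * φ * ind (φ < e1 x + e3 x) + e1 x := by
      intro x
      by_cases hx : A x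
      · rw [ind_of_not (not_not.2 hx), zero_mul]
        exact add_nonneg (mul_nonneg (by positivity) (ind_nonneg _)) (he1.1 x)
      · rw [ind_of hx, ind_of (not_le.1 fun h => hx ((hA x).2 h)), one_mul, mul_one]
        exact h1 x
    have a2 : Small (2 * φ ^ 2) fun x => e1 x + e3 x :=
      ⟨fun x => add_nonneg (he1.1 x) (he3.1 x), by
        rw [expect_add_distrib]; linarith [he1.2, he3.2]⟩
    have a3 := mul_le_mul_of_nonneg_left (markov a2 hφ) (show 0 ≤ 2 * φ by positivity)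
    have a4 : 2 * φ * (2 * φ ^ 2 / φ) = 4 * φ ^ 2 := by field_simp; ring
    refine (ex_mono a1).trans ?_
    rw [expect_add_distrib, ← mul_expect]
    linarith [he1.2]
  have p2 : 𝔼 x, fr σ x (fun y => ind (A x ∧ ¬ N y ∧ R x y)) ≤ φ / (4 * g ^ 2) + 2 * φ ^ 2 := by
    have a1 : ∀ y, fc σ y (fun x => ind (A x ∧ ¬ N y ∧ R x y)) ≤
        2 * φ * ind (¬ N y) + e2 y + e4 y := by
      intro y
      by_cases hy : N y
      · simp only [ind_and, ind_of_not (not_not.2 hy), zero_mul, mul_zero, fc_zero, zero_add]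
        exact add_nonneg (he2.1 y) (he4.1 y)
      · have b1 := h4 y
        have b2 := h2 y
        simp only [ind_of_not not_false, fc_zero] at b1
        rw [ind_of hy]
        linarith
    have a3 := mul_le_mul_of_nonneg_left hNm (show 0 ≤ 2 * φ by positivity)
    have a4 : 2 * φ * (1 / (8 * g ^ 2)) = φ / (4 * g ^ 2) := by field_simp; ring
    rw [ex_fr_eq_ex_fc σ fun x y => ind (A x ∧ ¬ N y ∧ R x y)]
    refine (ex_mono a1).trans ?_
    rw [expect_add_distrib, expect_add_distrib, ← mul_expect]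
    linarith [he2.2, he4.2]
  have p3 : 𝔼 x, fr σ x (fun y => ind (A x ∧ N y ∧ R x y)) ≤ φ / (2 * g ^ 2) + φ ^ 2 := by
    have a1 : ∀ x, fr σ x (fun y => ind (A x ∧ N y ∧ R x y)) ≤
        ∑ ρ ∈ cons σ r, ind (A x) * wv tauY n ρ x (fun y => ind (N y ∧ R x y)) + e5 x := by
      intro x
      by_cases hx : A x
      · have b1 := h5 x
        simp only [ind_and (A x), ind_of hx, one_mul] at b1 ⊢
        exact b1
      · simp only [ind_and (A x), ind_of_not hx, zero_mul, fr_zero, sum_const_zero, zero_add]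
        exact he5.1 x
    have a2 := sum_le_card_nsmul _ _ _ hw
    rw [nsmul_eq_mul] at a2
    have a3 := mul_le_mul_of_nonneg_right hG' (show 0 ≤ 2 * (φ / (4 * g ^ 3)) by positivity)
    have a4 : g * (2 * (φ / (4 * g ^ 3))) = φ / (2 * g ^ 2) := by field_simp; ring
    refine (ex_mono a1).trans ?_
    rw [expect_add_distrib, expect_sum_comm]
    linarith [he5.2]
  have a5 : 8 * φ ^ 2 ≤ φ / (4 * g ^ 2) := by
    rw [le_div_iff₀ (by positivity)]
    nlinarith [mul_le_mul_of_nonneg_left hsm hφ.le]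
  have a6 : φ / g ^ 2 = φ / (4 * g ^ 2) + φ / (4 * g ^ 2) + φ / (2 * g ^ 2) := by
    field_simp; ring
  rw [expect_congr rfl fun x _ => hsplit x, expect_add_distrib, expect_add_distrib]
  linarith

end Pool.Agent.Lib.MP_8a52c3_lc.Mono
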