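import Pool.Agent.Lib.MP_8a52c3_lc.Mono.Fam
import Pool.Agent.Lib.MP_8a52c3_lc.Mono.Design
import Pool.Agent.Lib.MP_8a52c3_lc.Mono.HLem
import Pool.Agent.Lib.MP_8a52c3_lc.Mono.Bottle
import Pool.Agent.Lib.MP_8a52c3_lc.Mono.Lang
import Pool.Agent.Lib.MP_8a52c3_lc.Mono.LangP

/-! Dags of triangles for a lifted problem of linear degree are exponentially large. -/

open Finset
open scoped BigOperators

namespace Pool.Agent.Lib.MP_8a52c3_lc.Mono

theorem core_aux {s : ℕ} [NeZero s] {t : ℝ} (ht : 1 ≤ t) (hs : 4 * t ^ 2 ≤ s)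
    (ht2 : (2 : ℝ) ^ (27 * 512) ≤ t) {Q U V : Type} [Fintype Q] [DecidableEq Q] [Nonempty Q]
    [Fintype U] [Nonempty U] {ev : U → Q → V} {η : ℝ} (hD : IsDesign ev η 40) (hη0 : 0 < η)
    (hη : η ≤ 1 / 20) {n : ℕ} (hn : 500 ≤ n) {σ : (Fin n → Bool) → ℝ}
    (hσ : IsPseudo n (2 * (n / 256)) (2 ^ n) σ) {S : ℕ}
    {T : Fin S → (Fin n → Fin s × Q) → (Fin n → Fin s × Q → Bool) → Prop} (hT : IsDag σ T) :
    (2 : ℝ) ^ (n / 20) ≤ 4 * S := by
  have htr : (2 : ℝ) ^ (27 * n) ≤ t ^ (n / 256) := by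
    calc (2 : ℝ) ^ (27 * n) ≤ 2 ^ (27 * 512 * (n / 256)) :=
          pow_le_pow_right₀ one_le_two (by omega)
      _ = (2 ^ (27 * 512)) ^ (n / 256) := pow_mul _ _ _
      _ ≤ t ^ (n / 256) := pow_le_pow_left₀ (pow_nonneg zero_le_two _) ht2 _
  have hE : Env σ s Q (n / 256) ((1 / 2) ^ (2 * n)) := env_of (by omega) ht hs htr hσ
  have hc := count_small hn (r := n / 256) (by omega) σ
  have hc1 : (cons σ (n / 256)).card ≤ 2 ^ (n / 20) :=
    le_trans (Nat.le_mul_of_pos_right _ (by positivity)) hc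
  have hI := hlem hD hη0 hη (a := n / 20) (by omega) (by omega) (by omega) hc1 hE
  have h8 : ∀ m, 3 ≤ m → (1 / 2 : ℝ) ^ m ≤ 1 / 8 := fun m hm =>
    (pow_le_pow_of_le_one (by norm_num) (by norm_num) hm).trans (by norm_num)
  have hb := bottle hσ.mean (B := 2 ^ (n / 20)) (by positivity) (h8 n (by omega)) (by positivity)
    (by
      rw [le_div_iff₀ (by positivity), two_mul n, pow_add, mul_assoc]
      refine mul_le_of_le_one_right (by positivity) ?_
      rw [one_div, inv_pow, inv_mul_le_iff₀ (by positivity), mul_one]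
      exact pow_le_pow_right₀ one_le_two (by omega))
    (h8 _ (by omega)) (one_le_pow₀ one_le_two) (by exact_mod_cast hc) hE hI hT
  rw [two_mul, pow_add] at hb
  have hp : (0 : ℝ) < 2 ^ (n / 20) := by positivity
  nlinarith

theorem core : ∃ (X : Type) (_ : Fintype X) (_ : DecidableEq X) (_ : Nonempty X),
    ∀ n, 500 ≤ n → ∀ σ : (Fin n → Bool) → ℝ, IsPseudo n (2 * (n / 256)) (2 ^ n) σ →
      ∀ (S : ℕ) (T : Fin S → (Fin n → X) → (Fin n → X → Bool) → Prop), IsDag σ T →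
        (2 : ℝ) ^ (n / 20) ≤ 4 * S := by
  obtain ⟨t, ht, ht2⟩ : ∃ t : ℝ, 1 ≤ t ∧ (2 : ℝ) ^ (27 * 512) ≤ t :=
    ⟨_, one_le_pow₀ one_le_two, le_rfl⟩
  obtain ⟨s, hs⟩ := exists_nat_ge (4 * t ^ 2)
  have hs0 : NeZero s := ⟨by
    rintro rfl
    have : (0 : ℝ) < 4 * t ^ 2 := by positivity
    simp only [Nat.cast_zero] at hs
    linarith⟩
  have : Fact (Nat.Prime 809) := ⟨by norm_num⟩
  have hD := design 809 40 (by norm_num) (by norm_num)
  exact ⟨Fin s × (Fin 40 → ZMod 809), inferInstance, inferInstance, inferInstance,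
    fun n hn σ hσ S T hT => core_aux ht hs ht2 hD (by norm_num) (by norm_num) hn hσ hT⟩

/-- The lower bound for the hard language, in terms of the number of blocks. -/
theorem hard_lower : ∃ M : ℕ, 0 < M ∧ ∀ N q : ℕ, q = Nat.sqrt (N / M ^ 8) → 12 ≤ q →
    ∀ (S : ℕ) (g : Fin S → (Fin N → Bool) → ℝ),
      (∀ v, (∃ a, ∀ x, g v x = a) ∨ (∃ i, ∀ x, g v x = if x i then 1 else 0) ∨
        ∃ u w, u < v ∧ w < v ∧ ∃ φ : ℝ → ℝ → ℝ,
          (∀ a a' b b', a ≤ a' → b ≤ b' → φ a b ≤ φ a' b') ∧ ∀ x, g v x = φ (g u x) (g w x)) →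
      (∃ v, ∀ x, g v x = if hard M (List.ofFn x) then 1 else 0) →
      (2 : ℝ) ^ (4 * q ^ 2 / 20) ≤ 4 * S := by
  obtain ⟨X, _, _, _, hX⟩ := core
  refine ⟨Fintype.card X, Fintype.card_pos, fun N q hq hq12 S g hg hroot => ?_⟩
  have : NeZero q := ⟨by omega⟩
  have e : (ZMod q × ZMod q) × Fin 4 ≃ Fin (4 * q ^ 2) :=
    Fintype.equivFinOfCardEq (by simp [ZMod.card]; ring)
  obtain ⟨σ, hσ, hv⟩ := ts_pseudo (by omega) e
  obtain ⟨U, W, hU, hW, hleaf⟩ := hard_spec (X := X) N q _ hq e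
  refine hX _ (by nlinarith) σ hσ S (fun v x y => g v (W y) < g v (U x)) ⟨?_, ?_, ?_⟩
  · intro v x x' y y' h1 h2
    by_contra hcon
    push Not at hcon
    linarith [hcon.1, hcon.2]
  · intro v
    rcases hg v with ⟨a, ha⟩ | ⟨i, hi⟩ | ⟨u, w, hu, hw, φ, hφ, hv⟩
    · left
      intro x
      have : ∀ y, ind (g v (W y) < g v (U x)) = 0 := fun y =>
        ind_of_not (by rw [ha, ha]; exact lt_irrefl a)
      simp only [this, fr_zero]
    · left
      intro x
      obtain ⟨u, hu⟩ := hleaf i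
      by_cases hx : U x i = true
      · have : ∀ y, ind (g v (W y) < g v (U x)) = ind (Viol (tsS e) tsB u (gad x y)) := by
          intro y
          refine ind_congr ?_
          rw [← hu x hx y, hi, hi, hx]
          cases W y i <;> simp
        simp only [fr, this]
        exact (ex_gad x fun z => σ z * ind (Viol (tsS e) tsB u z)).trans (hv u)
      · have : ∀ y, ind (g v (W y) < g v (U x)) = 0 := by
          intro y
          refine ind_of_not ?_
          rw [hi, hi, if_neg hx]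
          cases W y i <;> simp
        simp only [this, fr_zero]
    · refine Or.inr ⟨u, w, hu, hw, fun x y h => ?_⟩
      by_contra hcon
      push Not at hcon
      rw [hv, hv] at h
      exact absurd (hφ _ _ _ _ hcon.1 hcon.2) (not_le.2 h)
  · obtain ⟨v, hv⟩ := hroot
    refine ⟨v, fun x y => ?_⟩
    rw [hv, hv, hU, hW]
    simp

end Pool.Agent.Lib.MP_8a52c3_lc.Mono
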