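import Mathlib

/-! Definitions for the exponential lower bound on monotone real circuits. -/

open Finset
open scoped BigOperators

namespace Pool.Agent.Lib.MP_8a52c3_lc.Mono

open Classical in
/-- Indicator of a proposition. -/
noncomputable def ind (p : Prop) : ℝ := if p then 1 else 0

/-- A nonnegative error function with mean at most `ε`. -/
def Small {α : Type} [Fintype α] (ε : ℝ) (e : α → ℝ) : Prop := (∀ a, 0 ≤ e a) ∧ 𝔼 a, e a ≤ ε

/-- Triangles: no two by two diagonal pattern. -/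
def Tri {α β : Type} (R : α → β → Prop) : Prop :=
  ∀ x x' y y', R x y → R x' y' → R x y' ∨ R x' y

/-- Every member of the family `h` is within mean distance `δ` of one of `K` fixed functions. -/
def Cov {α β : Type} [Fintype β] (K : ℕ) (δ : ℝ) (h : α → β → ℝ) : Prop :=
  ∃ d : Fin K → β → ℝ, ∀ x, ∃ i, 𝔼 y, |h x y - d i y| ≤ δ

/-! ### Restrictions and pseudo-densities -/

/-- Restrictions of `n` bits. -/
abbrev PA (n : ℕ) : Type := Fin n → Option Bool

/-- Number of fixed places. -/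
def sz {n : ℕ} (ρ : PA n) : ℕ := (univ.filter fun j => ρ j ≠ none).card

/-- `z` extends `ρ`. -/
def Agr {n : ℕ} (ρ : PA n) (z : Fin n → Bool) : Prop := ∀ j c, ρ j = some c → z j = c

/-- Pseudo-probability of a subcube. -/
noncomputable def pe {n : ℕ} (σ : (Fin n → Bool) → ℝ) (ρ : PA n) : ℝ := 𝔼 z, σ z * ind (Agr ρ z)

/-- A pseudo-density of degree `D` bounded by `Λ`. -/
structure IsPseudo (n D : ℕ) (Λ : ℝ) (σ : (Fin n → Bool) → ℝ) : Prop where
  bound : ∀ z, |σ z| ≤ Λ
  mean : 𝔼 z, σ z = 1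
  dich : ∀ ρ : PA n, sz ρ ≤ D → pe σ ρ = 0 ∨ ((1 / 2 : ℝ) ^ sz ρ ≤ pe σ ρ ∧ pe σ ρ ≤ 1)

open Classical in
/-- Small consistent restrictions. -/
noncomputable def cons {n : ℕ} (σ : (Fin n → Bool) → ℝ) (r : ℕ) : Finset (PA n) :=
  univ.filter fun ρ => sz ρ ≤ r ∧ pe σ ρ ≠ 0

/-- The parity equation `e` (variables `S e i`, right side `b e`) is false at `z`. -/
def Viol {E : Type} {κ n : ℕ} (S : E → Fin κ → Fin n) (b : E → Bool) (e : E)
    (z : Fin n → Bool) : Prop :=
  ¬ (Odd (univ.filter fun i => z (S e i) = true).card ↔ b e = true)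

/-- Variables that occur an odd number of times in the equations of `T`. -/
def bdry {E : Type} {κ n : ℕ} (S : E → Fin κ → Fin n) (T : Finset E) : Finset (Fin n) :=
  univ.filter fun j => Odd (∑ e ∈ T, (univ.filter fun i => S e i = j).card)

/-! ### Abstract gadgets -/

section Gadget

variable {A L : Type} [Fintype A] [Fintype L]

/-- The two second moment conditions on a gadget. -/
structure IsGad (τ : A → Bool → L → ℝ) (lam : ℝ) : Prop where
  nonneg : ∀ a c l, 0 ≤ τ a c l
  avg : ∀ h : L → ℝ, 𝔼 a, (𝔼 l, (τ a false l + τ a true l) / 2 * h l) ^ 2 ≤ 𝔼 l, h l ^ 2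
  dif : ∀ h : L → ℝ, 𝔼 a, (𝔼 l, (τ a true l - τ a false l) / 2 * h l) ^ 2 ≤ lam * 𝔼 l, h l ^ 2

/-- Integrate out block `0`. -/
noncomputable def Tr {n : ℕ} (τ : A → Bool → L → ℝ) (a : A) (c : Bool)
    (h : (Fin (n + 1) → L) → ℝ) : (Fin n → L) → ℝ :=
  fun l' => 𝔼 l, τ a c l * h (Fin.cons l l')

/-- Product kernel. -/
noncomputable def ker {n : ℕ} (τ : A → Bool → L → ℝ) (x : Fin n → A) (z : Fin n → Bool)
    (l : Fin n → L) : ℝ := ∏ j, τ (x j) (z j) (l j)

/-- The lifted pseudo-expectation of `h` seen from `x`. -/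
noncomputable def ff {n : ℕ} (τ : A → Bool → L → ℝ) (σ : (Fin n → Bool) → ℝ) (x : Fin n → A)
    (h : (Fin n → L) → ℝ) : ℝ := 𝔼 z, σ z * 𝔼 l, ker τ x z l * h l

/-- One step of the value recursion: a fixed bit or the minimum over both bits. -/
noncomputable def stp {n : ℕ} (τ : A → Bool → L → ℝ) (o : Option Bool) (a : A)
    (h : (Fin (n + 1) → L) → ℝ) : (Fin n → L) → ℝ :=
  fun l' => o.elim (min (Tr τ a false h l') (Tr τ a true h l')) (fun c => Tr τ a c h l')

/-- Value of the game in which an adversary picks the free bits adaptively. -/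
noncomputable def wv (τ : A → Bool → L → ℝ) :
    (n : ℕ) → PA n → (Fin n → A) → ((Fin n → L) → ℝ) → ℝ
  | 0, _, _, h => h Fin.elim0
  | n + 1, ρ, x, h => wv τ n (Fin.tail ρ) (Fin.tail x) (stp τ (ρ 0) (x 0) h)

/-- A strategy is adapted if bit `j` depends only on the blocks after `j`. -/
def Adapted {n : ℕ} (s : (Fin n → L) → Fin n → Bool) : Prop :=
  ∀ j l l', (∀ i, j < i → l i = l' i) → s l j = s l' j

/-- The strategy obeys the restriction. -/
def Resp {n : ℕ} (s : (Fin n → L) → Fin n → Bool) (ρ : PA n) : Prop := ∀ l, Agr ρ (s l)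

end Gadget

/-! ### The index gadget -/

section Index

variable {X : Type} [Fintype X] [DecidableEq X] {n : ℕ}

/-- The lifted assignment. -/
def gad (x : Fin n → X) (y : Fin n → X → Bool) : Fin n → Bool := fun j => y j (x j)

/-- Row gadget. -/
def tauY (x : X) (c : Bool) (y : X → Bool) : ℝ := if y x = c then 2 else 0

/-- Column gadget. -/
def tauC (y : X → Bool) (c : Bool) (x : X) : ℝ := if y x = c then 2 else 0

/-- Pseudo-measure of a function of `y` in row `x`. -/
noncomputable def fr (σ : (Fin n → Bool) → ℝ) (x : Fin n → X) (h : (Fin n → X → Bool) → ℝ) : ℝ :=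
  𝔼 y, σ (gad x y) * h y

/-- Pseudo-measure of a function of `x` in column `y`. -/
noncomputable def fc (σ : (Fin n → Bool) → ℝ) (y : Fin n → X → Bool) (h : (Fin n → X) → ℝ) : ℝ :=
  𝔼 x, σ (gad x y) * h x

end Index

/-! ### Observations, labels and cells -/

section Obs

variable {s n : ℕ} {Q U V : Type} [Fintype Q] [DecidableEq Q]

/-- Observations: one point in each layer and the bits there. -/
abbrev Ob (s : ℕ) (Q : Type) : Type := (Fin s → Q) × (Fin s → Bool)

/-- Density of the sample `l` given the point `x`. -/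
def kap (x : Fin s × Q) (l : Fin s → Q) : ℝ := if l x.1 = x.2 then Fintype.card Q else 0

/-- Observation gadget. -/
def tauO (x : Fin s × Q) (c : Bool) (o : Ob s Q) : ℝ :=
  if o.1 x.1 = x.2 ∧ o.2 x.1 = c then 2 * Fintype.card Q else 0

/-- What is seen of `y` at the samples `l`. -/
def obs (l : Fin n → Fin s → Q) (y : Fin n → Fin s × Q → Bool) : Fin n → Ob s Q :=
  fun j => (l j, fun b => y j (b, l j b))

/-- Density of the pair `(l, y)` produced by the strategy `t` in row `x`. -/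
noncomputable def den (x : Fin n → Fin s × Q) (t : (Fin n → Ob s Q) → Fin n → Bool)
    (l : Fin n → Fin s → Q) (y : Fin n → Fin s × Q → Bool) : ℝ :=
  ker tauO x (t (obs l y)) (obs l y)

/-- Value of the strategy `t` on `h`. -/
noncomputable def val (x : Fin n → Fin s × Q) (t : (Fin n → Ob s Q) → Fin n → Bool)
    (h : (Fin n → Fin s × Q → Bool) → ℝ) : ℝ := 𝔼 l, 𝔼 y, den x t l y * h y

/-- Values of the labels `u` at the samples `l`. -/
def lab (ev : U → Q → V) (l : Fin n → Fin s → Q) (u : Fin n → Fin s → U) : Fin n → Fin s → V :=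
  fun j b => ev (u j b) (l j b)

/-- `y` and `y'` agree on the cell given by the labels `u` and the values `v`. -/
def Same (ev : U → Q → V) (u : Fin n → Fin s → U) (v : Fin n → Fin s → V)
    (y y' : Fin n → Fin s × Q → Bool) : Prop :=
  ∀ j p, ev (u j p.1) p.2 = v j p.1 → y j p = y' j p

open Classical in
/-- Keep `y` on the cell and use `y'` elsewhere. -/
noncomputable def mix (ev : U → Q → V) (u : Fin n → Fin s → U) (v : Fin n → Fin s → V)
    (y y' : Fin n → Fin s × Q → Bool) : Fin n → Fin s × Q → Bool :=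
  fun j p => if ev (u j p.1) p.2 = v j p.1 then y j p else y' j p

/-- Lower quantile of `y` in its cell for the preorder given by `R`. -/
noncomputable def theta {α : Type} (ev : U → Q → V) (R : α → (Fin n → Fin s × Q → Bool) → Prop)
    (u : Fin n → Fin s → U) (v : Fin n → Fin s → V) (y : Fin n → Fin s × Q → Bool) : ℝ :=
  𝔼 y', ind (∀ x, R x y → R x (mix ev u v y y'))

/-- Labels cover few points and reveal a `1 / k` fraction of the information. -/
structure IsDesign [Fintype U] (ev : U → Q → V) (η : ℝ) (k : ℕ) : Prop where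
  cov1 : ∀ q q', q ≠ q' → 𝔼 u, ind (ev u q = ev u q') ≤ η
  cov2 : ∀ q, 𝔼 u, 𝔼 q', ind (ev u q = ev u q') ≤ η
  shear : ∀ (n s : ℕ) (F : (Fin n → Fin s → U) → (Fin n → Fin s → V) → ℝ),
    𝔼 l : Fin n → Fin s → Q, Real.exp (k * 𝔼 u, F u (lab ev l u)) ≤
      (𝔼 u, 𝔼 l : Fin n → Fin s → Q, Real.exp (F u (lab ev l u))) ^ k

/-- The four consequences of the junta decomposition for triangles. -/
structure Env (σ : (Fin n → Bool) → ℝ) (s : ℕ) (Q : Type) [Fintype Q] [DecidableEq Q] (r : ℕ)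
    (ε : ℝ) : Prop where
  rowPos : ∀ R R₁ R₂ : (Fin n → Fin s × Q) → (Fin n → Fin s × Q → Bool) → Prop,
    Tri R → Tri R₁ → Tri R₂ → (∀ x y, R x y → R₁ x y ∨ R₂ x y) →
      ∃ e, Small ε e ∧ ∀ x, fr σ x (fun y => ind (R x y)) ≤
        fr σ x (fun y => ind (R₁ x y)) + fr σ x (fun y => ind (R₂ x y)) + e x
  colPos : ∀ R R₁ R₂ : (Fin n → Fin s × Q) → (Fin n → Fin s × Q → Bool) → Prop,
    Tri R → Tri R₁ → Tri R₂ → (∀ x y, R x y → R₁ x y ∨ R₂ x y) →
      ∃ e, Small ε e ∧ ∀ y, fc σ y (fun x => ind (R x y)) ≤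
        fc σ y (fun x => ind (R₁ x y)) + fc σ y (fun x => ind (R₂ x y)) + e y
  rowUp : ∀ R : (Fin n → Fin s × Q) → (Fin n → Fin s × Q → Bool) → Prop, Tri R →
    ∃ e, Small ε e ∧ ∀ x, fr σ x (fun y => ind (R x y)) ≤
      ∑ ρ ∈ cons σ r, wv tauY n ρ x (fun y => ind (R x y)) + e x
  rowStrat : ∀ R : (Fin n → Fin s × Q) → (Fin n → Fin s × Q → Bool) → Prop, Tri R →
    ∃ e, Small ε e ∧ ∀ x, ∀ ρ ∈ cons σ r, ∃ t, Adapted t ∧ Resp t ρ ∧
      val x t (fun y => ind (R x y)) ≤ 2 ^ r * (fr σ x (fun y => ind (R x y)) + e x)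

/-- The conclusion of the self-improvement lemma. -/
def Improves (σ : (Fin n → Bool) → ℝ) (s : ℕ) (Q : Type) [Fintype Q] [DecidableEq Q]
    (ε φ D : ℝ) : Prop :=
  ∀ R : (Fin n → Fin s × Q) → (Fin n → Fin s × Q → Bool) → Prop, Tri R →
    (∃ e, Small ε e ∧ ∀ x, fr σ x (fun y => ind (R x y)) ≤ 2 * φ + e x) →
    (∃ e, Small ε e ∧ ∀ y, fc σ y (fun x => ind (R x y)) ≤ 2 * φ + e y) →
    𝔼 x, fr σ x (fun y => ind (R x y)) ≤ φ / D

end Obs

/-- A dag of triangles: every node is null in each row or is covered by two earlier nodes, and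
some node is everything. -/
structure IsDag {n S : ℕ} {X : Type} [Fintype X] [DecidableEq X] (σ : (Fin n → Bool) → ℝ)
    (T : Fin S → (Fin n → X) → (Fin n → X → Bool) → Prop) : Prop where
  tri : ∀ v, Tri (T v)
  step : ∀ v, (∀ x, fr σ x (fun y => ind (T v x y)) = 0) ∨
    ∃ u w, u < v ∧ w < v ∧ ∀ x y, T v x y → T u x y ∨ T w x y
  root : ∃ v, ∀ x y, T v x y

/-! ### The parity system -/

/-- The four Margulis maps. -/
def mg (q : ℕ) (i : Fin 4) (v : ZMod q × ZMod q) : ZMod q × ZMod q :=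
  ![(v.1 + 2 * v.2, v.2), (v.1, v.2 + 2 * v.1), (v.1 + 1, v.2), (v.1, v.2 + 1)] i

/-- The eight variables of the equation of vertex `u`. -/
def tsS {q n : ℕ} (e : (ZMod q × ZMod q) × Fin 4 ≃ Fin n) (u : ZMod q × ZMod q) (c : Fin 8) :
    Fin n :=
  if h : (c : ℕ) < 4 then e (u, ⟨c, h⟩) else e (mg q ⟨c - 4, by omega⟩ u, ⟨c - 4, by omega⟩)

/-- Right sides: only vertex `0` is charged. -/
def tsB {q : ℕ} (u : ZMod q × ZMod q) : Bool := decide (u = 0)

/-- Satisfiability of a list of parity equations over variables in `ℕ`. -/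
def XorSat (rows : List (List ℕ × Bool)) : Prop :=
  ∃ y : ℕ → Bool, ∀ r ∈ rows, (r.1.countP y % 2 = 1 ↔ r.2 = true)

/-- The four Margulis maps on pairs of numbers below `q`. -/
def mgN (q i : ℕ) (v : ℕ × ℕ) : ℕ × ℕ :=
  if i = 0 then ((v.1 + 2 * v.2) % q, v.2) else if i = 1 then (v.1, (v.2 + 2 * v.1) % q)
  else if i = 2 then ((v.1 + 1) % q, v.2) else (v.1, (v.2 + 1) % q)

/-- Number of the edge in slot `c` of vertex `v`. -/
def edgeN (q : ℕ) (v : ℕ × ℕ) (c : ℕ) : ℕ :=
  if c < 4 then (v.1 * q + v.2) * 4 + c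
  else ((mgN q (c - 4) v).1 * q + (mgN q (c - 4) v).2) * 4 + (c - 4)

/-- Equation number `i` of the lifted system with `M` points per block. -/
def rowN (M q i : ℕ) : List ℕ × Bool :=
  ((List.range 8).map fun c =>
      edgeN q (i / M ^ 8 / q, i / M ^ 8 % q) c * M + i % M ^ 8 / M ^ c % M,
    decide (i / M ^ 8 = 0))

/-- The equations selected by the word `w`. -/
def rowsN (M : ℕ) (w : List Bool) : List (List ℕ × Bool) :=
  ((List.range w.length).filter fun i =>
      w.getD i false && decide (i < Nat.sqrt (w.length / M ^ 8) ^ 2 * M ^ 8)).map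
    (rowN M (Nat.sqrt (w.length / M ^ 8)))

open Classical in
/-- The hard language: the selected equations are unsatisfiable. -/
noncomputable def hard (M : ℕ) (w : List Bool) : Bool := decide (¬ XorSat (rowsN M w))

end Pool.Agent.Lib.MP_8a52c3_lc.Mono
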