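import Pool.Agent.Lib.MP_8a52c3_lc.Mono.Block

/-! A conditioned distribution whose cell marginal is close to that of the strategy. -/

open Finset
open scoped BigOperators

namespace Pool.Agent.Lib.MP_8a52c3_lc.Mono

theorem exA_cons2 {A B : Type} [Fintype A] [Fintype B] {n : ℕ}
    (G : (Fin (n + 1) → A) → (Fin (n + 1) → B) → ℝ) :
    𝔼 l, 𝔼 y, G l y = 𝔼 l' : Fin n → A, 𝔼 y' : Fin n → B, 𝔼 l0, 𝔼 y0,
      G (Fin.cons l0 l') (Fin.cons y0 y') := by
  rw [ex_cons]
  refine expect_congr rfl fun l' _ => ?_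
  rw [ex_comm (fun (y' : Fin n → B) (l0 : A) => 𝔼 y0, G (Fin.cons l0 l') (Fin.cons y0 y'))]
  refine expect_congr rfl fun l0 _ => ?_
  exact ex_cons _

theorem exA_cons3 {A B C : Type} [Fintype A] [Fintype B] [Fintype C] {n : ℕ}
    (G : (Fin (n + 1) → A) → (Fin (n + 1) → B) → (Fin (n + 1) → C) → ℝ) :
    𝔼 l, 𝔼 y, 𝔼 u, G l y u = 𝔼 l' : Fin n → A, 𝔼 y' : Fin n → B, 𝔼 u' : Fin n → C,
      𝔼 l0, 𝔼 y0, 𝔼 u0, G (Fin.cons l0 l') (Fin.cons y0 y') (Fin.cons u0 u') := by
  rw [exA_cons2]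
  refine expect_congr rfl fun l' _ => expect_congr rfl fun y' _ => ?_
  rw [ex_comm (fun (u' : Fin n → C) (l0 : A) =>
    𝔼 y0, 𝔼 u0, G (Fin.cons l0 l') (Fin.cons y0 y') (Fin.cons u0 u'))]
  refine expect_congr rfl fun l0 _ => ?_
  rw [ex_comm (fun (u' : Fin n → C) (y0 : B) =>
    𝔼 u0, G (Fin.cons l0 l') (Fin.cons y0 y') (Fin.cons u0 u'))]
  refine expect_congr rfl fun y0 _ => ?_
  exact ex_cons _

theorem exA_tauY_nonneg {X : Type} [DecidableEq X] (x : X) (c : Bool) (y : X → Bool) :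
    0 ≤ tauY x c y := by
  unfold tauY
  split_ifs <;> norm_num

theorem exA_adapt_zero {L : Type} {n : ℕ} {t : (Fin (n + 1) → L) → Fin (n + 1) → Bool}
    (ht : Adapted t) (a a' : L) (o' : Fin n → L) :
    t (Fin.cons a o') 0 = t (Fin.cons a' o') 0 := by
  refine ht 0 _ _ fun i hi => ?_
  obtain ⟨j, rfl⟩ := Fin.exists_succ_eq.2 hi.ne'
  simp

theorem exA_adapt_succ {L : Type} {n : ℕ} {t : (Fin (n + 1) → L) → Fin (n + 1) → Bool}
    (ht : Adapted t) (a a' : L) (o' : Fin n → L) (j : Fin n) :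
    t (Fin.cons a o') j.succ = t (Fin.cons a' o') j.succ := by
  refine ht j.succ _ _ fun i hi => ?_
  obtain ⟨j', rfl⟩ := Fin.exists_succ_eq.2 ((Fin.succ_pos j).trans hi).ne'
  simp

theorem exA_adapt_tail {L : Type} {n : ℕ} {t : (Fin (n + 1) → L) → Fin (n + 1) → Bool}
    (ht : Adapted t) (a : L) :
    Adapted fun (o' : Fin n → L) (j : Fin n) => t (Fin.cons a o') j.succ := by
  intro j l l' h
  refine ht j.succ _ _ fun i hi => ?_
  obtain ⟨j', rfl⟩ := Fin.exists_succ_eq.2 ((Fin.succ_pos j).trans hi).ne'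
  simpa using h j' (Fin.succ_lt_succ_iff.1 hi)

variable {s n : ℕ} [NeZero s] {Q U V : Type} [Fintype Q] [DecidableEq Q] [Nonempty Q] [Fintype U]
  [Nonempty U]

omit [NeZero s] [Fintype Q] [DecidableEq Q] [Nonempty Q] in
theorem exA_obs_cons (l0 : Fin s → Q) (l' : Fin n → Fin s → Q) (y0 : Fin s × Q → Bool)
    (y' : Fin n → Fin s × Q → Bool) :
    obs (Fin.cons l0 l' : Fin (n + 1) → Fin s → Q) (Fin.cons y0 y') =
      Fin.cons (l0, fun b => y0 (b, l0 b)) (obs l' y') := by
  funext j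
  refine Fin.cases ?_ (fun j => ?_) j <;> simp [obs]

theorem exA_den_cons (x : Fin (n + 1) → Fin s × Q)
    {t : (Fin (n + 1) → Ob s Q) → Fin (n + 1) → Bool} (ht : Adapted t) (o0 : Ob s Q)
    (l0 : Fin s → Q) (l' : Fin n → Fin s → Q) (y0 : Fin s × Q → Bool)
    (y' : Fin n → Fin s × Q → Bool) :
    den x t (Fin.cons l0 l') (Fin.cons y0 y') =
      kap (x 0) l0 * tauY (x 0) (t (Fin.cons o0 (obs l' y')) 0) y0 *
        den (Fin.tail x) (fun o' j => t (Fin.cons o0 o') j.succ) l' y' := by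
  unfold den ker
  rw [exA_obs_cons, Fin.prod_univ_succ, Fin.cons_zero, tauO_obs, exA_adapt_zero ht _ o0]
  congr 1
  refine Finset.prod_congr rfl fun j _ => ?_
  rw [Fin.cons_succ, exA_adapt_succ ht _ o0]
  rfl

omit [NeZero s] [Fintype Q] [DecidableEq Q] [Nonempty Q] [Fintype U] [Nonempty U] in
theorem exA_same_tail {ev : U → Q → V} {u' : Fin n → Fin s → U} {l' : Fin n → Fin s → Q}
    {y' y'' : Fin n → Fin s × Q → Bool} (h : Same ev u' (lab ev l' u') y' y'')
    (u0 : Fin s → U) (l0 : Fin s → Q) (y0 : Fin s × Q → Bool) :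
    Same ev (Fin.cons u0 u' : Fin (n + 1) → Fin s → U)
      (lab ev (Fin.cons l0 l') (Fin.cons u0 u')) (Fin.cons y0 y') (Fin.cons y0 y'') := by
  intro j p
  refine Fin.cases ?_ (fun j => ?_) j
  · intro _
    rfl
  · intro hp
    simpa using h j p (by simpa [lab] using hp)

omit [NeZero s] [Fintype Q] [DecidableEq Q] [Nonempty Q] [Fintype U] [Nonempty U] in
theorem exA_same_head {ev : U → Q → V} (u' : Fin n → Fin s → U) (l' : Fin n → Fin s → Q)
    (y' : Fin n → Fin s × Q → Bool) {u0 : Fin s → U} {l0 : Fin s → Q}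
    {y0 y1 : Fin s × Q → Bool}
    (h : ∀ p : Fin s × Q, ev (u0 p.1) p.2 = ev (u0 p.1) (l0 p.1) → y0 p = y1 p) :
    Same ev (Fin.cons u0 u' : Fin (n + 1) → Fin s → U)
      (lab ev (Fin.cons l0 l') (Fin.cons u0 u')) (Fin.cons y0 y') (Fin.cons y1 y') := by
  intro j p
  refine Fin.cases ?_ (fun j => ?_) j
  · intro hp
    simpa using h p (by simpa [lab] using hp)
  · intro _
    rfl

theorem exA_inner_pos (x : Fin s × Q) (c : Bool)
    (ψ : (Fin s → Q) → (Fin s → U) → (Fin s × Q → Bool) → ℝ) :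
    0 < 𝔼 l, 𝔼 y, 𝔼 u, kap x l * tauY x c y * Real.exp (ψ l u y) := by
  have hn : ∀ l y u, 0 ≤ kap x l * tauY x c y * Real.exp (ψ l u y) := fun l y u =>
    mul_nonneg (mul_nonneg (kap_nonneg x l) (exA_tauY_nonneg x c y)) (Real.exp_pos _).le
  refine expect_pos' (fun l _ => ex_nonneg fun y => ex_nonneg fun u => hn l y u)
    ⟨fun _ => x.2, mem_univ _, ?_⟩
  refine expect_pos' (fun y _ => ex_nonneg fun u => hn _ y u) ⟨fun _ => c, mem_univ _, ?_⟩
  refine expect_pos (fun u _ => ?_) univ_nonempty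
  have h1 : (0 : ℝ) < kap x fun _ => x.2 := by
    simp [kap, Fintype.card_pos]
  have h2 : (0 : ℝ) < tauY x c fun _ => c := by
    simp [tauY]
  exact mul_pos (mul_pos h1 h2) (Real.exp_pos _)

theorem exA_stp_le {X : Type} [Fintype X] [DecidableEq X] (o : Option Bool) (a : X) (c : Bool)
    (hc : ∀ c', o = some c' → c = c') (b : (Fin (n + 1) → X → Bool) → ℝ)
    (y' : Fin n → X → Bool) : stp tauY o a b y' ≤ Tr tauY a c b y' := by
  cases o with
  | none =>
    cases c
    · exact min_le_left _ _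
    · exact min_le_right _ _
  | some c' =>
    rw [hc c' rfl]
    exact le_rfl

theorem exA_Tr_nonneg {X : Type} [Fintype X] [DecidableEq X] (a : X) (c : Bool)
    {b : (Fin (n + 1) → X → Bool) → ℝ} (hb : ∀ y, 0 ≤ b y) (y' : Fin n → X → Bool) :
    0 ≤ Tr tauY a c b y' :=
  ex_nonneg fun y0 => mul_nonneg (exA_tauY_nonneg a c y0) (hb _)

theorem exA_stp_nonneg {X : Type} [Fintype X] [DecidableEq X] (o : Option Bool) (a : X)
    {b : (Fin (n + 1) → X → Bool) → ℝ} (hb : ∀ y, 0 ≤ b y) (y' : Fin n → X → Bool) :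
    0 ≤ stp tauY o a b y' := by
  cases o with
  | none => exact le_min (exA_Tr_nonneg a _ hb y') (exA_Tr_nonneg a _ hb y')
  | some c' => exact exA_Tr_nonneg a _ hb y'

theorem exist {ev : U → Q → V} {η : ℝ} {k : ℕ} (hD : IsDesign ev η k) (hη : 0 < η)
    (x : Fin n → Fin s × Q) (ρ : PA n) (t : (Fin n → Ob s Q) → Fin n → Bool) (ht : Adapted t)
    (hρ : Resp t ρ) (b : (Fin n → Fin s × Q → Bool) → ℝ) (hb : ∀ y, 0 ≤ b y)
    (hw : 0 < wv tauY n ρ x b) :
    ∃ m : (Fin n → Fin s → Q) → (Fin n → Fin s × Q → Bool) → ℝ, (∀ l y, 0 ≤ m l y) ∧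
      𝔼 l, 𝔼 y, m l y = 1 ∧ (∀ l y, m l y * wv tauY n ρ x b ≤ den x t l y * b y) ∧
      ∀ F : (Fin n → Fin s → Q) → (Fin n → Fin s → U) → (Fin n → Fin s × Q → Bool) → ℝ,
        (∀ l u y y', Same ev u (lab ev l u) y y' → F l u y = F l u y') →
        𝔼 l, 𝔼 y, 𝔼 u, m l y * (F l u y - η * Real.log (b y)) ≤
          Real.log (𝔼 l, 𝔼 y, 𝔼 u, den x t l y * Real.exp (F l u y)) -
            η * Real.log (wv tauY n ρ x b) := by
  induction n with
  | zero =>
    refine ⟨fun _ _ => 1, fun _ _ => zero_le_one, by simp only [ex_const], fun l y => ?_,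
      fun F _ => ?_⟩
    · have hy : y = Fin.elim0 := Subsingleton.elim _ _
      subst hy
      simp [den, ker, wv]
    · have h1 : ∀ l u y, F l u y = F Fin.elim0 Fin.elim0 Fin.elim0 := fun l u y => by
        rw [Subsingleton.elim l Fin.elim0, Subsingleton.elim u Fin.elim0,
          Subsingleton.elim y Fin.elim0]
      have h2 : ∀ y, b y = b Fin.elim0 := fun y => by rw [Subsingleton.elim y Fin.elim0]
      have h3 : ∀ l y, den x t l y = 1 := fun l y => by simp [den, ker]
      have h4 : wv tauY 0 ρ x b = b Fin.elim0 := rfl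
      have e1 : 𝔼 l, 𝔼 y, 𝔼 u, (1 : ℝ) * (F l u y - η * Real.log (b y)) =
          F Fin.elim0 Fin.elim0 Fin.elim0 - η * Real.log (b Fin.elim0) := by
        rw [← ex_const (α := Fin 0 → Fin s → Q) (_ - _)]
        refine expect_congr rfl fun l _ => ?_
        rw [← ex_const (α := Fin 0 → Fin s × Q → Bool)
          (F Fin.elim0 Fin.elim0 Fin.elim0 - η * Real.log (b Fin.elim0))]
        refine expect_congr rfl fun y _ => ?_
        rw [← ex_const (α := Fin 0 → Fin s → U)
          (F Fin.elim0 Fin.elim0 Fin.elim0 - η * Real.log (b Fin.elim0))]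
        refine expect_congr rfl fun u _ => ?_
        rw [one_mul, h1 l u y, h2 y]
      have e2 : 𝔼 l, 𝔼 y, 𝔼 u, den x t l y * Real.exp (F l u y) =
          Real.exp (F Fin.elim0 Fin.elim0 Fin.elim0) := by
        rw [← ex_const (α := Fin 0 → Fin s → Q) (Real.exp (F Fin.elim0 Fin.elim0 Fin.elim0))]
        refine expect_congr rfl fun l _ => ?_
        rw [← ex_const (α := Fin 0 → Fin s × Q → Bool)
          (Real.exp (F Fin.elim0 Fin.elim0 Fin.elim0))]
        refine expect_congr rfl fun y _ => ?_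
        rw [← ex_const (α := Fin 0 → Fin s → U) (Real.exp (F Fin.elim0 Fin.elim0 Fin.elim0))]
        refine expect_congr rfl fun u _ => ?_
        rw [h3, one_mul, h1 l u y]
      rw [e1, e2, Real.log_exp, h4]
  | succ n ih =>
    obtain ⟨o0⟩ : Nonempty (Ob s Q) := inferInstance
    set t' : (Fin n → Ob s Q) → Fin n → Bool := fun o' j => t (Fin.cons o0 o') j.succ with ht'
    set c : (Fin n → Fin s → Q) → (Fin n → Fin s × Q → Bool) → Bool :=
      fun l' y' => t (Fin.cons o0 (obs l' y')) 0 with hc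
    set W : (Fin n → Fin s × Q → Bool) → ℝ := stp tauY (ρ 0) (x 0) b with hW
    set Z : (Fin n → Fin s → Q) → (Fin n → Fin s × Q → Bool) → ℝ :=
      fun l' y' => Tr tauY (x 0) (c l' y') b y' with hZ
    have hwv : wv tauY (n + 1) ρ x b = wv tauY n (Fin.tail ρ) (Fin.tail x) W := rfl
    have hW0 : ∀ y', 0 ≤ W y' := exA_stp_nonneg _ _ hb
    have hWZ : ∀ l' y', W y' ≤ Z l' y' := fun l' y' =>
      exA_stp_le _ _ _ (fun c' h => hρ _ 0 c' h) b y'
    have hZ0 : ∀ l' y', 0 ≤ Z l' y' := fun l' y' => (hW0 y').trans (hWZ l' y')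
    have hden : ∀ l0 l' y0 y', den x t (Fin.cons l0 l') (Fin.cons y0 y') =
        kap (x 0) l0 * tauY (x 0) (c l' y') y0 * den (Fin.tail x) t' l' y' :=
      fun l0 l' y0 y' => exA_den_cons x ht o0 l0 l' y0 y'
    rw [hwv] at hw ⊢
    obtain ⟨m', hm0, hm1, hm2, hm3⟩ := ih (Fin.tail x) (Fin.tail ρ) t' (exA_adapt_tail ht o0)
      (fun o' j c' h => hρ _ j.succ c' h) W hW0 hw
    have hWpos : ∀ l' y', 0 < m' l' y' → 0 < W y' := fun l' y' h => by
      rcases (hW0 y').eq_or_lt with h0 | h0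
      · have h1 := hm2 l' y'
        rw [← h0, mul_zero] at h1
        exact absurd h1 (not_le.2 (mul_pos h hw))
      · exact h0
    refine ⟨fun l y => m' (Fin.tail l) (Fin.tail y) *
      (kap (x 0) (l 0) * tauY (x 0) (c (Fin.tail l) (Fin.tail y)) (y 0) *
        (b y / Z (Fin.tail l) (Fin.tail y))), fun l y => ?_, ?_, fun l y => ?_, fun F hF => ?_⟩
    · exact mul_nonneg (hm0 _ _) (mul_nonneg (mul_nonneg (kap_nonneg _ _)
        (exA_tauY_nonneg _ _ _)) (div_nonneg (hb _) (hZ0 _ _)))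
    · rw [exA_cons2, ← hm1]
      refine expect_congr rfl fun l' _ => expect_congr rfl fun y' _ => ?_
      simp only [Fin.tail_cons, Fin.cons_zero]
      rcases (hm0 l' y').eq_or_lt with h0 | h0
      · simp [← h0]
      · have hZp : 0 < Z l' y' := (hWpos l' y' h0).trans_le (hWZ l' y')
        have e : ∀ (l0 : Fin s → Q), 𝔼 y0, m' l' y' * (kap (x 0) l0 * tauY (x 0) (c l' y') y0 *
            (b (Fin.cons y0 y') / Z l' y')) = m' l' y' * kap (x 0) l0 := fun l0 => by
          have e1 : ∀ y0 : Fin s × Q → Bool, m' l' y' * (kap (x 0) l0 *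
              tauY (x 0) (c l' y') y0 * (b (Fin.cons y0 y') / Z l' y')) =
              m' l' y' * kap (x 0) l0 / Z l' y' *
                (tauY (x 0) (c l' y') y0 * b (Fin.cons y0 y')) := fun y0 => by ring
          simp only [e1]
          rw [← mul_expect]
          exact div_mul_cancel₀ _ hZp.ne'
        simp only [e]
        rw [← mul_expect, ex_kap_right, mul_one]
    · obtain ⟨l0, l', rfl⟩ : ∃ l0 l', l = Fin.cons l0 l' := ⟨l 0, Fin.tail l, by simp⟩
      obtain ⟨y0, y', rfl⟩ : ∃ y0 y', y = Fin.cons y0 y' := ⟨y 0, Fin.tail y, by simp⟩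
      simp only [Fin.tail_cons, Fin.cons_zero]
      rw [hden]
      have hk : 0 ≤ kap (x 0) l0 * tauY (x 0) (c l' y') y0 * b (Fin.cons y0 y') :=
        mul_nonneg (mul_nonneg (kap_nonneg _ _) (exA_tauY_nonneg _ _ _)) (hb _)
      have h1 : m' l' y' * wv tauY n (Fin.tail ρ) (Fin.tail x) W / Z l' y' ≤
          den (Fin.tail x) t' l' y' := by
        refine div_le_of_le_mul₀ (hZ0 l' y') (den_nonneg _ _ _ _) ((hm2 l' y').trans ?_)
        exact mul_le_mul_of_nonneg_left (hWZ l' y') (den_nonneg _ _ _ _)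
      calc _ = kap (x 0) l0 * tauY (x 0) (c l' y') y0 * b (Fin.cons y0 y') *
            (m' l' y' * wv tauY n (Fin.tail ρ) (Fin.tail x) W / Z l' y') := by ring
        _ ≤ kap (x 0) l0 * tauY (x 0) (c l' y') y0 * b (Fin.cons y0 y') *
            den (Fin.tail x) t' l' y' := mul_le_mul_of_nonneg_left h1 hk
        _ = _ := by ring
    · set F' : (Fin n → Fin s → Q) → (Fin n → Fin s → U) → (Fin n → Fin s × Q → Bool) → ℝ :=
        fun l' u' y' => Real.log (𝔼 l0, 𝔼 y0, 𝔼 u0, kap (x 0) l0 * tauY (x 0) (c l' y') y0 *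
          Real.exp (F (Fin.cons l0 l') (Fin.cons u0 u') (Fin.cons y0 y'))) with hF'
      have hF'inv : ∀ l' u' y' y'', Same ev u' (lab ev l' u') y' y'' →
          F' l' u' y' = F' l' u' y'' := by
        intro l' u' y' y'' h
        have hcc : c l' y' = c l' y'' := by simp only [hc, obs_of_same h]
        simp only [hF']
        refine congrArg Real.log (expect_congr rfl fun l0 _ => expect_congr rfl fun y0 _ =>
          expect_congr rfl fun u0 _ => ?_)
        rw [hcc, hF _ _ _ _ (exA_same_tail h u0 l0 y0)]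
      have e2 : 𝔼 l, 𝔼 y, 𝔼 u, den x t l y * Real.exp (F l u y) =
          𝔼 l', 𝔼 y', 𝔼 u', den (Fin.tail x) t' l' y' * Real.exp (F' l' u' y') := by
        rw [exA_cons3 fun l y u => den x t l y * Real.exp (F l u y)]
        refine expect_congr rfl fun l' _ => expect_congr rfl fun y' _ =>
          expect_congr rfl fun u' _ => ?_
        simp only [hF']
        rw [Real.exp_log (exA_inner_pos (x 0) (c l' y') fun l0 u0 y0 =>
          F (Fin.cons l0 l') (Fin.cons u0 u') (Fin.cons y0 y')), mul_expect]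
        refine expect_congr rfl fun l0 _ => ?_
        rw [mul_expect]
        refine expect_congr rfl fun y0 _ => ?_
        rw [mul_expect]
        refine expect_congr rfl fun u0 _ => ?_
        rw [hden]
        ring
      rw [e2]
      refine le_trans ?_ (hm3 F' hF'inv)
      rw [exA_cons3 fun l y u => m' (Fin.tail l) (Fin.tail y) *
        (kap (x 0) (l 0) * tauY (x 0) (c (Fin.tail l) (Fin.tail y)) (y 0) *
          (b y / Z (Fin.tail l) (Fin.tail y))) * (F l u y - η * Real.log (b y))]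
      refine ex_mono fun l' => ex_mono fun y' => ex_mono fun u' => ?_
      simp only [Fin.tail_cons, Fin.cons_zero]
      rcases (hm0 l' y').eq_or_lt with h0 | h0
      · simp [← h0]
      · have hWp := hWpos l' y' h0
        have hZp : 0 < Z l' y' := hWp.trans_le (hWZ l' y')
        have hbl := block hD hη (x 0) (c l' y') (fun y0 => b (Fin.cons y0 y')) (fun y0 => hb _)
          (Z := Z l' y') rfl hZp
          (fun l0 u0 y0 => F (Fin.cons l0 l') (Fin.cons u0 u') (Fin.cons y0 y'))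
          (fun l0 u0 y0 y1 h => hF _ _ _ _ (exA_same_head u' l' y' h))
        have hlog : η * Real.log (W y') ≤ η * Real.log (Z l' y') :=
          mul_le_mul_of_nonneg_left (Real.log_le_log hWp (hWZ l' y')) hη.le
        calc _ = m' l' y' * 𝔼 l0, 𝔼 y0, 𝔼 u0, kap (x 0) l0 * tauY (x 0) (c l' y') y0 *
              (b (Fin.cons y0 y') / Z l' y') *
              (F (Fin.cons l0 l') (Fin.cons u0 u') (Fin.cons y0 y') -
                η * Real.log (b (Fin.cons y0 y'))) := by
              rw [mul_expect]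
              refine expect_congr rfl fun l0 _ => ?_
              rw [mul_expect]
              refine expect_congr rfl fun y0 _ => ?_
              rw [mul_expect]
              refine expect_congr rfl fun u0 _ => ?_
              ring
          _ ≤ m' l' y' * (F' l' u' y' - η * Real.log (W y')) := by
              refine mul_le_mul_of_nonneg_left (hbl.trans ?_) h0.le
              simp only [hF']
              linarith

end Pool.Agent.Lib.MP_8a52c3_lc.Mono
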