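import Pool.Agent.Lib.MP_8a52c3_lc.Mono.Obs
import Pool.Agent.Lib.MP_8a52c3_lc.Mono.Cover

/-! The junta decomposition for triangles, with uniform errors. -/

open Finset
open scoped BigOperators

namespace Pool.Agent.Lib.MP_8a52c3_lc.Mono

theorem fam_union {α β : Type} [Fintype α] [Fintype β] [Nonempty β] {M : ℕ} {δ ε : ℝ}
    {h : α → β → ℝ} (H : Cov M δ h) (h0 : ∀ x y, 0 ≤ h x y) (h2 : ∀ x y, h x y ≤ 2)
    (P : (β → ℝ) → α → ℝ → Prop)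
    (hP : ∀ d : β → ℝ, (∀ y, 0 ≤ d y) → (∀ y, d y ≤ 2) → ∃ e, Small ε e ∧ ∀ a, P d a (e a)) :
    ∃ e, Small (M * ε) e ∧ ∀ a, ∃ d e', e' ≤ e a ∧ 𝔼 y, |h a y - d y| ≤ δ ∧ P d a e' := by
  obtain ⟨d, hd0, hd2, hd⟩ := H.clip zero_le_two h0 h2
  choose e he hPe using fun i => hP (d i) (hd0 i) (hd2 i)
  refine ⟨fun a => ∑ i, e i a, ⟨fun a => sum_nonneg fun i _ => (he i).1 a, ?_⟩, fun a => ?_⟩
  · rw [expect_sum_comm]
    refine (sum_le_sum fun i _ => (he i).2).trans_eq ?_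
    simp
  · obtain ⟨i, hi⟩ := hd a
    exact ⟨d i, e i a, single_le_sum (f := fun i => e i a) (fun j _ => (he j).1 a) (mem_univ i),
      hi, hPe i a⟩

theorem fam_const {α : Type} [Fintype α] [Nonempty α] {ε ε' c : ℝ} {e : α → ℝ} (he : Small ε e)
    (hc : 0 ≤ c) (h : ε + c ≤ ε') : Small ε' fun a => e a + c := by
  refine ⟨fun a => add_nonneg (he.1 a) hc, ?_⟩
  rw [expect_add_distrib, ex_const]
  linarith [he.2]

theorem fam_lip {β : Type} [Fintype β] {g : β → ℝ} {Λ δ : ℝ} (hΛ : 0 ≤ Λ) (hg : ∀ y, |g y| ≤ Λ)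
    {h d : β → ℝ} (hδ : 𝔼 y, |h y - d y| ≤ δ) :
    𝔼 y, g y * h y ≤ 𝔼 y, g y * d y + Λ * δ ∧ 𝔼 y, g y * d y ≤ 𝔼 y, g y * h y + Λ * δ := by
  have key : ∀ y, |g y * h y - g y * d y| ≤ Λ * |h y - d y| := fun y => by
    rw [← mul_sub, abs_mul]
    exact mul_le_mul_of_nonneg_right (hg y) (abs_nonneg _)
  have h1 : 𝔼 y, g y * h y ≤ 𝔼 y, (g y * d y + Λ * |h y - d y|) :=
    ex_mono fun y => by linarith [(abs_le.1 (key y)).2]
  have h2 : 𝔼 y, g y * d y ≤ 𝔼 y, (g y * h y + Λ * |h y - d y|) :=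
    ex_mono fun y => by linarith [(abs_le.1 (key y)).1]
  rw [expect_add_distrib, ← mul_expect] at h1 h2
  have h3 := mul_le_mul_of_nonneg_left hδ hΛ
  exact ⟨by linarith, by linarith⟩

theorem fam_num {t : ℝ} {n r : ℕ} (hn : 4 ≤ n) (htr : (2 : ℝ) ^ (27 * n) ≤ t ^ r) {M c : ℝ}
    (hM : M ≤ 8 * ((2 : ℝ) ^ n) ^ 18) (hc : c ≤ 3 / ((2 : ℝ) ^ n) ^ 3) :
    M * (2 ^ n * 9 ^ n * 2 / t ^ r) + c ≤ (1 / 2) ^ (2 * n) := by
  have h9 : (9 : ℝ) ^ n ≤ ((2 : ℝ) ^ n) ^ 4 := by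
    rw [← pow_mul, mul_comm, pow_mul]
    exact pow_le_pow_left₀ (by norm_num) (by norm_num) n
  have hu : (16 : ℝ) ≤ 2 ^ n :=
    le_trans (by norm_num) (pow_le_pow_right₀ (by norm_num : (1 : ℝ) ≤ 2) hn)
  have e1 : (2 : ℝ) ^ (27 * n) = ((2 : ℝ) ^ n) ^ 27 := by rw [← pow_mul, mul_comm]
  have e2 : ((1 : ℝ) / 2) ^ (2 * n) = 1 / ((2 : ℝ) ^ n) ^ 2 := by
    rw [one_div_pow, ← pow_mul, mul_comm]
  rw [e1] at htr
  rw [e2]
  generalize (2 : ℝ) ^ n = u at *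
  have hu0 : 0 < u := by linarith
  have h1 : u * 9 ^ n * 2 / t ^ r ≤ u * u ^ 4 * 2 / u ^ 27 := by
    gcongr
  have h2 : M * (u * 9 ^ n * 2 / t ^ r) ≤ 8 * u ^ 18 * (u * u ^ 4 * 2 / u ^ 27) := by
    refine (mul_le_mul_of_nonneg_right hM ?_).trans (mul_le_mul_of_nonneg_left h1 (by positivity))
    have : 0 < t ^ r := lt_of_lt_of_le (by positivity) htr
    positivity
  have h3 : 8 * u ^ 18 * (u * u ^ 4 * 2 / u ^ 27) = 16 / u ^ 4 := by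
    field_simp
    norm_num
  have h4 : 16 / u ^ 4 + 3 / u ^ 3 ≤ 1 / u ^ 2 := by
    rw [div_add_div _ _ (by positivity) (by positivity), div_le_div_iff₀ (by positivity)
      (by positivity)]
    have h5 : 16 + 3 * u ≤ u ^ 2 := by nlinarith
    have h6 := mul_le_mul_of_nonneg_left h5 (by positivity : 0 ≤ u ^ 5)
    nlinarith
  linarith

theorem fam_K (n : ℕ) : ((2 ^ (6 * n) : ℕ) : ℝ) = ((2 : ℝ) ^ n) ^ 6 := by
  rw [Nat.cast_pow, Nat.cast_ofNat, mul_comm, pow_mul]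

theorem fam_one_le (n : ℕ) : (1 : ℝ) ≤ 2 ^ n := one_le_pow₀ one_le_two

theorem fam_M3 (n : ℕ) :
    (((2 ^ (6 * n) + 1) * (2 ^ (6 * n) + 1) * (2 ^ (6 * n) + 1) : ℕ) : ℝ) ≤
      8 * ((2 : ℝ) ^ n) ^ 18 := by
  rw [Nat.cast_mul, Nat.cast_mul, Nat.cast_add, fam_K, Nat.cast_one]
  have h1 : (1 : ℝ) ≤ ((2 : ℝ) ^ n) ^ 6 := one_le_pow₀ (fam_one_le n)
  have h2 : ((2 : ℝ) ^ n) ^ 18 = (((2 : ℝ) ^ n) ^ 6) ^ 3 := by ring
  rw [h2]
  generalize ((2 : ℝ) ^ n) ^ 6 = w at *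
  have h3 : (w + 1) ^ 3 ≤ (2 * w) ^ 3 := pow_le_pow_left₀ (by linarith) (by linarith) 3
  nlinarith

theorem fam_M1 (n : ℕ) : ((2 ^ (6 * n) + 1 : ℕ) : ℝ) ≤ 8 * ((2 : ℝ) ^ n) ^ 18 := by
  refine le_trans ?_ (fam_M3 n)
  rw [Nat.cast_le, mul_assoc]
  exact Nat.le_mul_of_pos_right _ (by positivity)

theorem fam_c {n : ℕ} {a : ℝ} (ha : a ≤ 3 * ((2 : ℝ) ^ n) ^ 3) :
    a * (1 / ((2 ^ (6 * n) : ℕ) : ℝ)) ≤ 3 / ((2 : ℝ) ^ n) ^ 3 := by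
  rw [fam_K, mul_one_div, div_le_div_iff₀ (by positivity) (by positivity)]
  have h := mul_le_mul_of_nonneg_right ha (by positivity : 0 ≤ ((2 : ℝ) ^ n) ^ 3)
  refine h.trans_eq ?_
  ring

theorem fam_le_cube (n : ℕ) : (2 : ℝ) ^ n ≤ ((2 : ℝ) ^ n) ^ 3 :=
  le_self_pow₀ (fam_one_le n) (by norm_num)

theorem fam_ind3 {p p₁ p₂ : Prop} (h : p → p₁ ∨ p₂) :
    0 ≤ ind p₁ + ind p₂ - ind p ∧ ind p₁ + ind p₂ - ind p ≤ 2 := by
  have h1 := (ind_mono h).trans (ind_or_le p₁ p₂)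
  exact ⟨by linarith, by linarith [ind_le_one p₁, ind_le_one p₂, ind_nonneg p]⟩

/-- Positivity for a general kernel. -/
theorem fam_pos {α β : Type} [Fintype α] [Fintype β] [Nonempty α] [Nonempty β] {t : ℝ} {n r : ℕ}
    (hn : 4 ≤ n) (htr : (2 : ℝ) ^ (27 * n) ≤ t ^ r) (g : α → β → ℝ) (hg : ∀ a y, |g a y| ≤ 2 ^ n)
    (hP : ∀ d : β → ℝ, (∀ y, 0 ≤ d y) → (∀ y, d y ≤ 2) →
      ∃ e, Small (2 ^ n * 9 ^ n * 2 / t ^ r) e ∧ ∀ a, -e a ≤ 𝔼 y, g a y * d y)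
    {R R₁ R₂ : α → β → Prop} (hR : Tri R) (hR₁ : Tri R₁) (hR₂ : Tri R₂)
    (h : ∀ x y, R x y → R₁ x y ∨ R₂ x y) :
    ∃ e, Small ((1 / 2) ^ (2 * n)) e ∧ ∀ x, 𝔼 y, g x y * ind (R x y) ≤
      𝔼 y, g x y * ind (R₁ x y) + 𝔼 y, g x y * ind (R₂ x y) + e x := by
  have hK : 0 < 2 ^ (6 * n) := by positivity
  obtain ⟨e, he, hd⟩ := fam_union (((hR₁.cov hK).add (hR₂.cov hK)).sub (hR.cov hK))
    (fun x y => (fam_ind3 (h x y)).1) (fun x y => (fam_ind3 (h x y)).2)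
    (fun d a e => -e ≤ 𝔼 y, g a y * d y) hP
  refine ⟨_, fam_const he (c := 3 * 2 ^ n * (1 / ((2 ^ (6 * n) : ℕ) : ℝ))) (by positivity)
    (fam_num hn htr (fam_M3 n) (fam_c (by linarith [fam_le_cube n]))), fun x => ?_⟩
  obtain ⟨d, e', he', hδ, hPd⟩ := hd x
  have h1 := (fam_lip (by positivity) (hg x) hδ).2
  simp only [mul_add, mul_sub, expect_add_distrib, expect_sub_distrib] at h1
  linarith

variable {s n : ℕ} [NeZero s] {Q : Type} [Fintype Q] [DecidableEq Q] [Nonempty Q]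

omit [DecidableEq Q] in
theorem fam_lam {t : ℝ} (hs : 4 * t ^ 2 ≤ s) :
    4 * t ^ 2 * (1 / (Fintype.card (Fin s × Q) : ℝ)) ≤ 1 := by
  have h0 : (0 : ℝ) < Fintype.card (Fin s × Q) := by exact_mod_cast Fintype.card_pos
  have h1 : (s : ℝ) ≤ Fintype.card (Fin s × Q) := by
    rw [Fintype.card_prod, Fintype.card_fin, Nat.cast_le]
    exact Nat.le_mul_of_pos_right _ Fintype.card_pos
  rw [mul_one_div, div_le_one h0]
  exact hs.trans h1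

theorem env_of {t : ℝ} {r : ℕ} {σ : (Fin n → Bool) → ℝ} (hn : 4 ≤ n) (ht : 1 ≤ t)
    (hs : 4 * t ^ 2 ≤ s) (htr : (2 : ℝ) ^ (27 * n) ≤ t ^ r)
    (hσ : IsPseudo n (2 * r) (2 ^ n) σ) : Env σ s Q r ((1 / 2) ^ (2 * n)) := by
  have hK : 0 < 2 ^ (6 * n) := by positivity
  have hi0 : ∀ p : Prop, 0 ≤ ind p := ind_nonneg
  have hi2 : ∀ p : Prop, ind p ≤ 2 := fun p => (ind_le_one p).trans one_le_two
  have hY0 : ∀ (a : Fin s × Q) (c : Bool) (l : Fin s × Q → Bool), 0 ≤ tauY a c l :=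
    (gad_tauY (X := Fin s × Q)).nonneg
  have hY2 : ∀ (a : Fin s × Q) (c : Bool) (l : Fin s × Q → Bool), tauY a c l ≤ 2 := fun a c l => by
    unfold tauY
    split_ifs <;> norm_num
  refine ⟨fun R R₁ R₂ hR hR₁ hR₂ h => ?_, fun R R₁ R₂ hR hR₁ hR₂ h => ?_, fun R hR => ?_,
    fun R hR => ?_⟩
  · refine fam_pos hn htr (fun x y => σ (gad x y)) (fun x y => hσ.bound _) (fun d d0 d2 => ?_)
      hR hR₁ hR₂ h
    obtain ⟨e, he, h'⟩ := p1 (gad_tauY (X := Fin s × Q)) ht (fam_lam hs) hσ d0 d2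
    exact ⟨e, he, fun x => (h' x).1.trans_eq (ff_tauY σ x d)⟩
  · refine fam_pos hn htr (fun y x => σ (gad x y)) (fun y x => hσ.bound _) (fun d d0 d2 => ?_)
      hR.swap hR₁.swap hR₂.swap fun y x => h x y
    obtain ⟨e, he, h'⟩ := p1 (gad_tauC (X := Fin s × Q)) ht (fam_lam hs) hσ d0 d2
    exact ⟨e, he, fun y => (h' y).1.trans_eq (ff_tauC σ y d)⟩
  · obtain ⟨e, he, hd⟩ := fam_union (hR.cov hK) (fun _ _ => hi0 _) (fun _ _ => hi2 _)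
      (fun d x e => fr σ x d ≤ ∑ ρ ∈ cons σ r, wv tauY n ρ x d + e)
      (ε := 2 ^ n * 9 ^ n * 2 / t ^ r) fun d d0 d2 => by
        obtain ⟨e, he, h'⟩ := p1 (gad_tauY (X := Fin s × Q)) ht (fam_lam hs) hσ d0 d2
        exact ⟨e, he, fun x => (ff_tauY σ x d).symm.trans_le (h' x).2.1⟩
    have h3 : (3 : ℝ) ^ n ≤ ((2 : ℝ) ^ n) ^ 2 := by
      rw [← pow_mul, mul_comm, pow_mul]
      exact pow_le_pow_left₀ (by norm_num) (by norm_num) n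
    have h4 : (3 : ℝ) ^ n * 2 ^ n ≤ ((2 : ℝ) ^ n) ^ 3 :=
      (mul_le_mul_of_nonneg_right h3 (by positivity)).trans_eq (by ring)
    have h5 : (0 : ℝ) ≤ ((2 : ℝ) ^ n) ^ 3 := by positivity
    refine ⟨_, fam_const he (c := (3 ^ n * 2 ^ n + 2 ^ n) * (1 / ((2 ^ (6 * n) : ℕ) : ℝ)))
      (by positivity) (fam_num hn htr (fam_M1 n) (fam_c (by linarith [fam_le_cube n]))),
      fun x => ?_⟩
    obtain ⟨d, e', he', hδ, hPd⟩ := hd x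
    have h1 : fr σ x (fun y => ind (R x y)) ≤ fr σ x d + _ :=
      (fam_lip (by positivity) (fun y => hσ.bound (gad x y)) hδ).1
    have h2 : ∑ ρ ∈ cons σ r, wv tauY n ρ x d ≤ ∑ ρ ∈ cons σ r,
        (wv tauY n ρ x (fun y => ind (R x y)) + 2 ^ n * (1 / ((2 ^ (6 * n) : ℕ) : ℝ))) :=
      sum_le_sum fun ρ _ => (wv_lip hY0 hY2 ρ x d _).trans (by
        simp only [abs_sub_comm (d _)]
        gcongr)
    rw [sum_add_distrib, sum_const, nsmul_eq_mul] at h2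
    have h6 : ((cons σ r).card : ℝ) ≤ 3 ^ n := by exact_mod_cast card_cons_le σ r
    have h7 := mul_le_mul_of_nonneg_right h6
      (by positivity : (0 : ℝ) ≤ 2 ^ n * (1 / ((2 ^ (6 * n) : ℕ) : ℝ)))
    linarith
  · obtain ⟨e, he, hd⟩ := fam_union (hR.cov hK) (fun _ _ => hi0 _) (fun _ _ => hi2 _)
      (fun d x e => ∀ ρ ∈ cons σ r, ∃ st, Adapted st ∧ Resp st ρ ∧
        val x st d ≤ 2 ^ r * (fr σ x d + e))
      (ε := 2 ^ n * 9 ^ n * 2 / t ^ r) fun d d0 d2 => obs_strat ht hs hσ d0 d2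
    have h5 : (0 : ℝ) ≤ ((2 : ℝ) ^ n) ^ 3 := by positivity
    refine ⟨_, fam_const he (c := 2 * 2 ^ n * (1 / ((2 ^ (6 * n) : ℕ) : ℝ)))
      (by positivity) (fam_num hn htr (fam_M1 n) (fam_c (by linarith [fam_le_cube n]))),
      fun x ρ hρ => ?_⟩
    obtain ⟨d, e', he', hδ, hPd⟩ := hd x
    obtain ⟨st, ha, hr, hv⟩ := hPd ρ hρ
    refine ⟨st, ha, hr, ?_⟩
    have h1 : fr σ x d ≤ fr σ x (fun y => ind (R x y)) + _ :=
      (fam_lip (by positivity) (fun y => hσ.bound (gad x y)) hδ).2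
    have h2 := val_lip x st (fun y => ind (R x y)) d
    have h3 := mul_le_mul_of_nonneg_left hδ (by positivity : (0 : ℝ) ≤ 2 ^ n)
    have h4 := le_mul_of_one_le_left
      (by positivity : (0 : ℝ) ≤ 2 ^ n * (1 / ((2 ^ (6 * n) : ℕ) : ℝ))) (fam_one_le r)
    have h6 := mul_le_mul_of_nonneg_left (add_le_add h1 he') (by positivity : (0 : ℝ) ≤ 2 ^ r)
    linarith

end Pool.Agent.Lib.MP_8a52c3_lc.Mono
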