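import Pool.Agent.Lib.MP_8a52c3_lc.Mono.Basic

/-! Generalised Hoelder and Finner inequalities. -/

open Finset
open scoped BigOperators

namespace Pool.Agent.Lib.MP_8a52c3_lc.Mono

theorem finA_pos {α : Type} [Fintype α] [Nonempty α] (f : α → ℝ) :
    0 < 𝔼 a, Real.exp (f a) := expect_pos (fun _ _ => Real.exp_pos _) univ_nonempty

theorem finA_exp {Ω : Type} [Fintype Ω] (μ f : Ω → ℝ) (hμ : ∀ ω, 0 ≤ μ ω) (h1 : ∑ ω, μ ω ≤ 1) :
    Real.exp (∑ ω, μ ω * f ω) ≤ ∑ ω, μ ω * Real.exp (f ω) + (1 - ∑ ω, μ ω) := by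
  have := exp_sum_le (fun o : Option Ω => o.elim (1 - ∑ ω, μ ω) μ) (fun o => o.elim 0 f)
    (fun o => by
      cases o with
      | none => exact sub_nonneg.2 h1
      | some ω => exact hμ ω) (by simp [Fintype.sum_option])
  simp only [Fintype.sum_option, Option.elim, mul_zero, zero_add, Real.exp_zero, mul_one] at this
  linarith

/-- Convexity of the logarithm of the mean of the exponential. -/
theorem holder_exp {α Ω : Type} [Fintype α] [Nonempty α] [Fintype Ω] (μ : Ω → ℝ)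
    (hμ : ∀ ω, 0 ≤ μ ω) (h1 : ∑ ω, μ ω ≤ 1) (ψ : Ω → α → ℝ) :
    Real.log (𝔼 a, Real.exp (∑ ω, μ ω * ψ ω a)) ≤
      ∑ ω, μ ω * Real.log (𝔼 a, Real.exp (ψ ω a)) := by
  set L : Ω → ℝ := fun ω => Real.log (𝔼 a, Real.exp (ψ ω a)) with hL
  rw [Real.log_le_iff_le_exp (finA_pos _)]
  have key : ∀ a, Real.exp (∑ ω, μ ω * ψ ω a) ≤ Real.exp (∑ ω, μ ω * L ω) *
      (∑ ω, μ ω * (Real.exp (ψ ω a) / Real.exp (L ω)) + (1 - ∑ ω, μ ω)) := by
    intro a
    have h := finA_exp μ (fun ω => ψ ω a - L ω) hμ h1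
    simp only [Real.exp_sub, mul_sub, sum_sub_distrib] at h
    rwa [div_le_iff₀' (Real.exp_pos _)] at h
  refine (ex_mono key).trans_eq ?_
  have e : ∀ ω, 𝔼 a, μ ω * (Real.exp (ψ ω a) / Real.exp (L ω)) = μ ω := fun ω => by
    rw [← mul_expect, ← expect_div, hL, Real.exp_log (finA_pos _), div_self (finA_pos _).ne',
      mul_one]
  rw [← mul_expect, expect_add_distrib, ex_const, expect_sum_comm]
  simp only [e]
  ring

theorem finA_update {P B : Type} [Fintype P] [DecidableEq P] [Fintype B] [Nonempty B] (p : P)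
    (f : (P → B) → ℝ) : 𝔼 y, 𝔼 b, f (Function.update y p b) = 𝔼 y, f y := by
  have hinv : Function.Involutive fun q : (P → B) × B =>
      (Function.update q.1 p q.2, q.1 p) := by
    intro q
    simp
  have h1 := ex_equiv hinv.toPerm fun q => f q.1
  rw [ex_prod, ex_prod] at h1
  simp only [ex_const] at h1
  exact h1

theorem finA_main {P B Ω : Type} [Fintype P] [DecidableEq P] [Fintype B] [Nonempty B] [Fintype Ω]
    (μ : Ω → ℝ) (hμ : ∀ ω, 0 ≤ μ ω) (Γ : Ω → P → Prop) (hcov : ∀ p, ∑ ω, μ ω * ind (Γ ω p) ≤ 1)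
    (S : Finset P) : ∀ ψ : Ω → (P → B) → ℝ,
    (∀ ω y y', (∀ p ∈ S, Γ ω p → y p = y' p) → ψ ω y = ψ ω y') →
    Real.log (𝔼 y, Real.exp (∑ ω, μ ω * ψ ω y)) ≤
      ∑ ω, μ ω * Real.log (𝔼 y, Real.exp (ψ ω y)) := by
  induction S using Finset.induction_on with
  | empty =>
    intro ψ hψ
    obtain ⟨y0⟩ : Nonempty (P → B) := inferInstance
    have e : ∀ ω y, ψ ω y = ψ ω y0 := fun ω y => hψ ω y y0 (by simp)
    simp only [e, ex_const, Real.log_exp, le_refl]
  | insert p S _ ih =>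
    intro ψ hψ
    have h := ih (fun ω y => Real.log (𝔼 b, Real.exp (ψ ω (Function.update y p b))))
      (fun ω y y' hy => by
        refine congrArg Real.log (expect_congr rfl fun b _ => congrArg Real.exp ?_)
        refine hψ ω _ _ fun q hq hΓ => ?_
        by_cases c : q = p
        · rw [c, Function.update_self, Function.update_self]
        · rw [Function.update_of_ne c, Function.update_of_ne c]
          exact hy q ((mem_insert.1 hq).resolve_left c) hΓ)
    have e1 : ∀ ω, 𝔼 y, Real.exp (Real.log (𝔼 b, Real.exp (ψ ω (Function.update y p b)))) =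
        𝔼 y, Real.exp (ψ ω y) := fun ω => by
      rw [← finA_update p fun y => Real.exp (ψ ω y)]
      exact expect_congr rfl fun y _ => Real.exp_log (finA_pos _)
    simp only [e1] at h
    refine le_trans (Real.log_le_log (finA_pos _) ?_) h
    rw [← finA_update p]
    refine ex_mono fun y => ?_
    have e2 : ∀ ω b, ¬Γ ω p → ψ ω (Function.update y p b) = ψ ω y := fun ω b c =>
      hψ ω _ _ fun q _ hΓ => Function.update_of_ne (fun d : q = p => c (d ▸ hΓ)) _ _
    have e3 : ∀ b, ∑ ω, μ ω * ψ ω (Function.update y p b) = ∑ ω, μ ω * ind (¬Γ ω p) * ψ ω y +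
        ∑ ω, μ ω * ind (Γ ω p) * ψ ω (Function.update y p b) := fun b => by
      rw [← sum_add_distrib]
      refine sum_congr rfl fun ω _ => ?_
      by_cases c : Γ ω p
      · rw [ind_of c, ind_of_not (not_not.2 c)]; ring
      · rw [ind_of c, ind_of_not c, e2 ω b c]; ring
    have e4 : ∑ ω, μ ω * Real.log (𝔼 b, Real.exp (ψ ω (Function.update y p b))) =
        ∑ ω, μ ω * ind (¬Γ ω p) * ψ ω y + ∑ ω, μ ω * ind (Γ ω p) *
          Real.log (𝔼 b, Real.exp (ψ ω (Function.update y p b))) := by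
      rw [← sum_add_distrib]
      refine sum_congr rfl fun ω _ => ?_
      by_cases c : Γ ω p
      · rw [ind_of c, ind_of_not (not_not.2 c)]; ring
      · simp only [ind_of c, ind_of_not c, e2 ω _ c, ex_const, Real.log_exp]; ring
    have h2 := holder_exp (fun ω => μ ω * ind (Γ ω p))
      (fun ω => mul_nonneg (hμ ω) (ind_nonneg _)) (hcov p) fun ω b => ψ ω (Function.update y p b)
    rw [Real.log_le_iff_le_exp (finA_pos _)] at h2
    simp only [e3, e4, Real.exp_add, ← mul_expect]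
    exact mul_le_mul_of_nonneg_left h2 (Real.exp_pos _).le

theorem finner {P B Ω : Type} [Fintype P] [DecidableEq P] [Fintype B] [Nonempty B] [Fintype Ω]
    (μ : Ω → ℝ) (hμ : ∀ ω, 0 ≤ μ ω) (Γ : Ω → P → Prop) (hcov : ∀ p, ∑ ω, μ ω * ind (Γ ω p) ≤ 1)
    (ψ : Ω → (P → B) → ℝ) (hψ : ∀ ω y y', (∀ p, Γ ω p → y p = y' p) → ψ ω y = ψ ω y') :
    Real.log (𝔼 y, Real.exp (∑ ω, μ ω * ψ ω y)) ≤
      ∑ ω, μ ω * Real.log (𝔼 y, Real.exp (ψ ω y)) :=
  finA_main μ hμ Γ hcov univ ψ fun ω y y' h => hψ ω y y' fun p => h p (mem_univ p)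

end Pool.Agent.Lib.MP_8a52c3_lc.Mono
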