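import Pool.Agent.Lib.MP_8a52c3_lc.Mono.Defs
import Pool.Agent.Shared.PolyTime.Extra

/-! Gaussian elimination over the field with two elements runs in polynomial time. -/

open Finset
open scoped BigOperators

namespace Pool.Agent.Lib.MP_8a52c3_lc.Mono

/-- The variables of `U` that occur an odd number of times in `l`. -/
def gaRed (U l : List ℕ) : List ℕ := U.filter fun w => decide (l.count w % 2 = 1)

/-- Add the row `p` to all rows in which `v` occurs an odd number of times. -/
def gaAdd (U : List ℕ) (v : ℕ) (rows : List (List ℕ × Bool)) (p : List ℕ × Bool) :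
    List (List ℕ × Bool) :=
  rows.map fun r => if r.1.count v % 2 = 1 then (gaRed U (r.1 ++ p.1), Bool.xor r.2 p.2) else r

/-- Elimination of the variable `v`. -/
def gaElim (U : List ℕ) (rows : List (List ℕ × Bool)) (v : ℕ) : List (List ℕ × Bool) :=
  (rows.find? fun p => decide (p.1.count v % 2 = 1)).elim rows (gaAdd U v rows)

/-- The value of a Boolean in the field with two elements. -/
def gaB (b : Bool) : ZMod 2 := if b then 1 else 0

/-- The left side of an equation. -/
def gaEv (U : List ℕ) (y : ℕ → Bool) (l : List ℕ) : ZMod 2 :=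
  ∑ w ∈ U.toFinset, (l.count w : ZMod 2) * gaB (y w)

theorem ga_cast (n : ℕ) : (n : ZMod 2) = if n % 2 = 1 then 1 else 0 := by
  rw [← ZMod.natCast_mod n 2]
  rcases Nat.mod_two_eq_zero_or_one n with h | h <;> simp [h]

theorem ga_xor (a b : Bool) : gaB (Bool.xor a b) = gaB a + gaB b := by
  cases a <;> cases b <;> decide

theorem ga_countP {U l : List ℕ} (h : l ⊆ U) (y : ℕ → Bool) :
    (l.countP y : ZMod 2) = gaEv U y l := by
  induction l with
  | nil => simp [gaEv]
  | cons a l ih =>
    have ha : a ∈ U.toFinset := List.mem_toFinset.2 (h (List.mem_cons_self ..))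
    have h1 : gaEv U y (a :: l) = gaEv U y l + gaB (y a) := by
      simp only [gaEv, List.count_cons, Nat.cast_add, add_mul, sum_add_distrib, beq_iff_eq,
        Nat.cast_ite, Nat.cast_one, Nat.cast_zero, ite_mul, one_mul, zero_mul]
      rw [sum_ite_eq, if_pos ha]
    rw [h1, ← ih fun w hw => h (List.mem_cons_of_mem _ hw), List.countP_cons, Nat.cast_add, gaB]
    split_ifs <;> simp

theorem ga_sat {U : List ℕ} {r : List ℕ × Bool} (h : r.1 ⊆ U) (y : ℕ → Bool) :
    (r.1.countP y % 2 = 1 ↔ r.2 = true) ↔ gaEv U y r.1 = gaB r.2 := by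
  rw [← ga_countP h, ga_cast, gaB]
  by_cases h1 : r.1.countP y % 2 = 1 <;> cases r.2 <;> simp [h1]

theorem ga_xorSat {U : List ℕ} {rows : List (List ℕ × Bool)} (h : ∀ r ∈ rows, r.1 ⊆ U) :
    XorSat rows ↔ ∃ y : ℕ → Bool, ∀ r ∈ rows, gaEv U y r.1 = gaB r.2 :=
  exists_congr fun y => forall₂_congr fun r hr => ga_sat (h r hr) y

theorem ga_count_red {U : List ℕ} (hU : U.Nodup) (l : List ℕ) {w : ℕ} (hw : w ∈ U) :
    ((gaRed U l).count w : ZMod 2) = l.count w := by
  rw [ga_cast (l.count w)]
  split_ifs with h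
  · rw [gaRed, List.count_filter (by simpa using h), List.count_eq_one_of_mem hU hw, Nat.cast_one]
  · rw [List.count_eq_zero_of_not_mem fun h' => h (by simpa using (List.mem_filter.1 h').2),
      Nat.cast_zero]

theorem ga_ev_red {U : List ℕ} (hU : U.Nodup) (y : ℕ → Bool) (l l' : List ℕ) :
    gaEv U y (gaRed U (l ++ l')) = gaEv U y l + gaEv U y l' := by
  rw [gaEv, gaEv, gaEv, ← sum_add_distrib]
  refine sum_congr rfl fun w hw => ?_
  rw [ga_count_red hU _ (List.mem_toFinset.1 hw), List.count_append, Nat.cast_add, add_mul]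

theorem ga_ev_update {U : List ℕ} {v : ℕ} (hv : v ∈ U) (y : ℕ → Bool) (l : List ℕ) :
    gaEv U (Function.update y v (!y v)) l = gaEv U y l + l.count v := by
  have hv' := List.mem_toFinset.2 hv
  rw [gaEv, gaEv, ← add_sum_erase _ _ hv', ← add_sum_erase _ _ hv', Function.update_self,
    sum_congr rfl fun w hw => by rw [Function.update_of_ne (ne_of_mem_erase hw)]]
  have h : gaB (!y v) = gaB (y v) + 1 := by cases y v <;> decide
  rw [h]
  ring

theorem ga_elim {U : List ℕ} (hU : U.Nodup) {rows : List (List ℕ × Bool)}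
    (h : ∀ r ∈ rows, r.1 ⊆ U) (v : ℕ) :
    (∀ r ∈ gaElim U rows v, r.1 ⊆ U) ∧ (XorSat (gaElim U rows v) ↔ XorSat rows) ∧
      ∀ w ∈ U, (w = v ∨ ∀ r ∈ rows, (r.1.count w : ZMod 2) = 0) →
        ∀ r ∈ gaElim U rows v, (r.1.count w : ZMod 2) = 0 := by
  unfold gaElim
  cases hf : rows.find? fun p => decide (p.1.count v % 2 = 1) with
  | none =>
    refine ⟨h, Iff.rfl, ?_⟩
    rintro w - (rfl | hw) r hr
    · rw [ga_cast, if_neg (by simpa using List.find?_eq_none.1 hf r hr)]
    · exact hw r hr
  | some p =>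
    have hp : p ∈ rows := List.mem_of_find?_eq_some hf
    have hpv : p.1.count v % 2 = 1 := by simpa using List.find?_some hf
    have hv : v ∈ U := h p hp (List.count_pos_iff.1 (by omega))
    have hpc : (p.1.count v : ZMod 2) = 1 := by rw [ga_cast, if_pos hpv]
    have h11 : (1 : ZMod 2) + 1 = 0 := by decide
    have h1 : ∀ r ∈ gaAdd U v rows p, r.1 ⊆ U := by
      intro r hr
      obtain ⟨r, hr', rfl⟩ := List.mem_map.1 hr
      split_ifs
      · exact List.filter_subset_self _
      · exact h r hr'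
    have h3 : ∀ w ∈ U, (w = v ∨ ∀ r ∈ rows, (r.1.count w : ZMod 2) = 0) →
        ∀ r ∈ gaAdd U v rows p, (r.1.count w : ZMod 2) = 0 := by
      intro w hw hw' r hr
      obtain ⟨r, hr', rfl⟩ := List.mem_map.1 hr
      split_ifs with hc
      · rw [ga_count_red hU _ hw, List.count_append, Nat.cast_add]
        rcases hw' with rfl | hw'
        · rw [hpc, ga_cast, if_pos hc, h11]
        · rw [hw' r hr', hw' p hp, add_zero]
      · rcases hw' with rfl | hw'
        · rw [ga_cast, if_neg hc]
        · exact hw' r hr'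
    refine ⟨h1, ?_, h3⟩
    change XorSat (gaAdd U v rows p) ↔ XorSat rows
    rw [ga_xorSat h1, ga_xorSat h]
    constructor
    · rintro ⟨y, hy⟩
      obtain ⟨y, hy, hyp⟩ : ∃ y : ℕ → Bool, (∀ r ∈ gaAdd U v rows p, gaEv U y r.1 = gaB r.2) ∧
          gaEv U y p.1 = gaB p.2 := by
        by_cases hyp : gaEv U y p.1 = gaB p.2
        · exact ⟨y, hy, hyp⟩
        · refine ⟨Function.update y v (!y v), fun r hr => ?_, ?_⟩
          · rw [ga_ev_update hv, h3 v hv (Or.inl rfl) r hr, add_zero, hy r hr]
          · rw [ga_ev_update hv, hpc]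
            revert hyp
            generalize gaEv U y p.1 = a
            generalize gaB p.2 = b
            revert a b
            decide
      refine ⟨y, fun r hr => ?_⟩
      have h4 := hy _ (List.mem_map_of_mem hr)
      split_ifs at h4
      · rw [ga_ev_red hU, ga_xor, hyp] at h4
        exact add_right_cancel h4
      · exact h4
    · rintro ⟨y, hy⟩
      refine ⟨y, fun r hr => ?_⟩
      obtain ⟨r, hr', rfl⟩ := List.mem_map.1 hr
      split_ifs
      · rw [ga_ev_red hU, ga_xor, hy r hr', hy p hp]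
      · exact hy r hr'

theorem ga_fold {U : List ℕ} (hU : U.Nodup) (vs : List ℕ) :
    ∀ {rows : List (List ℕ × Bool)}, (∀ r ∈ rows, r.1 ⊆ U) →
      (∀ r ∈ vs.foldl (gaElim U) rows, r.1 ⊆ U) ∧
      (XorSat (vs.foldl (gaElim U) rows) ↔ XorSat rows) ∧
      ∀ w ∈ U, (w ∈ vs ∨ ∀ r ∈ rows, (r.1.count w : ZMod 2) = 0) →
        ∀ r ∈ vs.foldl (gaElim U) rows, (r.1.count w : ZMod 2) = 0 := by
  induction vs with
  | nil => exact fun h => ⟨h, Iff.rfl, fun w _ hw => hw.resolve_left (List.not_mem_nil)⟩
  | cons v vs ih =>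
    intro rows h
    obtain ⟨h1, h2, h3⟩ := ga_elim hU h v
    obtain ⟨h4, h5, h6⟩ := ih h1
    refine ⟨h4, h5.trans h2, fun w hw hw' => h6 w hw ?_⟩
    rcases hw' with hw' | hw'
    · rcases List.mem_cons.1 hw' with e | e
      · exact Or.inr (h3 w hw (Or.inl e))
      · exact Or.inl e
    · exact Or.inr (h3 w hw (Or.inr hw'))

/-- The variables of a system. -/
def gaVars (rows : List (List ℕ × Bool)) : List ℕ := (rows.flatMap fun r => r.1).dedup

theorem ga_correct (rows : List (List ℕ × Bool)) :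
    ((gaVars rows).foldl (gaElim (gaVars rows)) rows).all (fun r => !r.2) = true ↔ XorSat rows := by
  obtain ⟨h1, h2, h3⟩ := ga_fold (U := gaVars rows) (List.nodup_dedup _) (gaVars rows)
    (rows := rows) fun r hr w hw => List.mem_dedup.2 (List.mem_flatMap.2 ⟨r, hr, hw⟩)
  rw [← h2, ga_xorSat h1, List.all_eq_true]
  have h4 : ∀ (y : ℕ → Bool), ∀ r ∈ (gaVars rows).foldl (gaElim (gaVars rows)) rows,
      gaEv (gaVars rows) y r.1 = 0 := fun y r hr =>
    sum_eq_zero fun w hw => by
      rw [h3 w (List.mem_toFinset.1 hw) (Or.inl (List.mem_toFinset.1 hw)) r hr, zero_mul]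
  constructor
  · refine fun h => ⟨fun _ => false, fun r hr => ?_⟩
    have h5 : r.2 = false := by simpa using h r hr
    rw [h4 _ r hr, h5]
    rfl
  · rintro ⟨y, hy⟩ r hr
    have h5 := hy r hr
    rw [h4 y r hr] at h5
    revert h5
    cases r.2 <;> decide

open Pool.Agent.Shared.PolyTime N68a2faeb in
theorem ga_poly : IsPolyTime fun rows : List (List ℕ × Bool) =>
    (gaVars rows).foldl (gaElim (gaVars rows)) rows := by
  refine IsPolyTime.foldl_inv (f := fun rows => gaElim (gaVars rows)) ?_ (by fun_prop)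
    (by unfold gaVars; fun_prop)
    (fun x s => s.length = x.length ∧ ∀ r ∈ s, r.1.Sublist (x.flatMap fun r => r.1))
    (fun x => ⟨rfl, fun r hr => ?_⟩) (fun x s v _ hs => ?_)
    (fun x => x.length * (2 * (2 * bsize (x.flatMap fun r => r.1) + 2) + 1)) (by fun_prop)
    fun x s hs => ?_
  · unfold gaElim gaAdd gaRed gaVars
    fun_prop
  · exact List.sublist_flatten_of_mem (List.mem_map_of_mem (f := fun r : List ℕ × Bool => r.1) hr)
  · unfold gaElim
    cases s.find? fun p => decide (p.1.count v % 2 = 1) with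
    | none => exact hs
    | some p =>
      refine ⟨(List.length_map _).trans hs.1, fun r hr => ?_⟩
      obtain ⟨r, hr', rfl⟩ := List.mem_map.1 hr
      split_ifs
      · exact List.filter_sublist.trans (List.dedup_sublist _)
      · exact hs.2 r hr'
  · rw [← hs.1]
    refine bsize_list_le s _ fun r hr => ?_
    have := bsize_sublist (hs.2 r hr)
    rw [bsize_prod, bsize_bool]
    omega

open Classical in
theorem xorSat_poly :
    N68a2faeb.IsPolyTime fun rows : List (List ℕ × Bool) => decide (XorSat rows) := by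
  refine (N68a2faeb.IsPolyTime.all (f := fun _ r => !r.2) (by fun_prop) ga_poly).of_eq
    fun rows => ?_
  rw [Bool.eq_iff_iff, decide_eq_true_iff]
  exact ga_correct rows

end Pool.Agent.Lib.MP_8a52c3_lc.Mono
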