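import Pool.Agent.Lib.MP_8a52c3_lc.Mono.Cover

/-! Most of the mass of a spread distribution lies in dense cells. -/

open Finset
open scoped BigOperators

namespace Pool.Agent.Lib.MP_8a52c3_lc.Mono

variable {s n : ℕ} {Q U V : Type} [Fintype Q] [DecidableEq Q] [Nonempty Q] [Fintype U] [Nonempty U]

omit [Nonempty Q] [Fintype U] [Nonempty U] in
theorem theta_small {α : Type} (ev : U → Q → V) {R : α → (Fin n → Fin s × Q → Bool) → Prop}
    (hR : Tri R) (u : Fin n → Fin s → U) (v : Fin n → Fin s → V) {β₀ : ℝ} (hβ : 0 ≤ β₀) :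
    𝔼 y, ind (theta ev R u v y < β₀) ≤ β₀ := by
  rw [ex_mix ev u v (fun _ y => ind (theta ev R u v y < β₀)) fun _ _ _ _ => rfl]
  refine ex_le fun y => ?_
  have h := quantile_le
    (fun a a' : Fin n → Fin s × Q → Bool =>
      ∀ x, R x (mix ev u v y a') → R x (mix ev u v y a))
    (fun a b => by
      by_contra hc
      rw [not_or] at hc
      obtain ⟨h1, h2⟩ := hc
      push Not at h1 h2
      obtain ⟨x, hx1, hx2⟩ := h1
      obtain ⟨x', hx1', hx2'⟩ := h2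
      rcases hR x x' _ _ hx1 hx1' with k | k
      · exact hx2 k
      · exact hx2' k)
    (fun a b c h1 h2 x k => h1 x (h2 x k)) hβ
  refine le_of_eq_of_le (expect_congr rfl fun y' _ => ?_) h
  unfold theta
  simp only [← mix_of_same (same_mix ev u v y y')]

theorem massA_exp (a : ℝ) (p : Prop) : Real.exp (a * ind p) ≤ 1 + Real.exp a * ind p := by
  by_cases h : p
  · rw [ind_of h, mul_one, mul_one]
    linarith
  · rw [ind_of_not h, mul_zero, mul_zero, Real.exp_zero, add_zero]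

theorem massA_tail {ev : U → Q → V} {η : ℝ} {k : ℕ} (hD : IsDesign ev η k)
    (B : (Fin n → Fin s → U) → (Fin n → Fin s → V) → Prop) {a : ℝ} (ha : 0 ≤ a)
    (hp : 𝔼 u, 𝔼 l : Fin n → Fin s → Q, ind (B u (lab ev l u)) ≤ Real.exp (-a)) :
    𝔼 l : Fin n → Fin s → Q, ind (1 / 4 ≤ 𝔼 u, ind (B u (lab ev l u))) ≤
      (2 * Real.exp (-a / 4)) ^ k := by
  have h1 := hD.shear n s fun u v => a * ind (B u v)
  have h2 : 𝔼 u, 𝔼 l : Fin n → Fin s → Q, Real.exp (a * ind (B u (lab ev l u))) ≤ 2 := by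
    refine (ex_mono fun u => ex_mono fun l => massA_exp a _).trans ?_
    simp only [expect_add_distrib, ← mul_expect, ex_const]
    have := mul_le_mul_of_nonneg_left hp (Real.exp_pos a).le
    rw [← Real.exp_add, add_neg_cancel, Real.exp_zero] at this
    linarith
  have h3 := h1.trans (pow_le_pow_left₀
    (ex_nonneg fun u => ex_nonneg fun l => (Real.exp_pos _).le) h2 k)
  have h4 : ∀ l : Fin n → Fin s → Q, ind (1 / 4 ≤ 𝔼 u, ind (B u (lab ev l u))) ≤
      Real.exp (k * 𝔼 u, a * ind (B u (lab ev l u))) * Real.exp (-a / 4) ^ k := by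
    intro l
    by_cases h : 1 / 4 ≤ 𝔼 u, ind (B u (lab ev l u))
    · rw [ind_of h, ← mul_expect, ← Real.exp_nat_mul, ← Real.exp_add]
      refine Real.one_le_exp ?_
      have := mul_le_mul_of_nonneg_left h (mul_nonneg (Nat.cast_nonneg (α := ℝ) k) ha)
      linarith
    · rw [ind_of_not h]
      positivity
  refine (ex_mono h4).trans ?_
  rw [← expect_mul, mul_pow]
  exact mul_le_mul_of_nonneg_right h3 (by positivity)

theorem mass {ev : U → Q → V} {η : ℝ} {k : ℕ} (hD : IsDesign ev η k) {Y : Type} [Fintype Y]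
    [Nonempty Y] (π : (Fin n → Fin s → Q) → Y → ℝ) (h0 : ∀ l y, 0 ≤ π l y)
    (h1 : 𝔼 l, 𝔼 y, π l y = 1) {Λ₁ Λ₂ β₀ a : ℝ} (hΛ₁ : ∀ y, 𝔼 l, π l y ≤ Λ₁)
    (hΛ₂ : ∀ l y, π l y ≤ Λ₂) (Bad : (Fin n → Fin s → U) → (Fin n → Fin s → V) → Y → Prop)
    (hBad : ∀ u v, 𝔼 y, ind (Bad u v y) ≤ β₀) (ha : 0 ≤ a) (hβ : Λ₁ * β₀ * Real.exp a ≤ 1 / 8)
    (hk : Λ₂ * (2 * Real.exp (-a / 4)) ^ k ≤ 1 / 8) :
    𝔼 l, 𝔼 y, 𝔼 u, π l y * ind (Bad u (lab ev l u) y) ≤ 1 / 2 := by
  obtain ⟨y0⟩ := (inferInstance : Nonempty Y)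
  obtain ⟨l0⟩ := (inferInstance : Nonempty (Fin n → Fin s → Q))
  have L1 : 0 ≤ Λ₁ := (ex_nonneg fun l => h0 l y0).trans (hΛ₁ y0)
  have L2 : 0 ≤ Λ₂ := (h0 l0 y0).trans (hΛ₂ l0 y0)
  let p : Y → ℝ := fun y => 𝔼 u, 𝔼 l : Fin n → Fin s → Q, ind (Bad u (lab ev l u) y)
  let q : (Fin n → Fin s → Q) → Y → ℝ := fun l y => 𝔼 u, ind (Bad u (lab ev l u) y)
  have p1 : Small β₀ p := by
    refine ⟨fun y => ex_nonneg fun u => ex_nonneg fun l => ind_nonneg _, ?_⟩
    rw [ex_comm]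
    refine ex_le fun u => ?_
    rw [ex_comm]
    exact ex_le fun l => hBad u _
  have p2 := markov p1 (Real.exp_pos (-a))
  rw [Real.exp_neg, div_inv_eq_mul, ← Real.exp_neg] at p2
  have t1 : 𝔼 l, 𝔼 y, π l y * ind (Real.exp (-a) < p y) ≤ 1 / 8 := by
    rw [ex_comm]
    simp only [← expect_mul]
    refine (ex_mono fun y => mul_le_mul_of_nonneg_right (hΛ₁ y) (ind_nonneg _)).trans ?_
    rw [← mul_expect]
    refine (mul_le_mul_of_nonneg_left p2 L1).trans ?_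
    rw [← mul_assoc]
    exact hβ
  have t2 : 𝔼 l, 𝔼 y, Λ₂ * ind (p y ≤ Real.exp (-a) ∧ 1 / 4 ≤ q l y) ≤ 1 / 8 := by
    rw [ex_comm]
    simp only [← mul_expect]
    refine le_trans (mul_le_mul_of_nonneg_left (ex_le fun y => ?_) L2) hk
    by_cases h : p y ≤ Real.exp (-a)
    · exact (ex_mono fun l => ind_mono And.right).trans
        (massA_tail hD (fun u v => Bad u v y) ha h)
    · simp only [ind_of_not fun j : p y ≤ Real.exp (-a) ∧ _ => h j.1, ex_const]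
      positivity
  have t3 : ∀ l y, 𝔼 u, π l y * ind (Bad u (lab ev l u) y) ≤
      π l y * ind (Real.exp (-a) < p y) + Λ₂ * ind (p y ≤ Real.exp (-a) ∧ 1 / 4 ≤ q l y) +
        1 / 4 * π l y := by
    intro l y
    rw [← mul_expect]
    have q1 : q l y ≤ 1 := ex_le fun u => ind_le_one _
    have a0 := h0 l y
    have a1 := mul_le_mul_of_nonneg_left q1 a0
    have a2 := mul_nonneg a0 (ind_nonneg (Real.exp (-a) < p y))
    have a3 := mul_nonneg L2 (ind_nonneg (p y ≤ Real.exp (-a) ∧ 1 / 4 ≤ q l y))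
    change π l y * q l y ≤ _
    by_cases c1 : Real.exp (-a) < p y
    · rw [ind_of c1]
      linarith
    by_cases c2 : 1 / 4 ≤ q l y
    · rw [ind_of (And.intro (not_lt.1 c1) c2)]
      linarith [hΛ₂ l y]
    · have := mul_le_mul_of_nonneg_left (not_le.1 c2).le a0
      linarith
  refine (ex_mono fun l => ex_mono fun y => t3 l y).trans ?_
  simp only [expect_add_distrib]
  have t4 : 𝔼 l, 𝔼 y, 1 / 4 * π l y = 1 / 4 := by
    simp only [← mul_expect]
    rw [h1, mul_one]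
  linarith

end Pool.Agent.Lib.MP_8a52c3_lc.Mono
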