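import Pool.Agent.Lib.MP_8a52c3_lc.Mono.Exist
import Pool.Agent.Lib.MP_8a52c3_lc.Mono.Mass

/-! The core of the self-improvement lemma. -/

open Finset
open scoped BigOperators

namespace Pool.Agent.Lib.MP_8a52c3_lc.Mono

variable {s n : ℕ} [NeZero s] {Q U V : Type} [Fintype Q] [DecidableEq Q] [Nonempty Q] [Fintype U]
  [Nonempty U]

theorem hc_swap {α β γ : Type} [Fintype α] [Fintype β] [Fintype γ] (G : α → β → γ → ℝ) :
    𝔼 b, 𝔼 c, 𝔼 a, G a b c = 𝔼 a, 𝔼 b, 𝔼 c, G a b c := by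
  rw [ex_comm fun a b => 𝔼 c, G a b c]
  exact expect_congr rfl fun b _ => ex_comm _

theorem hc_log_ind (p : Prop) : Real.log (ind p) = 0 := by
  by_cases h : p
  · rw [ind_of h, Real.log_one]
  · rw [ind_of_not h, Real.log_zero]

theorem hc_tauY {X : Type} [DecidableEq X] (a : X) (c : Bool) (l : X → Bool) : 0 ≤ tauY a c l := by
  unfold tauY
  split_ifs <;> norm_num

/-- One row: from a conditioned distribution in dense cells to a large value. -/
theorem row_val {ev : U → Q → V} {η : ℝ} (hη : 0 < η) (x : Fin n → Fin s × Q)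
    (t : (Fin n → Ob s Q) → Fin n → Bool) (ht : Adapted t)
    {R : (Fin n → Fin s × Q) → (Fin n → Fin s × Q → Bool) → Prop}
    (m : (Fin n → Fin s → Q) → (Fin n → Fin s × Q → Bool) → ℝ) (hm0 : ∀ l y, 0 ≤ m l y)
    (hm1 : 𝔼 l, 𝔼 y, m l y = 1) (hmR : ∀ l y, m l y ≠ 0 → R x y) {w₀ β₀ : ℝ} (hw : 0 < w₀)
    (hw1 : w₀ ≤ 1) (hβ : 0 ≤ β₀)
    (hF : ∀ F : (Fin n → Fin s → Q) → (Fin n → Fin s → U) → (Fin n → Fin s × Q → Bool) → ℝ,
      (∀ l u y y', Same ev u (lab ev l u) y y' → F l u y = F l u y') →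
      𝔼 l, 𝔼 y, 𝔼 u, m l y * F l u y ≤
        Real.log (𝔼 l, 𝔼 y, 𝔼 u, den x t l y * Real.exp (F l u y)) - η * Real.log w₀)
    (hbad : 𝔼 l, 𝔼 y, 𝔼 u, m l y * ind (theta ev R u (lab ev l u) y < β₀) ≤ 1 / 2) :
    β₀ * (w₀ ^ (2 * η) * Real.exp (-2)) ≤ val x t fun y => ind (R x y) := by
  obtain ⟨B, hB⟩ : ∃ B : (Fin n → Fin s → Q) → (Fin n → Fin s → U) →
      (Fin n → Fin s × Q → Bool) → ℝ,
      B = fun l u y => 𝔼 y', ind (R x (mix ev u (lab ev l u) y y')) := ⟨_, rfl⟩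
  obtain ⟨c, hc⟩ : ∃ c, c = 2 - 2 * η * Real.log w₀ := ⟨_, rfl⟩
  have c0 : 0 ≤ c := by nlinarith [Real.log_nonpos hw.le hw1]
  have h1 := hF (fun l u y => c * ind (β₀ ≤ B l u y)) fun l u y y' h => by
    simp only [hB, mix_of_same h]
  have h2 : ∀ l u y, c * m l y - c * (m l y * ind (theta ev R u (lab ev l u) y < β₀)) ≤
      m l y * (c * ind (β₀ ≤ B l u y)) := fun l u y => by
    by_cases h : m l y = 0
    · simp [h]
    have h3 : theta ev R u (lab ev l u) y ≤ B l u y := by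
      rw [hB]
      exact ex_mono fun y' => ind_mono fun h4 => h4 x (hmR l y h)
    have h4 := mul_nonneg c0 (hm0 l y)
    by_cases h5 : β₀ ≤ B l u y
    · rw [ind_of h5]
      nlinarith [ind_nonneg (theta ev R u (lab ev l u) y < β₀)]
    · rw [ind_of_not h5, ind_of (h3.trans_lt (not_le.1 h5))]
      simp
  have h3 := ex_mono fun l => ex_mono fun y => ex_mono fun u => h2 l u y
  simp only [expect_sub_distrib, ← mul_expect, ex_const, hm1] at h3
  obtain ⟨P, hP⟩ : ∃ P, P = 𝔼 l, 𝔼 y, 𝔼 u, den x t l y * ind (β₀ ≤ B l u y) := ⟨_, rfl⟩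
  have h4 : 𝔼 l, 𝔼 y, 𝔼 u, den x t l y * Real.exp (c * ind (β₀ ≤ B l u y)) ≤
      1 + Real.exp c * P := by
    have h5 : ∀ l u y, den x t l y * Real.exp (c * ind (β₀ ≤ B l u y)) ≤
        den x t l y + Real.exp c * (den x t l y * ind (β₀ ≤ B l u y)) := fun l u y => by
      have h6 := den_nonneg x t l y
      by_cases h5 : β₀ ≤ B l u y
      · rw [ind_of h5, mul_one, mul_one]
        linarith
      · simp [ind_of_not h5]
    refine (ex_mono fun l => ex_mono fun y => ex_mono fun u => h5 l u y).trans_eq ?_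
    simp only [expect_add_distrib, ex_const, ex_den x ht]
    rw [hP]
    simp only [mul_expect]
  have h5 : 0 ≤ 𝔼 l, 𝔼 y, 𝔼 u, den x t l y * Real.exp (c * ind (β₀ ≤ B l u y)) :=
    ex_nonneg fun l => ex_nonneg fun y => ex_nonneg fun u =>
      mul_nonneg (den_nonneg x t l y) (Real.exp_pos _).le
  simp only [← mul_expect] at hbad h1
  have h6 := mul_le_mul_of_nonneg_left hbad c0
  simp only [mul_expect] at h1 h3 h6
  generalize 𝔼 l, 𝔼 y, 𝔼 u, den x t l y * Real.exp (c * ind (β₀ ≤ B l u y)) = X at h1 h4 h5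
  have h7 : 1 ≤ Real.log X := by linarith
  have h8 : 1 ≤ Real.exp c * P := by
    rcases h5.eq_or_lt with h | h
    · rw [← h, Real.log_zero] at h7
      linarith
    · linarith [Real.log_le_sub_one_of_pos h]
  have h9 : w₀ ^ (2 * η) * Real.exp (-2) ≤ P := by
    rw [Real.rpow_def_of_pos hw, ← Real.exp_add, show Real.log w₀ * (2 * η) + -2 = -c by
      rw [hc]; ring, Real.exp_neg, inv_le_iff_one_le_mul₀' (Real.exp_pos c)]
    exact h8
  refine (mul_le_mul_of_nonneg_left h9 hβ).trans ?_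
  rw [hP, val, mul_expect]
  refine ex_mono fun l => ?_
  rw [ex_comm, mul_expect]
  refine ex_le fun u => ?_
  rw [ex_mix ev u (lab ev l u) (fun y1 y => den x t l y1 * ind (R x y)) fun y1 y2 y h => by
    simp only [den, obs_of_same h], mul_expect]
  refine ex_mono fun y => ?_
  rw [← mul_expect, mul_left_comm]
  refine mul_le_mul_of_nonneg_left ?_ (den_nonneg x t l y)
  by_cases h : β₀ ≤ B l u y
  · rw [ind_of h, mul_one]
    simpa only [hB] using h
  · rw [ind_of_not h, mul_zero]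
    exact ex_nonneg fun _ => ind_nonneg _

theorem hcore {ev : U → Q → V} {η : ℝ} {k : ℕ} (hD : IsDesign ev η k) (hη : 0 < η)
    {R : (Fin n → Fin s × Q) → (Fin n → Fin s × Q → Bool) → Prop} (hR : Tri R) (ρ : PA n)
    (t : (Fin n → Fin s × Q) → (Fin n → Ob s Q) → Fin n → Bool) (ht : ∀ x, Adapted (t x))
    (hρ : ∀ x, Resp (t x) ρ) (A : (Fin n → Fin s × Q) → Prop)
    (N : (Fin n → Fin s × Q → Bool) → Prop) {φ₂ q₀ w₀ a : ℝ} (hw : 0 < w₀) (hq : 0 < q₀)
    (ha0 : 0 ≤ a) (hval : ∀ x, A x → val x (t x) (fun y => ind (R x y)) ≤ φ₂)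
    (hQ : ∀ y, N y → 𝔼 x, ind (A x) * ind (R x y) * 𝔼 l, den x (t x) l y ≤ q₀)
    (hwv : 2 * w₀ ≤ 𝔼 x, ind (A x) * wv tauY n ρ x (fun y => ind (N y ∧ R x y)))
    (ha : 2 ^ n / w₀ * (2 * Real.exp (-a / 4)) ^ k ≤ 1 / 8) :
    Real.exp (-a) * w₀ / (8 * q₀) * (w₀ ^ (2 * η) * Real.exp (-2)) ≤ φ₂ := by
  obtain ⟨w, hw'⟩ : ∃ w : (Fin n → Fin s × Q) → ℝ,
      w = fun x => wv tauY n ρ x (fun y => ind (N y ∧ R x y)) := ⟨_, rfl⟩
  have w0 : ∀ x, 0 ≤ w x := fun x => hw' ▸ wv_nonneg hc_tauY ρ x fun _ => ind_nonneg _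
  have w1 : ∀ x, w x ≤ 1 := fun x =>
    hw' ▸ wv_le_const hc_tauY ex_tauY_one ρ x fun _ => ind_le_one _
  replace hwv : 2 * w₀ ≤ 𝔼 x, ind (A x) * w x := hw' ▸ hwv
  have hm : ∀ x, ∃ m : (Fin n → Fin s → Q) → (Fin n → Fin s × Q → Bool) → ℝ,
      (∀ l y, 0 ≤ m l y) ∧ (∀ l y, m l y * w x ≤ den x (t x) l y * ind (N y ∧ R x y)) ∧
      (0 < w x → 𝔼 l, 𝔼 y, m l y = 1 ∧
        ∀ F : (Fin n → Fin s → Q) → (Fin n → Fin s → U) → (Fin n → Fin s × Q → Bool) → ℝ,
        (∀ l u y y', Same ev u (lab ev l u) y y' → F l u y = F l u y') →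
        𝔼 l, 𝔼 y, 𝔼 u, m l y * F l u y ≤
          Real.log (𝔼 l, 𝔼 y, 𝔼 u, den x (t x) l y * Real.exp (F l u y)) -
            η * Real.log (w x)) := fun x => by
    by_cases h : 0 < w x
    · subst hw'
      obtain ⟨m, a1, a2, a3, a4⟩ := exist hD hη x ρ (t x) (ht x) (hρ x) _
        (fun _ => ind_nonneg _) h
      refine ⟨m, a1, a3, fun _ => ⟨a2, fun F hF => ?_⟩⟩
      simpa only [hc_log_ind, mul_zero, sub_zero] using a4 F hF
    · exact ⟨fun _ _ => 0, fun _ _ => le_rfl, fun l y => by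
        rw [zero_mul]
        exact mul_nonneg (den_nonneg _ _ _ _) (ind_nonneg _), fun h' => absurd h' h⟩
  choose m m0 m1 m2 using hm
  obtain ⟨g, hg⟩ : ∃ g : (Fin n → Fin s × Q) → ℝ,
      g = fun x => ind (A x ∧ w₀ ≤ w x) * w x := ⟨_, rfl⟩
  have g0 : ∀ x, 0 ≤ g x := fun x => hg ▸ mul_nonneg (ind_nonneg _) (w0 x)
  have g1 : ∀ x, g x ≠ 0 → A x ∧ w₀ ≤ w x := fun x h => by_contra fun h' =>
    h (by simp only [hg, ind_of_not h', zero_mul])
  have hw1 : w₀ ≤ 1 := by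
    have := ex_le (c := 1) fun x => mul_le_one₀ (ind_le_one (A x)) (w0 x) (w1 x)
    linarith
  obtain ⟨Z, hZ⟩ : ∃ Z, Z = 𝔼 x, g x := ⟨_, rfl⟩
  have Z1 : w₀ ≤ Z := by
    have h1 : ∀ x, ind (A x) * w x ≤ g x + w₀ := fun x => by
      by_cases h : w₀ ≤ w x
      · simp only [hg, h, and_true]
        linarith
      · nlinarith [g0 x, ind_le_one (A x), ind_nonneg (A x), w0 x]
    have h2 := ex_mono h1
    rw [expect_add_distrib, ex_const, ← hZ] at h2
    linarith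
  have Z0 : 0 < Z := hw.trans_le Z1
  have g2 : ∀ x l y, g x * m x l y ≤ ind (A x) * (den x (t x) l y * ind (N y ∧ R x y)) :=
    fun x l y => by
      simp only [hg]
      rw [mul_assoc, mul_comm (w x)]
      exact mul_le_mul (ind_mono And.left) (m1 x l y) (mul_nonneg (m0 x l y) (w0 x)) (ind_nonneg _)
  have hβ : 0 ≤ Real.exp (-a) * w₀ / (8 * q₀) := by positivity
  have h1 := mass hD (fun l y => (𝔼 x, g x * m x l y) / Z)
    (fun l y => div_nonneg (ex_nonneg fun x => mul_nonneg (g0 x) (m0 x l y)) Z0.le)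
    (by
      simp only [← expect_div]
      rw [hc_swap, div_eq_one_iff_eq Z0.ne', hZ]
      refine expect_congr rfl fun x _ => ?_
      simp only [← mul_expect]
      by_cases h : g x = 0
      · rw [h, zero_mul]
      · rw [(m2 x (hw.trans_le (g1 x h).2)).1, mul_one])
    (Λ₁ := q₀ / w₀) (Λ₂ := 2 ^ n / w₀) (β₀ := Real.exp (-a) * w₀ / (8 * q₀)) (a := a)
    (fun y => by
      rw [← expect_div]
      refine div_le_div₀ hq.le ((ex_mono fun l => ex_mono fun x => g2 x l y).trans ?_) hw Z1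
      by_cases h : N y
      · rw [ex_comm]
        refine le_of_eq_of_le (expect_congr rfl fun x _ => ?_) (hQ y h)
        simp only [h, true_and, mul_expect]
        exact expect_congr rfl fun l _ => by ring
      · simp [h, ind_of_not not_false, hq.le])
    (fun l y => div_le_div₀ (by positivity) ((ex_mono fun x => (g2 x l y).trans
      ((mul_le_of_le_one_left (mul_nonneg (den_nonneg _ _ _ _) (ind_nonneg _)) (ind_le_one _)).trans
        (mul_le_of_le_one_right (den_nonneg _ _ _ _) (ind_le_one _)))).trans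
      (ex_den_left t l y)) hw Z1)
    (fun u v y => theta ev R u v y < Real.exp (-a) * w₀ / (8 * q₀))
    (fun u v => theta_small ev hR u v hβ) ha0
    (by rw [Real.exp_neg]; exact le_of_eq (by field_simp)) ha
  obtain ⟨x, hx, h2⟩ := exists_le_of_ex (f := fun x => 𝔼 l, 𝔼 y, 𝔼 u, m x l y *
      ind (theta ev R u (lab ev l u) y < Real.exp (-a) * w₀ / (8 * q₀))) g0 (hZ ▸ Z0)
      (c := 1 / 2) (by
    rw [← hZ, ← div_le_iff₀ Z0]
    refine le_of_eq_of_le ?_ h1
    simp only [← mul_expect, div_mul_eq_mul_div, ← expect_div]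
    simp only [expect_mul]
    rw [hc_swap]
    simp only [mul_expect, mul_assoc])
  obtain ⟨hA, h3⟩ := g1 x hx.ne'
  have h4 := hw.trans_le h3
  refine (row_val hη x (t x) (ht x) (m x) (m0 x) (m2 x h4).1 (fun l y h => ?_) hw hw1 hβ
    (fun F hF => ((m2 x h4).2 F hF).trans ?_) h2).trans (hval x hA)
  · by_contra h5
    have h6 := m1 x l y
    rw [ind_of_not fun h7 => h5 h7.2, mul_zero] at h6
    exact absurd h6 (not_le.2 (mul_pos ((m0 x l y).lt_of_ne' h) h4))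
  · exact sub_le_sub_left (mul_le_mul_of_nonneg_left (Real.log_le_log hw h3) hη.le) _

end Pool.Agent.Lib.MP_8a52c3_lc.Mono
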