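import Pool.Agent.Lib.MP_8a52c3_lc.Mono.Basic

/-! The weighted inequality behind the expansion of the Margulis graphs. -/

open Finset
open scoped BigOperators

namespace Pool.Agent.Lib.MP_8a52c3_lc.Mono

/-- The weight attached to a pair of sizes. -/
noncomputable def mwG (a b : ℕ) : ℝ := if b < a then 5 / 4 else if a < b then 4 / 5 else 1

/-- The size of a point. -/
def mwN {q : ℕ} (k : ZMod q × ZMod q) : ℕ := k.1.valMinAbs.natAbs + k.2.valMinAbs.natAbs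

lemma mwG_le (a b : ℕ) : mwG a b ≤ 5 / 4 := by
  unfold mwG
  split_ifs <;> norm_num

lemma mw_two_mul (a b : ℕ) (u v : ℝ) : 2 * (u * v) ≤ mwG a b * u ^ 2 + mwG b a * v ^ 2 := by
  unfold mwG
  have h1 := sq_nonneg (u - v)
  have h2 := sq_nonneg (5 * u - 4 * v)
  have h3 := sq_nonneg (4 * u - 5 * v)
  split_ifs <;> first | omega | nlinarith

lemma mw_sum {A : Type*} [Fintype A] (T : A ≃ A) (g : A → ℝ) (ν : A → ℕ) :
    2 * ∑ k, g k ^ 2 - ∑ k, (mwG (ν k) (ν (T k)) + mwG (ν k) (ν (T.symm k))) * g k ^ 2 ≤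
      ∑ k, (g k - g (T k)) ^ 2 := by
  have h1 : ∑ k, g (T k) ^ 2 = ∑ k, g k ^ 2 := T.sum_comp fun k => g k ^ 2
  have h2 : ∑ k, mwG (ν (T k)) (ν k) * g (T k) ^ 2 = ∑ k, mwG (ν k) (ν (T.symm k)) * g k ^ 2 := by
    rw [← T.sum_comp fun k => mwG (ν k) (ν (T.symm k)) * g k ^ 2]
    simp only [Equiv.symm_apply_apply]
  have h3 : ∑ k, (g k ^ 2 + g (T k) ^ 2 - (mwG (ν k) (ν (T k)) * g k ^ 2 +
      mwG (ν (T k)) (ν k) * g (T k) ^ 2)) ≤ ∑ k, (g k - g (T k)) ^ 2 :=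
    sum_le_sum fun k _ => by nlinarith [mw_two_mul (ν k) (ν (T k)) (g k) (g (T k))]
  simp only [sum_sub_distrib, sum_add_distrib, add_mul] at h3 ⊢
  linarith

lemma mw_val {q : ℕ} [NeZero q] (a b : ZMod q) (ha : 6 * a.valMinAbs.natAbs < q)
    (hb : 6 * b.valMinAbs.natAbs < q) :
    (a + 2 * b).valMinAbs = a.valMinAbs + 2 * b.valMinAbs ∧
      (a - 2 * b).valMinAbs = a.valMinAbs - 2 * b.valMinAbs := by
  constructor <;> rw [ZMod.valMinAbs_spec] <;> refine ⟨by simp, ?_, ?_⟩ <;> omega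

lemma mw_near (x y : ℤ) (h : x ≠ 0 ∨ y ≠ 0) :
    mwG (x.natAbs + y.natAbs) ((x + 2 * y).natAbs + y.natAbs) +
      mwG (x.natAbs + y.natAbs) ((x - 2 * y).natAbs + y.natAbs) +
      (mwG (x.natAbs + y.natAbs) (x.natAbs + (y + 2 * x).natAbs) +
        mwG (x.natAbs + y.natAbs) (x.natAbs + (y - 2 * x).natAbs)) ≤ 73 / 20 := by
  unfold mwG
  split_ifs <;> first | omega | norm_num

/-- Fourier side: `g` vanishes at `0`. The last sum is over points far from `0`. -/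
theorem marg_weight (q : ℕ) [NeZero q] (g : ZMod q × ZMod q → ℝ) (h0 : g 0 = 0) :
    7 / 20 * ∑ k, g k ^ 2 ≤ ∑ k, (g k - g (k.1 + 2 * k.2, k.2)) ^ 2 +
      ∑ k, (g k - g (k.1, k.2 + 2 * k.1)) ^ 2 +
      27 / 20 * ∑ k : ZMod q × ZMod q,
        ind (q ≤ 6 * k.1.valMinAbs.natAbs ∨ q ≤ 6 * k.2.valMinAbs.natAbs) * g k ^ 2 := by
  let T1 : ZMod q × ZMod q ≃ ZMod q × ZMod q :=
    ⟨fun k => (k.1 + 2 * k.2, k.2), fun k => (k.1 - 2 * k.2, k.2), fun k => by simp,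
      fun k => by simp⟩
  let T2 : ZMod q × ZMod q ≃ ZMod q × ZMod q :=
    ⟨fun k => (k.1, k.2 + 2 * k.1), fun k => (k.1, k.2 - 2 * k.1), fun k => by simp,
      fun k => by simp⟩
  have h1 := mw_sum T1 g mwN
  have h2 := mw_sum T2 g mwN
  have h3 : ∑ k, ((mwG (mwN k) (mwN (T1 k)) + mwG (mwN k) (mwN (T1.symm k))) * g k ^ 2 +
      (mwG (mwN k) (mwN (T2 k)) + mwG (mwN k) (mwN (T2.symm k))) * g k ^ 2) ≤
      ∑ k : ZMod q × ZMod q, (73 / 20 * g k ^ 2 + 27 / 20 *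
        (ind (q ≤ 6 * k.1.valMinAbs.natAbs ∨ q ≤ 6 * k.2.valMinAbs.natAbs) * g k ^ 2)) := by
    refine sum_le_sum fun k _ => ?_
    rw [← add_mul, ← mul_assoc, ← add_mul]
    by_cases hk : k = 0
    · simp [hk, h0]
    refine mul_le_mul_of_nonneg_right ?_ (sq_nonneg _)
    by_cases h : q ≤ 6 * k.1.valMinAbs.natAbs ∨ q ≤ 6 * k.2.valMinAbs.natAbs
    · have : ind (q ≤ 6 * k.1.valMinAbs.natAbs ∨ q ≤ 6 * k.2.valMinAbs.natAbs) = 1 := by
        simp [ind, h]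
      linarith [mwG_le (mwN k) (mwN (T1 k)), mwG_le (mwN k) (mwN (T1.symm k)),
        mwG_le (mwN k) (mwN (T2 k)), mwG_le (mwN k) (mwN (T2.symm k))]
    · have e : ind (q ≤ 6 * k.1.valMinAbs.natAbs ∨ q ≤ 6 * k.2.valMinAbs.natAbs) = 0 := by
        simp [ind, h]
      rw [not_or, not_le, not_le] at h
      have := mw_near k.1.valMinAbs k.2.valMinAbs (by
        by_contra! h4
        exact hk (Prod.ext (ZMod.valMinAbs_eq_zero _ |>.1 h4.1) (ZMod.valMinAbs_eq_zero _ |>.1 h4.2)))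
      rw [← (mw_val _ _ h.1 h.2).1, ← (mw_val _ _ h.1 h.2).2, ← (mw_val _ _ h.2 h.1).1,
        ← (mw_val _ _ h.2 h.1).2] at this
      rw [e, mul_zero, add_zero]
      exact this
  rw [sum_add_distrib, sum_add_distrib, ← mul_sum, ← mul_sum] at h3
  change _ ≤ ∑ k, (g k - g (T1 k)) ^ 2 + ∑ k, (g k - g (T2 k)) ^ 2 + _
  linarith

end Pool.Agent.Lib.MP_8a52c3_lc.Mono
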