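import Pool.Agent.Lib.MP_8a52c3_lc.Mono.MargW

/-! Expansion of the Margulis graphs. -/

open Finset
open scoped BigOperators

namespace Pool.Agent.Lib.MP_8a52c3_lc.Mono

theorem mg_bij (q : ℕ) (i : Fin 4) : Function.Bijective (mg q i) := by
  rw [Function.bijective_iff_has_inverse]
  fin_cases i
  · exact ⟨fun v => (v.1 - 2 * v.2, v.2), fun v => by simp [mg], fun v => by simp [mg]⟩
  · exact ⟨fun v => (v.1, v.2 - 2 * v.1), fun v => by simp [mg], fun v => by simp [mg]⟩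
  · exact ⟨fun v => (v.1 - 1, v.2), fun v => by simp [mg], fun v => by simp [mg]⟩
  · exact ⟨fun v => (v.1, v.2 - 1), fun v => by simp [mg], fun v => by simp [mg]⟩

/-- The Fourier transform on the square of the cyclic group. -/
noncomputable def mgF {q : ℕ} [NeZero q] (f : ZMod q × ZMod q → ℝ) (k : ZMod q × ZMod q) : ℂ :=
  ∑ z : ZMod q × ZMod q, (f z : ℂ) * ZMod.stdAddChar (k.1 * z.1 + k.2 * z.2)

theorem mgA_orth {q : ℕ} [NeZero q] (z w : ZMod q × ZMod q) :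
    ∑ k : ZMod q × ZMod q, (ZMod.stdAddChar (k.1 * z.1 + k.2 * z.2) : ℂ) *
      (starRingEnd ℂ) (ZMod.stdAddChar (k.1 * w.1 + k.2 * w.2)) =
        if z = w then (q : ℂ) ^ 2 else 0 := by
  have h1 : ∀ k : ZMod q × ZMod q, (ZMod.stdAddChar (k.1 * z.1 + k.2 * z.2) : ℂ) *
      (starRingEnd ℂ) (ZMod.stdAddChar (k.1 * w.1 + k.2 * w.2)) =
        ZMod.stdAddChar (k.1 * (z.1 - w.1)) * ZMod.stdAddChar (k.2 * (z.2 - w.2)) := by
    intro k
    rw [← AddChar.map_neg_eq_conj, ← AddChar.map_add_eq_mul, ← AddChar.map_add_eq_mul]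
    congr 1
    ring
  simp only [h1]
  rw [Fintype.sum_prod_type]
  simp only
  rw [← Finset.sum_mul_sum, AddChar.sum_mulShift _ (ZMod.isPrimitive_stdAddChar q),
    AddChar.sum_mulShift _ (ZMod.isPrimitive_stdAddChar q), ZMod.card]
  by_cases ha : z.1 = w.1 <;> by_cases hb : z.2 = w.2 <;> simp [ha, hb, sub_eq_zero, Prod.ext_iff, sq]

theorem mgA_parseval {q : ℕ} [NeZero q] (f : ZMod q × ZMod q → ℝ) :
    ∑ k, ‖mgF f k‖ ^ 2 = (q : ℝ) ^ 2 * ∑ z, f z ^ 2 := by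
  have h1 : ∀ k, ((‖mgF f k‖ ^ 2 : ℝ) : ℂ) = ∑ z : ZMod q × ZMod q, ∑ w : ZMod q × ZMod q,
      (f z : ℂ) * f w * ((ZMod.stdAddChar (k.1 * z.1 + k.2 * z.2) : ℂ) *
        (starRingEnd ℂ) (ZMod.stdAddChar (k.1 * w.1 + k.2 * w.2))) := by
    intro k
    rw [Complex.ofReal_pow, ← Complex.mul_conj', mgF, map_sum, Finset.sum_mul_sum]
    refine Finset.sum_congr rfl fun z _ => Finset.sum_congr rfl fun w _ => ?_
    rw [map_mul, Complex.conj_ofReal]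
    ring
  apply Complex.ofReal_injective
  rw [Complex.ofReal_sum]
  simp only [h1]
  rw [Finset.sum_comm]
  have h2 : ∀ z : ZMod q × ZMod q, ∑ k : ZMod q × ZMod q, ∑ w : ZMod q × ZMod q,
      (f z : ℂ) * f w * ((ZMod.stdAddChar (k.1 * z.1 + k.2 * z.2) : ℂ) *
        (starRingEnd ℂ) (ZMod.stdAddChar (k.1 * w.1 + k.2 * w.2))) = (q : ℂ) ^ 2 * f z ^ 2 := by
    intro z
    rw [Finset.sum_comm]
    simp only [← Finset.mul_sum, mgA_orth, mul_ite, mul_zero, Finset.sum_ite_eq, Finset.mem_univ,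
      if_true]
    ring
  simp only [h2]
  push_cast
  rw [Finset.mul_sum]

theorem mgA_sub {q : ℕ} [NeZero q] (f g : ZMod q × ZMod q → ℝ) (k : ZMod q × ZMod q) :
    mgF (fun v => f v - g v) k = mgF f k - mgF g k := by
  simp only [mgF, Complex.ofReal_sub, sub_mul, Finset.sum_sub_distrib]

theorem mgA_zero {q : ℕ} [NeZero q] (f : ZMod q × ZMod q → ℝ) (k : ZMod q × ZMod q) :
    mgF (fun v => f (mg q 0 v)) (mg q 1 k) = mgF f k := by
  refine Eq.trans (Finset.sum_congr rfl fun z _ => ?_) ((mg_bij q 0).sum_comp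
    (fun z => (f z : ℂ) * ZMod.stdAddChar (k.1 * z.1 + k.2 * z.2)))
  congr 2
  simp only [mg, Matrix.cons_val_zero, Matrix.cons_val_one]
  ring

theorem mgA_one {q : ℕ} [NeZero q] (f : ZMod q × ZMod q → ℝ) (k : ZMod q × ZMod q) :
    mgF (fun v => f (mg q 1 v)) (mg q 0 k) = mgF f k := by
  refine Eq.trans (Finset.sum_congr rfl fun z _ => ?_) ((mg_bij q 1).sum_comp
    (fun z => (f z : ℂ) * ZMod.stdAddChar (k.1 * z.1 + k.2 * z.2)))
  congr 2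
  simp only [mg, Matrix.cons_val_zero, Matrix.cons_val_one]
  ring

theorem mgA_two {q : ℕ} [NeZero q] (f : ZMod q × ZMod q → ℝ) (k : ZMod q × ZMod q) :
    mgF f k = ZMod.stdAddChar k.1 * mgF (fun v => f (mg q 2 v)) k := by
  rw [mgF, mgF, Finset.mul_sum, ← (mg_bij q 2).sum_comp]
  refine Finset.sum_congr rfl fun z _ => ?_
  rw [mul_left_comm, ← AddChar.map_add_eq_mul]
  congr 2
  simp only [mg, Matrix.cons_val]
  ring

theorem mgA_three {q : ℕ} [NeZero q] (f : ZMod q × ZMod q → ℝ) (k : ZMod q × ZMod q) :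
    mgF f k = ZMod.stdAddChar k.2 * mgF (fun v => f (mg q 3 v)) k := by
  rw [mgF, mgF, Finset.mul_sum, ← (mg_bij q 3).sum_comp]
  refine Finset.sum_congr rfl fun z _ => ?_
  rw [mul_left_comm, ← AddChar.map_add_eq_mul]
  congr 2
  simp only [mg, Matrix.cons_val]
  ring

theorem mgA_char {q : ℕ} [NeZero q] (x : ZMod q) :
    (ZMod.stdAddChar x : ℂ) =
      Complex.exp ((2 * Real.pi * (x.valMinAbs : ℝ) / q : ℝ) * Complex.I) := by
  conv_lhs => rw [← ZMod.coe_valMinAbs x, ZMod.stdAddChar_coe]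
  congr 1
  push_cast
  ring

theorem mgA_norm {q : ℕ} [NeZero q] (x : ZMod q) : ‖(ZMod.stdAddChar x : ℂ)‖ = 1 := by
  rw [mgA_char, Complex.norm_exp_ofReal_mul_I]

theorem mgA_far {q : ℕ} [NeZero q] (x : ZMod q) :
    ind (q ≤ 6 * x.valMinAbs.natAbs) ≤ ‖(ZMod.stdAddChar x : ℂ) - 1‖ ^ 2 := by
  by_cases h : q ≤ 6 * x.valMinAbs.natAbs
  swap
  · rw [ind_of_not h]
    positivity
  rw [ind_of h, mgA_char]
  have hq : (0 : ℝ) < q := Nat.cast_pos.2 (Nat.pos_of_ne_zero (NeZero.ne q))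
  have h2 : 2 * x.valMinAbs.natAbs ≤ q := by
    have := ZMod.natAbs_valMinAbs_le x
    omega
  have ha : |(x.valMinAbs : ℝ)| = (x.valMinAbs.natAbs : ℝ) := by
    rw [← Int.cast_abs, Int.abs_eq_natAbs, Int.cast_natCast]
  have h' : (q : ℝ) ≤ 6 * (x.valMinAbs.natAbs : ℝ) := by exact_mod_cast h
  have h2' : 2 * (x.valMinAbs.natAbs : ℝ) ≤ q := by exact_mod_cast h2
  set θ : ℝ := 2 * Real.pi * (x.valMinAbs : ℝ) / q with hθ
  have hθa : |θ| = 2 * Real.pi * (x.valMinAbs.natAbs : ℝ) / q := by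
    rw [hθ, abs_div, abs_mul, ha, abs_of_pos hq, abs_of_pos (by positivity)]
  have hcos : Real.cos θ ≤ 1 / 2 := by
    rw [← Real.cos_abs, ← Real.cos_pi_div_three]
    refine Real.cos_le_cos_of_nonneg_of_le_pi (by positivity) ?_ ?_
    · rw [hθa, div_le_iff₀ hq]
      nlinarith [Real.pi_pos]
    · rw [hθa, le_div_iff₀ hq]
      nlinarith [Real.pi_pos]
  rw [Complex.sq_norm, Complex.normSq_apply]
  simp only [Complex.sub_re, Complex.sub_im, Complex.exp_ofReal_mul_I_re,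
    Complex.exp_ofReal_mul_I_im, Complex.one_re, Complex.one_im, sub_zero]
  nlinarith [Real.sin_sq_add_cos_sq θ]

theorem mgA_shift {a b c : ℂ} {t : ℝ} (h : a = c * b) (hc : ‖c‖ = 1) (ht : t ≤ ‖c - 1‖ ^ 2) :
    t * ‖a‖ ^ 2 ≤ ‖a - b‖ ^ 2 := by
  have h1 : a - b = (c - 1) * b := by rw [h]; ring
  rw [h1, h, norm_mul, norm_mul, hc, one_mul, mul_pow]
  exact mul_le_mul_of_nonneg_right ht (sq_nonneg _)

theorem mgA_normsub (a b : ℂ) : (‖a‖ - ‖b‖) ^ 2 ≤ ‖b - a‖ ^ 2 := by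
  rw [norm_sub_rev, ← sq_abs]
  exact pow_le_pow_left₀ (abs_nonneg _) (abs_norm_sub_norm_le a b) 2

theorem marg_gap (q : ℕ) [NeZero q] (f : ZMod q × ZMod q → ℝ) (h0 : ∑ v, f v = 0) :
    7 / 27 * ∑ v, f v ^ 2 ≤ ∑ i : Fin 4, ∑ v, (f v - f (mg q i v)) ^ 2 := by
  have hq : (0 : ℝ) < (q : ℝ) ^ 2 :=
    pow_pos (Nat.cast_pos.2 (Nat.pos_of_ne_zero (NeZero.ne q))) 2
  have hg0 : ‖mgF f 0‖ = 0 := by
    rw [norm_eq_zero, mgF]
    simp only [Prod.fst_zero, Prod.snd_zero, zero_mul, add_zero, AddChar.map_zero_eq_one, mul_one]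
    exact_mod_cast h0
  have hw := marg_weight q (fun k => ‖mgF f k‖) hg0
  have hP : ∀ i, ∑ k, ‖mgF f k - mgF (fun v => f (mg q i v)) k‖ ^ 2 =
      (q : ℝ) ^ 2 * ∑ v, (f v - f (mg q i v)) ^ 2 := fun i => by
    rw [← mgA_parseval]
    simp only [mgA_sub]
  have e0 : ∑ k, (‖mgF f k‖ - ‖mgF f (k.1, k.2 + 2 * k.1)‖) ^ 2 ≤
      (q : ℝ) ^ 2 * ∑ v, (f v - f (mg q 0 v)) ^ 2 := by
    rw [← hP, ← (mg_bij q 1).sum_comp
      (fun k => ‖mgF f k - mgF (fun v => f (mg q 0 v)) k‖ ^ 2)]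
    refine Finset.sum_le_sum fun k _ => ?_
    rw [mgA_zero]
    exact mgA_normsub _ _
  have e1 : ∑ k, (‖mgF f k‖ - ‖mgF f (k.1 + 2 * k.2, k.2)‖) ^ 2 ≤
      (q : ℝ) ^ 2 * ∑ v, (f v - f (mg q 1 v)) ^ 2 := by
    rw [← hP, ← (mg_bij q 0).sum_comp
      (fun k => ‖mgF f k - mgF (fun v => f (mg q 1 v)) k‖ ^ 2)]
    refine Finset.sum_le_sum fun k _ => ?_
    rw [mgA_one]
    exact mgA_normsub _ _
  have e2 : ∑ k : ZMod q × ZMod q,
      ind (q ≤ 6 * k.1.valMinAbs.natAbs ∨ q ≤ 6 * k.2.valMinAbs.natAbs) * ‖mgF f k‖ ^ 2 ≤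
      (q : ℝ) ^ 2 * ∑ v, (f v - f (mg q 2 v)) ^ 2 +
        (q : ℝ) ^ 2 * ∑ v, (f v - f (mg q 3 v)) ^ 2 := by
    rw [← hP, ← hP, ← Finset.sum_add_distrib]
    refine Finset.sum_le_sum fun k _ => ?_
    have a1 := mgA_shift (mgA_two f k) (mgA_norm _) (mgA_far k.1)
    have a2 := mgA_shift (mgA_three f k) (mgA_norm _) (mgA_far k.2)
    have a3 := mul_le_mul_of_nonneg_right
      (ind_or_le (q ≤ 6 * k.1.valMinAbs.natAbs) (q ≤ 6 * k.2.valMinAbs.natAbs))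
      (sq_nonneg ‖mgF f k‖)
    linarith
  have n0 : 0 ≤ (q : ℝ) ^ 2 * ∑ v, (f v - f (mg q 0 v)) ^ 2 := by positivity
  have n1 : 0 ≤ (q : ℝ) ^ 2 * ∑ v, (f v - f (mg q 1 v)) ^ 2 := by positivity
  rw [mgA_parseval] at hw
  refine le_of_mul_le_mul_left ?_ hq
  rw [Fin.sum_univ_four]
  linarith

theorem marg_expand (q : ℕ) [NeZero q] (T : Finset (ZMod q × ZMod q)) (hT : 2 * T.card ≤ q ^ 2) :
    T.card ≤ 8 * (univ.filter fun p : (ZMod q × ZMod q) × Fin 4 =>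
      ¬ (p.1 ∈ T ↔ mg q p.2 p.1 ∈ T)).card := by
  have hq : (0 : ℝ) < (q : ℝ) ^ 2 :=
    pow_pos (Nat.cast_pos.2 (Nat.pos_of_ne_zero (NeZero.ne q))) 2
  have hcard : (Fintype.card (ZMod q × ZMod q) : ℝ) = (q : ℝ) ^ 2 := by
    rw [Fintype.card_prod, ZMod.card]
    push_cast
    ring
  set c : ℝ := (T.card : ℝ) / (q : ℝ) ^ 2 with hc
  have hcq : (q : ℝ) ^ 2 * c = T.card := by rw [hc, mul_div_cancel₀ _ hq.ne']
  have hs : ∑ v : ZMod q × ZMod q, (if v ∈ T then (1 : ℝ) else 0) = T.card := by simp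
  have h := marg_gap q (fun v => (if v ∈ T then (1 : ℝ) else 0) - c) (by
    rw [Finset.sum_sub_distrib, hs, Finset.sum_const, Finset.card_univ, nsmul_eq_mul, hcard, hcq,
      sub_self])
  have h1 : ∑ v : ZMod q × ZMod q, ((if v ∈ T then (1 : ℝ) else 0) - c) ^ 2 =
      T.card - c * T.card := by
    have : ∀ v : ZMod q × ZMod q, ((if v ∈ T then (1 : ℝ) else 0) - c) ^ 2 =
        (1 - 2 * c) * (if v ∈ T then (1 : ℝ) else 0) + c ^ 2 := fun v => by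
      split_ifs <;> ring
    simp only [this]
    rw [Finset.sum_add_distrib, ← Finset.mul_sum, hs, Finset.sum_const, Finset.card_univ,
      nsmul_eq_mul, hcard, ← hcq]
    ring
  have h2 : ((univ.filter fun p : (ZMod q × ZMod q) × Fin 4 =>
      ¬ (p.1 ∈ T ↔ mg q p.2 p.1 ∈ T)).card : ℝ) = ∑ i : Fin 4, ∑ v : ZMod q × ZMod q,
        (((if v ∈ T then (1 : ℝ) else 0) - c) - ((if mg q i v ∈ T then (1 : ℝ) else 0) - c)) ^ 2 := by
    rw [Finset.natCast_card_filter, Fintype.sum_prod_type, Finset.sum_comm]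
    refine Finset.sum_congr rfl fun i _ => Finset.sum_congr rfl fun v _ => ?_
    rw [sub_sub_sub_cancel_right]
    by_cases ha : v ∈ T <;> by_cases hb : mg q i v ∈ T <;> simp [ha, hb]
  have hT' : 2 * (T.card : ℝ) ≤ (q : ℝ) ^ 2 := by exact_mod_cast hT
  have hc2 : c ≤ 1 / 2 := by
    rw [hc, div_le_iff₀ hq]
    linarith
  have h3 : c * T.card ≤ 1 / 2 * T.card := mul_le_mul_of_nonneg_right hc2 (Nat.cast_nonneg _)
  rw [h1, ← h2] at h
  have h4 : (0 : ℝ) ≤ T.card := Nat.cast_nonneg _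
  have h5 : (T.card : ℝ) ≤ 8 * ((univ.filter fun p : (ZMod q × ZMod q) × Fin 4 =>
      ¬ (p.1 ∈ T ↔ mg q p.2 p.1 ∈ T)).card : ℝ) := by linarith
  exact_mod_cast h5

end Pool.Agent.Lib.MP_8a52c3_lc.Mono
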