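import Pool.Agent.Lib.MP_8a52c3_lc.Mono.P1Pot

/-! Upper and lower bounds for the lifted pseudo-expectation. -/

open Finset
open scoped BigOperators

namespace Pool.Agent.Lib.MP_8a52c3_lc.Mono

variable {A L : Type} [Fintype A] [Fintype L] [Nonempty A] [Nonempty L]
  {τ : A → Bool → L → ℝ} {n : ℕ}

theorem none_mem_cons {D r : ℕ} {Λ : ℝ} {σ : (Fin n → Bool) → ℝ} (hσ : IsPseudo n D Λ σ) :
    (fun _ => none) ∈ cons σ r := by
  have h : ∀ z : Fin n → Bool, ind (Agr (fun _ => none) z) = 1 := fun z =>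
    ind_of fun j c hc => by simp at hc
  simp [cons, sz, pe, h, hσ.mean]

theorem card_cons_le (σ : (Fin n → Bool) → ℝ) (r : ℕ) : (cons σ r).card ≤ 3 ^ n :=
  (card_le_univ _).trans_eq (by simp)

theorem p1A_abs {D : ℕ} {Λ : ℝ} {σ : (Fin n → Bool) → ℝ} (hσ : IsPseudo n D Λ σ) (ρ : PA n) :
    -Λ ≤ pe σ ρ ∧ pe σ ρ ≤ Λ := by
  have h : ∀ z, -Λ ≤ σ z * ind (Agr ρ z) ∧ σ z * ind (Agr ρ z) ≤ Λ := fun z => by
    have h1 := abs_le.1 (hσ.bound z)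
    by_cases hz : Agr ρ z
    · rwa [ind_of hz, mul_one]
    · rw [ind_of_not hz, mul_zero]
      constructor <;> linarith [h1.1, h1.2]
  exact ⟨(ex_const (α := Fin n → Bool) (-Λ)).ge.trans (ex_mono fun z => (h z).1),
    ex_le fun z => (h z).2⟩

omit [Nonempty A] in
theorem p1A_ff (σ : (Fin n → Bool) → ℝ) (J : Fin n → Bool) (x : Fin n → A)
    (h : (Fin n → L) → ℝ) : ff τ σ x h = ∑ ρ : PA n, W τ n J ρ x h * pe σ ρ := by
  simp only [ff, pe, W_sum τ J, mul_sum, mul_expect]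
  rw [expect_sum_comm]
  exact sum_congr rfl fun ρ _ => expect_congr rfl fun z _ => by ring

theorem p1 {lam t C Λ : ℝ} {r : ℕ} {σ : (Fin n → Bool) → ℝ} (hτ : IsGad τ lam) (ht : 1 ≤ t)
    (hl : 4 * t ^ 2 * lam ≤ 1) (hσ : IsPseudo n (2 * r) Λ σ) {h : (Fin n → L) → ℝ}
    (h0 : ∀ l, 0 ≤ h l) (hC : ∀ l, h l ≤ C) :
    ∃ e, Small (Λ * 9 ^ n * C / t ^ r) e ∧ ∀ x, -e x ≤ ff τ σ x h ∧
      ff τ σ x h ≤ ∑ ρ ∈ cons σ r, wv τ n ρ x h + e x ∧
      ∀ ρ ∈ cons σ r, wv τ n ρ x h ≤ 2 ^ r * (ff τ σ x h + e x) := by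
  classical
  have hΛ : 0 ≤ Λ := (abs_nonneg _).trans (hσ.bound fun _ => false)
  have ht0 : 0 < t := one_pos.trans_le ht
  have hc : 0 ≤ Λ / t ^ r := by positivity
  have hW := fun J ρ x => W_nonneg hτ.nonneg J ρ x h0
  let N : PA n → (Fin n → A) → ℝ := fun ρ₀ x =>
    ∑ ρ : PA n, t ^ ex n (fun j => (ρ₀ j).isSome) ρ * W τ n (fun j => (ρ₀ j).isSome) ρ x h
  have hN : ∀ ρ₀ x, 0 ≤ N ρ₀ x := fun ρ₀ x =>
    sum_nonneg fun ρ _ => mul_nonneg (by positivity) (hW _ _ _)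
  have hNe : ∀ ρ₀ x, Λ / t ^ r * N ρ₀ x ≤ Λ / t ^ r * ∑ ρ₀, N ρ₀ x := fun ρ₀ x =>
    mul_le_mul_of_nonneg_left (single_le_sum (fun ρ _ => hN ρ x) (mem_univ ρ₀)) hc
  have hbig : ∀ k, r < k → Λ ≤ Λ / t ^ r * t ^ k := fun k hk => by
    rw [div_mul_eq_mul_div, le_div_iff₀ (by positivity)]
    exact mul_le_mul_of_nonneg_left (pow_le_pow_right₀ ht hk.le) hΛ
  have hpos : ∀ ρ : PA n, sz ρ ≤ 2 * r → 0 ≤ pe σ ρ ∧ pe σ ρ ≤ 1 := fun ρ hρ => by
    rcases hσ.dich ρ hρ with h1 | h1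
    · rw [h1]; norm_num
    · exact ⟨le_trans (by positivity) h1.1, h1.2⟩
  have low : ∀ ρ₀ : PA n, sz ρ₀ ≤ r → ∀ x,
      wv τ n ρ₀ x h * pe σ ρ₀ ≤ ff τ σ x h + Λ / t ^ r * ∑ ρ₀, N ρ₀ x := fun ρ₀ hρ₀ x => by
    refine le_trans ?_ (add_le_add_right (hNe ρ₀ x) _)
    rw [p1A_ff σ fun j => (ρ₀ j).isSome, mul_sum, ← sum_add_distrib]
    refine le_trans ?_ (single_le_sum (fun ρ _ => ?_) (mem_univ ρ₀))
    · rw [← W_self]
      exact le_add_of_nonneg_right (mul_nonneg hc (mul_nonneg (by positivity) (hW _ _ _)))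
    · have h1 := hW (fun j => (ρ₀ j).isSome) ρ x
      by_cases hρ : ex n (fun j => (ρ₀ j).isSome) ρ ≤ r
      · have h2 := sz_le_ex ρ₀ ρ
        exact add_nonneg (mul_nonneg h1 (hpos ρ (by omega)).1)
          (mul_nonneg hc (mul_nonneg (by positivity) h1))
      · have h2 := mul_le_mul_of_nonneg_left
          ((neg_le_neg (hbig _ (not_le.1 hρ))).trans (p1A_abs hσ ρ).1) h1
        linarith
  refine ⟨fun x => Λ / t ^ r * ∑ ρ₀, N ρ₀ x, ⟨fun x => mul_nonneg hc (sum_nonneg fun ρ _ => hN ρ x),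
    ?_⟩, fun x => ⟨?_, ?_, fun ρ hρ => ?_⟩⟩
  · rw [← mul_expect, expect_sum_comm]
    have h1 : ∑ ρ₀ : PA n, 𝔼 x, N ρ₀ x ≤ ∑ _ρ₀ : PA n, 3 ^ n * C :=
      sum_le_sum fun ρ₀ _ => pot_le hτ ht hl _ h0 hC
    refine (mul_le_mul_of_nonneg_left h1 hc).trans_eq ?_
    have h2 : (9 : ℝ) ^ n = 3 ^ n * 3 ^ n := by rw [← mul_pow]; norm_num
    simp [h2]
    ring
  · have h1 := low (fun _ => none) (by simp [sz]) x
    have h2 := mul_nonneg (wv_nonneg hτ.nonneg (fun _ => none) x h0)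
      (hpos (fun _ => none) (by simp [sz])).1
    linarith
  · refine le_trans ?_ (add_le_add_right (hNe (fun _ => none) x) _)
    rw [p1A_ff σ fun _ => false, mul_sum, cons, sum_filter, ← sum_add_distrib]
    refine sum_le_sum fun ρ _ => ?_
    simp only [Option.isSome_none, ex_false]
    have h1 := hW (fun _ => false) ρ x
    have h2 := W_le_wv hτ.nonneg (fun _ => false) ρ x h0
    have h3 : 0 ≤ Λ / t ^ r * (t ^ sz ρ * W τ n (fun _ => false) ρ x h) :=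
      mul_nonneg hc (mul_nonneg (by positivity) h1)
    by_cases hρ : sz ρ ≤ r
    · split_ifs with h4
      · have h5 := mul_le_of_le_one_right h1 (hpos ρ (by omega)).2
        linarith
      · rw [not_not.1 (not_and.1 h4 hρ)]
        linarith
    · rw [if_neg fun h4 => hρ h4.1]
      have h5 := mul_le_mul_of_nonneg_left ((p1A_abs hσ ρ).2.trans (hbig _ (not_le.1 hρ))) h1
      linarith
  · obtain ⟨h1, h2⟩ := (mem_filter.1 hρ).2
    have h3 : (1 / 2 : ℝ) ^ r ≤ pe σ ρ :=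
      (pow_le_pow_of_le_one (by norm_num) (by norm_num) h1).trans
        ((hσ.dich ρ (by omega)).resolve_left h2).1
    have h4 := (mul_le_mul_of_nonneg_left h3 (wv_nonneg hτ.nonneg ρ x h0)).trans (low ρ h1 x)
    rwa [one_div, inv_pow, ← div_eq_mul_inv, div_le_iff₀' (by positivity)] at h4

end Pool.Agent.Lib.MP_8a52c3_lc.Mono
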