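import Pool.Agent.Lib.MP_8a52c3_lc.Mono.Wv

/-! The exact conical junta decomposition. -/

open Finset
open scoped BigOperators

namespace Pool.Agent.Lib.MP_8a52c3_lc.Mono

variable {A L : Type} [Fintype A] [Fintype L] [Nonempty L]

/-- One step of the decomposition: `f` says whether block `0` is forced, `o` is the branch. -/
noncomputable def br {n : ℕ} (τ : A → Bool → L → ℝ) (f : Bool) (o : Option Bool) (a : A)
    (h : (Fin (n + 1) → L) → ℝ) : (Fin n → L) → ℝ :=
  fun l' => if f then o.elim 0 (fun c => Tr τ a c h l')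
    else o.elim (min (Tr τ a false h l') (Tr τ a true h l'))
      (fun c => Tr τ a c h l' - min (Tr τ a false h l') (Tr τ a true h l'))

/-- The weights of the decomposition with forced blocks `J`. -/
noncomputable def W (τ : A → Bool → L → ℝ) :
    (n : ℕ) → (Fin n → Bool) → PA n → (Fin n → A) → ((Fin n → L) → ℝ) → ℝ
  | 0, _, _, _, h => h Fin.elim0
  | n + 1, J, ρ, x, h => W τ n (Fin.tail J) (Fin.tail ρ) (Fin.tail x) (br τ (J 0) (ρ 0) (x 0) h)

/-- Number of fixed places outside `J`. -/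
def ex (n : ℕ) (J : Fin n → Bool) (ρ : PA n) : ℕ :=
  (univ.filter fun j => ρ j ≠ none ∧ J j = false).card

variable {τ : A → Bool → L → ℝ} {n : ℕ}

theorem dec_agr (o : Option Bool) (ρ : PA n) (z : Fin (n + 1) → Bool) :
    Agr (Fin.cons o ρ : PA (n + 1)) z ↔ (∀ c, o = some c → z 0 = c) ∧ Agr ρ (Fin.tail z) := by
  unfold Agr
  rw [Fin.forall_fin_succ]
  rfl

omit [Fintype A] [Nonempty L] in
theorem dec_br_sum (τ : A → Bool → L → ℝ) (f : Bool) (a : A) (h : (Fin (n + 1) → L) → ℝ)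
    (b : Bool) (l' : Fin n → L) :
    ∑ o : Option Bool, br τ f o a h l' * ind (∀ c, o = some c → b = c) = Tr τ a b h l' := by
  rw [Fintype.sum_option, Fintype.sum_bool]
  cases f <;> cases b <;> simp [br, ind]

omit [Fintype A] [Nonempty L] in
theorem dec_tr_nonneg (h0 : ∀ a c l, 0 ≤ τ a c l) (a : A) (c : Bool) {h : (Fin (n + 1) → L) → ℝ}
    (hh : ∀ l, 0 ≤ h l) (l' : Fin n → L) : 0 ≤ Tr τ a c h l' :=
  ex_nonneg fun l => mul_nonneg (h0 a c l) (hh _)

omit [Fintype A] [Nonempty L] in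
theorem dec_br (h0 : ∀ a c l, 0 ≤ τ a c l) (f : Bool) (o : Option Bool) (a : A)
    {h : (Fin (n + 1) → L) → ℝ} (hh : ∀ l, 0 ≤ h l) (l' : Fin n → L) :
    0 ≤ br τ f o a h l' ∧ br τ f o a h l' ≤ stp τ o a h l' := by
  have h1 := dec_tr_nonneg h0 a false hh l'
  have h2 := dec_tr_nonneg h0 a true hh l'
  have h3 := le_min h1 h2
  have h4 := min_le_left (Tr τ a false h l') (Tr τ a true h l')
  have h5 := min_le_right (Tr τ a false h l') (Tr τ a true h l')
  rcases o with _ | _ | _ <;> cases f <;>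
    simp only [br, stp, Option.elim, if_true, if_false, Bool.false_eq_true] <;>
    constructor <;> linarith

theorem W_sum (τ : A → Bool → L → ℝ) (J : Fin n → Bool) (x : Fin n → A) (h : (Fin n → L) → ℝ)
    (z : Fin n → Bool) :
    𝔼 l, ker τ x z l * h l = ∑ ρ : PA n, W τ n J ρ x h * ind (Agr ρ z) := by
  induction n with
  | zero =>
    have e : ∀ l, h l = h Fin.elim0 := fun l => congrArg h (Subsingleton.elim _ _)
    simp [W, ker, e, ind, Agr]
  | succ n ih =>
    have e1 : ∑ ρ : PA (n + 1), W τ (n + 1) J ρ x h * ind (Agr ρ z) =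
        ∑ o : Option Bool, (∑ ρ : PA n, W τ n (Fin.tail J) ρ (Fin.tail x) (br τ (J 0) o (x 0) h) *
          ind (Agr ρ (Fin.tail z))) * ind (∀ c, o = some c → z 0 = c) := by
      rw [← (Fin.consEquiv fun _ => Option Bool).sum_comp, Fintype.sum_prod_type]
      refine sum_congr rfl fun o _ => ?_
      rw [sum_mul]
      refine sum_congr rfl fun ρ _ => ?_
      change W τ (n + 1) J (Fin.cons o ρ) x h * ind (Agr (Fin.cons o ρ : PA (n + 1)) z) = _
      rw [ind_congr (dec_agr o ρ z), ind_and, W, Fin.tail_cons, Fin.cons_zero]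
      ring
    rw [e1, ex_cons]
    simp only [← ih, expect_mul]
    rw [← expect_sum_comm]
    refine expect_congr rfl fun l' _ => ?_
    simp only [mul_assoc]
    rw [← mul_sum, dec_br_sum, Tr, mul_expect]
    refine expect_congr rfl fun l _ => ?_
    simp only [ker, Fin.prod_univ_succ, Fin.cons_zero, Fin.cons_succ, Fin.tail]
    ring

theorem W_nonneg (h0 : ∀ a c l, 0 ≤ τ a c l) (J : Fin n → Bool) (ρ : PA n) (x : Fin n → A)
    {h : (Fin n → L) → ℝ} (hh : ∀ l, 0 ≤ h l) : 0 ≤ W τ n J ρ x h := by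
  induction n with
  | zero => exact hh _
  | succ n ih => exact ih _ _ _ fun l' => (dec_br h0 _ _ _ hh l').1

theorem W_le_wv (h0 : ∀ a c l, 0 ≤ τ a c l) (J : Fin n → Bool) (ρ : PA n) (x : Fin n → A)
    {h : (Fin n → L) → ℝ} (hh : ∀ l, 0 ≤ h l) : W τ n J ρ x h ≤ wv τ n ρ x h := by
  induction n with
  | zero => exact le_rfl
  | succ n ih =>
    exact (ih _ _ _ fun l' => (dec_br h0 _ _ _ hh l').1).trans
      (wv_mono h0 _ _ fun l' => (dec_br h0 _ _ _ hh l').2)

theorem W_self (τ : A → Bool → L → ℝ) (ρ : PA n) (x : Fin n → A) (h : (Fin n → L) → ℝ) :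
    W τ n (fun j => (ρ j).isSome) ρ x h = wv τ n ρ x h := by
  induction n with
  | zero => rfl
  | succ n ih =>
    have e : br τ (ρ 0).isSome (ρ 0) (x 0) h = stp τ (ρ 0) (x 0) h := by
      funext l'
      cases ρ 0 <;> simp [br, stp]
    rw [W, wv, e]
    exact ih (Fin.tail ρ) _ _

theorem sz_le_ex (ρ₀ ρ : PA n) : sz ρ ≤ sz ρ₀ + ex n (fun j => (ρ₀ j).isSome) ρ := by
  refine le_trans (card_le_card fun j hj => ?_) (card_union_le _ _)
  simp only [mem_union, mem_filter, mem_univ, true_and] at hj ⊢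
  cases h : ρ₀ j <;> simp [hj]

theorem ex_false (ρ : PA n) : ex n (fun _ => false) ρ = sz ρ := by
  simp [ex, sz]

end Pool.Agent.Lib.MP_8a52c3_lc.Mono
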