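import Pool.Agent.Lib.MP_8a52c3_lc.Mono.P1Dec

/-! The second moment of the potential. -/

open Finset
open scoped BigOperators

namespace Pool.Agent.Lib.MP_8a52c3_lc.Mono

variable {A L : Type} [Fintype A] [Fintype L] [Nonempty A] [Nonempty L]
  {τ : A → Bool → L → ℝ} {n : ℕ}

theorem potA_ex_succ (J : Fin (n + 1) → Bool) (o : Option Bool) (ρ : PA n) :
    ex (n + 1) J (Fin.cons o ρ) =
      (if o ≠ none ∧ J 0 = false then 1 else 0) + ex n (Fin.tail J) ρ := by
  unfold ex
  rw [card_filter, card_filter, Fin.sum_univ_succ]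
  simp only [Fin.cons_zero, Fin.cons_succ, Fin.tail]
  rfl

omit [Nonempty A] [Nonempty L] [Fintype A] in
theorem potA_sum_succ (t : ℝ) (J : Fin (n + 1) → Bool) (a : A) (x : Fin n → A)
    (h : (Fin (n + 1) → L) → ℝ) :
    ∑ ρ : PA (n + 1), t ^ ex (n + 1) J ρ * W τ (n + 1) J ρ (Fin.cons a x) h =
      ∑ o : Option Bool, t ^ (if o ≠ none ∧ J 0 = false then 1 else 0) *
        ∑ ρ : PA n, t ^ ex n (Fin.tail J) ρ *
          W τ n (Fin.tail J) ρ x (br τ (J 0) o a h) := by
  rw [← (Fin.consEquiv fun _ => Option Bool).sum_comp, Fintype.sum_prod_type]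
  refine sum_congr rfl fun o _ => ?_
  rw [mul_sum]
  refine sum_congr rfl fun ρ _ => ?_
  have e : (Fin.consEquiv fun _ => Option Bool) (o, ρ) = (Fin.cons o ρ : PA (n + 1)) := rfl
  rw [e, potA_ex_succ, pow_add, mul_assoc]
  simp only [W, Fin.tail_cons, Fin.cons_zero]

omit [Nonempty A] [Nonempty L] [Fintype A] in
theorem potA_Tr_nonneg (h0 : ∀ a c l, 0 ≤ τ a c l) (a : A) (c : Bool)
    {h : (Fin (n + 1) → L) → ℝ} (hh : ∀ l, 0 ≤ h l) (l' : Fin n → L) : 0 ≤ Tr τ a c h l' :=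
  ex_nonneg fun l => mul_nonneg (h0 a c l) (hh _)

omit [Nonempty A] [Nonempty L] [Fintype A] in
theorem potA_br_nonneg (h0 : ∀ a c l, 0 ≤ τ a c l) (f : Bool) (o : Option Bool) (a : A)
    {h : (Fin (n + 1) → L) → ℝ} (hh : ∀ l, 0 ≤ h l) (l' : Fin n → L) :
    0 ≤ br τ f o a h l' := by
  have h1 := potA_Tr_nonneg h0 a false hh l'
  have h2 := potA_Tr_nonneg h0 a true hh l'
  cases f
  · rcases o with _ | c
    · simpa [br] using And.intro h1 h2
    · cases c <;> simp [br]
  · rcases o with _ | c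
    · simp [br]
    · cases c <;> simpa [br]

omit [Nonempty A] [Nonempty L] in
theorem potA_step {lam t : ℝ} (hτ : IsGad τ lam) (ht : 1 ≤ t) (hl : 4 * t ^ 2 * lam ≤ 1)
    (f : Bool) {h : (Fin (n + 1) → L) → ℝ} (h0 : ∀ l, 0 ≤ h l) (l' : Fin n → L) :
    𝔼 a, ∑ o : Option Bool, (t ^ (if o ≠ none ∧ f = false then 1 else 0)) ^ 2 *
        br τ f o a h l' ^ 2 ≤ 8 / 3 * 𝔼 l, h (Fin.cons l l') ^ 2 := by
  have hA := hτ.avg fun l => h (Fin.cons l l')
  have hD := hτ.dif fun l => h (Fin.cons l l')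
  have hG : 0 ≤ 𝔼 l, h (Fin.cons l l') ^ 2 := ex_nonneg fun l => sq_nonneg _
  have eA : ∀ a, 𝔼 l, (τ a false l + τ a true l) / 2 * h (Fin.cons l l') =
      (Tr τ a false h l' + Tr τ a true h l') / 2 := by
    intro a
    simp only [Tr]
    rw [← expect_add_distrib, expect_div]
    exact expect_congr rfl fun l _ => by ring
  have eD : ∀ a, 𝔼 l, (τ a true l - τ a false l) / 2 * h (Fin.cons l l') =
      (Tr τ a true h l' - Tr τ a false h l') / 2 := by
    intro a
    simp only [Tr]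
    rw [← expect_sub_distrib, expect_div]
    exact expect_congr rfl fun l _ => by ring
  simp only [eA] at hA
  simp only [eD] at hD
  have ht2 : 1 ≤ t ^ 2 := one_le_pow₀ ht
  have hD' : 4 * t ^ 2 * 𝔼 a, ((Tr τ a true h l' - Tr τ a false h l') / 2) ^ 2 ≤
      𝔼 l, h (Fin.cons l l') ^ 2 := by
    have h1 := mul_le_mul_of_nonneg_left hD (show (0 : ℝ) ≤ 4 * t ^ 2 by positivity)
    have h2 := mul_le_mul_of_nonneg_right hl hG
    linarith
  have hDn : 0 ≤ 𝔼 a, ((Tr τ a true h l' - Tr τ a false h l') / 2) ^ 2 :=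
    ex_nonneg fun a => sq_nonneg _
  cases f
  · have key : ∀ a, ∑ o : Option Bool, (t ^ (if o ≠ none ∧ false = false then 1 else 0)) ^ 2 *
        br τ false o a h l' ^ 2 ≤ ((Tr τ a false h l' + Tr τ a true h l') / 2) ^ 2 +
          4 * t ^ 2 * ((Tr τ a true h l' - Tr τ a false h l') / 2) ^ 2 := by
      intro a
      have h1 := potA_Tr_nonneg hτ.nonneg a false h0 l'
      have h2 := potA_Tr_nonneg hτ.nonneg a true h0 l'
      simp only [Fintype.sum_option, Fintype.sum_bool, br]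
      simp only [ne_eq, not_true_eq_false, and_true, if_false, reduceCtorEq, not_false_eq_true,
        if_true, pow_zero, pow_one, one_pow, one_mul, Bool.false_eq_true, Option.elim]
      rcases le_total (Tr τ a false h l') (Tr τ a true h l') with h3 | h3
      · rw [min_eq_left h3]; nlinarith
      · rw [min_eq_right h3]; nlinarith
    refine (ex_mono key).trans ?_
    rw [expect_add_distrib, ← mul_expect]
    linarith
  · have key : ∀ a, ∑ o : Option Bool, (t ^ (if o ≠ none ∧ true = false then 1 else 0)) ^ 2 *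
        br τ true o a h l' ^ 2 = 2 * ((Tr τ a false h l' + Tr τ a true h l') / 2) ^ 2 +
          2 * ((Tr τ a true h l' - Tr τ a false h l') / 2) ^ 2 := by
      intro a
      simp only [Fintype.sum_option, Fintype.sum_bool, br]
      simp only [reduceCtorEq, and_false, if_false, pow_zero, one_pow, one_mul, if_true,
        Option.elim]
      ring
    simp only [key]
    rw [expect_add_distrib, ← mul_expect, ← mul_expect]
    nlinarith

theorem potA_three (u v : Option Bool → ℝ) :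
    (∑ o, u o * v o) ^ 2 ≤ 3 * ∑ o, u o ^ 2 * v o ^ 2 := by
  simp only [Fintype.sum_option, Fintype.sum_bool, ← mul_pow]
  nlinarith [sq_nonneg (u none * v none - u (some true) * v (some true)),
    sq_nonneg (u none * v none - u (some false) * v (some false)),
    sq_nonneg (u (some true) * v (some true) - u (some false) * v (some false))]

theorem pot_sq {lam t : ℝ} (hτ : IsGad τ lam) (ht : 1 ≤ t) (hl : 4 * t ^ 2 * lam ≤ 1)
    (J : Fin n → Bool) {h : (Fin n → L) → ℝ} (h0 : ∀ l, 0 ≤ h l) :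
    𝔼 x, (∑ ρ : PA n, t ^ ex n J ρ * W τ n J ρ x h) ^ 2 ≤ 8 ^ n * 𝔼 l, h l ^ 2 := by
  induction n with
  | zero =>
    have e : ∀ l, h l = h Fin.elim0 := fun l => congrArg h (Subsingleton.elim _ _)
    have e' : ∀ ρ : PA 0, ex 0 J ρ = 0 := fun ρ => by simp [ex]
    simp only [W, e', e, ex_const]
    simp
  | succ n ih =>
    rw [ex_cons, ex_comm]
    simp only [potA_sum_succ]
    have h1 : ∀ a, 𝔼 x : Fin n → A, (∑ o : Option Bool,
        t ^ (if o ≠ none ∧ J 0 = false then 1 else 0) * ∑ ρ : PA n, t ^ ex n (Fin.tail J) ρ *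
          W τ n (Fin.tail J) ρ x (br τ (J 0) o a h)) ^ 2 ≤
        3 * 8 ^ n * 𝔼 l', ∑ o : Option Bool,
          (t ^ (if o ≠ none ∧ J 0 = false then 1 else 0)) ^ 2 * br τ (J 0) o a h l' ^ 2 := by
      intro a
      refine (ex_mono fun x => potA_three _ _).trans ?_
      rw [← mul_expect, expect_sum_comm, expect_sum_comm, mul_assoc]
      refine mul_le_mul_of_nonneg_left ?_ (by norm_num)
      rw [mul_sum]
      refine sum_le_sum fun o _ => ?_
      rw [← mul_expect, ← mul_expect, mul_left_comm]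
      exact mul_le_mul_of_nonneg_left
        (ih (Fin.tail J) (potA_br_nonneg hτ.nonneg (J 0) o a h0)) (sq_nonneg _)
    refine (ex_mono h1).trans ?_
    rw [← mul_expect, ex_comm, ex_cons fun l => h l ^ 2]
    have h2 := ex_mono fun l' => potA_step hτ ht hl (J 0) h0 l'
    rw [← mul_expect] at h2
    have h3 := mul_le_mul_of_nonneg_left h2 (show (0 : ℝ) ≤ 3 * 8 ^ n by positivity)
    refine h3.trans_eq ?_
    ring

theorem pot_le {lam t C : ℝ} (hτ : IsGad τ lam) (ht : 1 ≤ t) (hl : 4 * t ^ 2 * lam ≤ 1)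
    (J : Fin n → Bool) {h : (Fin n → L) → ℝ} (h0 : ∀ l, 0 ≤ h l) (hC : ∀ l, h l ≤ C) :
    𝔼 x, ∑ ρ : PA n, t ^ ex n J ρ * W τ n J ρ x h ≤ 3 ^ n * C := by
  have hC0 : 0 ≤ C := (h0 fun _ => Classical.arbitrary L).trans (hC _)
  have h1 := (ex_sq_le _).trans (pot_sq hτ ht hl J h0)
  have h2 : 𝔼 l, h l ^ 2 ≤ C ^ 2 := ex_le fun l => pow_le_pow_left₀ (h0 l) (hC l) 2
  have h3 : (8 : ℝ) ^ n ≤ (3 ^ n) ^ 2 := by
    rw [← pow_mul, mul_comm, pow_mul]
    exact pow_le_pow_left₀ (by norm_num) (by norm_num) n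
  refine (abs_le_of_sq_le_sq' ?_ (by positivity)).2
  rw [mul_pow]
  exact h1.trans (mul_le_mul h3 h2 (ex_nonneg fun l => sq_nonneg _) (by positivity))

end Pool.Agent.Lib.MP_8a52c3_lc.Mono
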