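import Pool.Agent.Lib.MP_8a52c3_lc.Mono.Basic

/-! Properties of the game value and of the lifted pseudo-expectation. -/

open Finset
open scoped BigOperators

namespace Pool.Agent.Lib.MP_8a52c3_lc.Mono

variable {A L : Type} [Fintype A] [Fintype L] [Nonempty L] {τ : A → Bool → L → ℝ} {n : ℕ}

omit [Fintype A] [Nonempty L] in
theorem wvA_zero (ρ : PA 0) (x : Fin 0 → A) (h : (Fin 0 → L) → ℝ) :
    wv τ 0 ρ x h = h Fin.elim0 := rfl

omit [Fintype A] [Nonempty L] in
theorem wvA_succ (ρ : PA (n + 1)) (x : Fin (n + 1) → A) (h : (Fin (n + 1) → L) → ℝ) :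
    wv τ (n + 1) ρ x h = wv τ n (Fin.tail ρ) (Fin.tail x) (stp τ (ρ 0) (x 0) h) := rfl

omit [Fintype A] [Nonempty L] in
theorem wvA_ex_zero (h : (Fin 0 → L) → ℝ) : 𝔼 l, h l = h Fin.elim0 := by
  have : ∀ z, h z = h Fin.elim0 := fun z => congrArg h (Subsingleton.elim _ _)
  simp only [this, ex_const]

omit [Fintype A] [Nonempty L] in
theorem wvA_stp_none (a : A) (h : (Fin (n + 1) → L) → ℝ) (l' : Fin n → L) :
    stp τ none a h l' = min (Tr τ a false h l') (Tr τ a true h l') := rfl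

omit [Fintype A] [Nonempty L] in
theorem wvA_stp_some (c : Bool) (a : A) (h : (Fin (n + 1) → L) → ℝ) (l' : Fin n → L) :
    stp τ (some c) a h l' = Tr τ a c h l' := rfl

omit [Fintype A] [Nonempty L] in
theorem wvA_Tr_mono (h0 : ∀ a c l, 0 ≤ τ a c l) (a : A) (c : Bool)
    {h h' : (Fin (n + 1) → L) → ℝ} (hh : ∀ l, h l ≤ h' l) (l' : Fin n → L) :
    Tr τ a c h l' ≤ Tr τ a c h' l' :=
  ex_mono fun l => mul_le_mul_of_nonneg_left (hh _) (h0 a c l)

omit [Fintype A] [Nonempty L] in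
theorem wvA_stp_mono (h0 : ∀ a c l, 0 ≤ τ a c l) (o : Option Bool) (a : A)
    {h h' : (Fin (n + 1) → L) → ℝ} (hh : ∀ l, h l ≤ h' l) (l' : Fin n → L) :
    stp τ o a h l' ≤ stp τ o a h' l' := by
  cases o with
  | none =>
    rw [wvA_stp_none, wvA_stp_none]
    exact min_le_min (wvA_Tr_mono h0 a _ hh l') (wvA_Tr_mono h0 a _ hh l')
  | some c =>
    rw [wvA_stp_some, wvA_stp_some]
    exact wvA_Tr_mono h0 a c hh l'

omit [Fintype A] [Nonempty L] in
theorem wvA_Tr_nonneg (h0 : ∀ a c l, 0 ≤ τ a c l) (a : A) (c : Bool)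
    {h : (Fin (n + 1) → L) → ℝ} (hh : ∀ l, 0 ≤ h l) (l' : Fin n → L) : 0 ≤ Tr τ a c h l' :=
  ex_nonneg fun l => mul_nonneg (h0 a c l) (hh _)

omit [Fintype A] [Nonempty L] in
theorem wvA_stp_nonneg (h0 : ∀ a c l, 0 ≤ τ a c l) (o : Option Bool) (a : A)
    {h : (Fin (n + 1) → L) → ℝ} (hh : ∀ l, 0 ≤ h l) (l' : Fin n → L) : 0 ≤ stp τ o a h l' := by
  cases o with
  | none =>
    rw [wvA_stp_none]
    exact le_min (wvA_Tr_nonneg h0 a _ hh l') (wvA_Tr_nonneg h0 a _ hh l')
  | some c =>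
    rw [wvA_stp_some]
    exact wvA_Tr_nonneg h0 a c hh l'

omit [Fintype A] [Nonempty L] in
/-- One step always equals `Tr` at a bit that obeys the restriction. -/
theorem wvA_stp_bit (τ : A → Bool → L → ℝ) (o : Option Bool) (a : A)
    (h : (Fin (n + 1) → L) → ℝ) (l' : Fin n → L) :
    ∃ b : Bool, (∀ c, o = some c → b = c) ∧ stp τ o a h l' = Tr τ a b h l' := by
  cases o with
  | none =>
    rw [wvA_stp_none]
    rcases le_total (Tr τ a false h l') (Tr τ a true h l') with hle | hle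
    · exact ⟨false, fun c hc => by simp at hc, min_eq_left hle⟩
    · exact ⟨true, fun c hc => by simp at hc, min_eq_right hle⟩
  | some c => exact ⟨c, fun c' hc => Option.some.inj hc, rfl⟩

omit [Fintype A] [Nonempty L] in
theorem wvA_Tr_le_const (h0 : ∀ a c l, 0 ≤ τ a c l) (h1 : ∀ a c, 𝔼 l, τ a c l = 1) (a : A)
    (c : Bool) {h : (Fin (n + 1) → L) → ℝ} {C : ℝ} (hh : ∀ l, h l ≤ C) (l' : Fin n → L) :
    Tr τ a c h l' ≤ C := by
  have : Tr τ a c h l' ≤ 𝔼 l, τ a c l * C :=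
    ex_mono fun l => mul_le_mul_of_nonneg_left (hh _) (h0 a c l)
  rwa [← expect_mul, h1, one_mul] at this

theorem wvA_sz_succ (ρ : PA (n + 1)) :
    sz ρ = (if ρ 0 ≠ none then 1 else 0) + sz (Fin.tail ρ) := by
  unfold sz
  rw [card_filter, card_filter, Fin.sum_univ_succ]
  rfl

omit [Fintype A] [Nonempty L] in
theorem wvA_stp_le_mean (h0 : ∀ a c l, 0 ≤ τ a c l)
    (h2 : ∀ a l, τ a false l + τ a true l = 2) (o : Option Bool) (a : A)
    {h : (Fin (n + 1) → L) → ℝ} (hh : ∀ l, 0 ≤ h l) (l' : Fin n → L) :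
    stp τ o a h l' ≤ 2 ^ (if o ≠ none then 1 else 0) * 𝔼 l, h (Fin.cons l l') := by
  have hsum : Tr τ a false h l' + Tr τ a true h l' = 2 * 𝔼 l, h (Fin.cons l l') := by
    unfold Tr
    rw [← expect_add_distrib, mul_expect]
    refine expect_congr rfl fun l _ => ?_
    rw [← add_mul, h2]
  have hf := wvA_Tr_nonneg h0 a false hh l'
  have ht := wvA_Tr_nonneg h0 a true hh l'
  cases o with
  | none =>
    rw [wvA_stp_none]
    have h3 := min_le_left (Tr τ a false h l') (Tr τ a true h l')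
    have h4 := min_le_right (Tr τ a false h l') (Tr τ a true h l')
    simp only [ne_eq, not_true_eq_false, if_false, pow_zero, one_mul]
    linarith
  | some c =>
    rw [wvA_stp_some]
    simp only [ne_eq, reduceCtorEq, not_false_eq_true, if_true, pow_one]
    cases c <;> linarith

omit [Fintype A] [Nonempty L] in
theorem wvA_Tr_lip (h0 : ∀ a c l, 0 ≤ τ a c l) (h2 : ∀ a c l, τ a c l ≤ 2) (a : A) (c : Bool)
    (h h' : (Fin (n + 1) → L) → ℝ) (l' : Fin n → L) :
    Tr τ a c h l' ≤ Tr τ a c h' l' + 2 * 𝔼 l, |h (Fin.cons l l') - h' (Fin.cons l l')| := by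
  unfold Tr
  rw [mul_expect, ← expect_add_distrib]
  refine ex_mono fun l => ?_
  have e1 := le_abs_self (h (Fin.cons l l') - h' (Fin.cons l l'))
  have e2 := abs_nonneg (h (Fin.cons l l') - h' (Fin.cons l l'))
  have e3 := mul_le_mul_of_nonneg_left e1 (h0 a c l)
  have e4 := mul_le_mul_of_nonneg_right (h2 a c l) e2
  nlinarith

omit [Fintype A] [Nonempty L] in
theorem wvA_stp_lip (h0 : ∀ a c l, 0 ≤ τ a c l) (h2 : ∀ a c l, τ a c l ≤ 2) (o : Option Bool)
    (a : A) (h h' : (Fin (n + 1) → L) → ℝ) (l' : Fin n → L) :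
    stp τ o a h l' ≤ stp τ o a h' l' + 2 * 𝔼 l, |h (Fin.cons l l') - h' (Fin.cons l l')| := by
  have hf := wvA_Tr_lip h0 h2 a false h h' l'
  have ht := wvA_Tr_lip h0 h2 a true h h' l'
  cases o with
  | none =>
    rw [wvA_stp_none, wvA_stp_none]
    have h3 := min_le_left (Tr τ a false h l') (Tr τ a true h l')
    have h4 := min_le_right (Tr τ a false h l') (Tr τ a true h l')
    rcases le_total (Tr τ a false h' l') (Tr τ a true h' l') with hle | hle
    · rw [min_eq_left hle]; linarith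
    · rw [min_eq_right hle]; linarith
  | some c =>
    rw [wvA_stp_some, wvA_stp_some]
    exact wvA_Tr_lip h0 h2 a c h h' l'

omit [Fintype A] [Nonempty L] in
theorem wvA_stp_abs (h0 : ∀ a c l, 0 ≤ τ a c l) (h2 : ∀ a c l, τ a c l ≤ 2) (o : Option Bool)
    (a : A) (h h' : (Fin (n + 1) → L) → ℝ) (l' : Fin n → L) :
    |stp τ o a h l' - stp τ o a h' l'| ≤ 2 * 𝔼 l, |h (Fin.cons l l') - h' (Fin.cons l l')| := by
  have e1 := wvA_stp_lip h0 h2 o a h h' l'
  have e2 := wvA_stp_lip h0 h2 o a h' h l'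
  have e3 : 𝔼 l, |h' (Fin.cons l l') - h (Fin.cons l l')| =
      𝔼 l, |h (Fin.cons l l') - h' (Fin.cons l l')| :=
    expect_congr rfl fun l _ => abs_sub_comm _ _
  rw [e3] at e2
  rw [abs_le]
  constructor <;> linarith

omit [Fintype A] [Fintype L] [Nonempty L] in
theorem wvA_ker_cons (τ : A → Bool → L → ℝ) (x : Fin (n + 1) → A) (z : Fin (n + 1) → Bool)
    (a : L) (l' : Fin n → L) :
    ker τ x z (Fin.cons a l') = τ (x 0) (z 0) a * ker τ (Fin.tail x) (Fin.tail z) l' := by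
  unfold ker
  rw [Fin.prod_univ_succ]
  rfl

theorem wv_mono (h0 : ∀ a c l, 0 ≤ τ a c l) (ρ : PA n) (x : Fin n → A)
    {h h' : (Fin n → L) → ℝ} (hh : ∀ l, h l ≤ h' l) : wv τ n ρ x h ≤ wv τ n ρ x h' := by
  induction n with
  | zero => exact hh _
  | succ n ih => exact ih _ _ (wvA_stp_mono h0 _ _ hh)

theorem wv_nonneg (h0 : ∀ a c l, 0 ≤ τ a c l) (ρ : PA n) (x : Fin n → A)
    {h : (Fin n → L) → ℝ} (hh : ∀ l, 0 ≤ h l) : 0 ≤ wv τ n ρ x h := by
  induction n with
  | zero => exact hh _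
  | succ n ih => exact ih _ _ (wvA_stp_nonneg h0 _ _ hh)

/-- For a probability kernel the value is at most the maximum. -/
theorem wv_le_const (h0 : ∀ a c l, 0 ≤ τ a c l) (h1 : ∀ a c, 𝔼 l, τ a c l = 1) (ρ : PA n)
    (x : Fin n → A) {h : (Fin n → L) → ℝ} {C : ℝ} (hh : ∀ l, h l ≤ C) : wv τ n ρ x h ≤ C := by
  induction n with
  | zero => exact hh _
  | succ n ih =>
    refine ih _ _ fun l' => ?_
    obtain ⟨b, -, hb⟩ := wvA_stp_bit τ (ρ 0) (x 0) h l'
    rw [hb]
    exact wvA_Tr_le_const h0 h1 _ _ hh l'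

theorem wv_le_mean (h0 : ∀ a c l, 0 ≤ τ a c l) (h2 : ∀ a l, τ a false l + τ a true l = 2)
    (ρ : PA n) (x : Fin n → A) {h : (Fin n → L) → ℝ} (hh : ∀ l, 0 ≤ h l) :
    wv τ n ρ x h ≤ 2 ^ sz ρ * 𝔼 l, h l := by
  induction n with
  | zero =>
    have hs : sz ρ = 0 := by simp [sz]
    rw [wvA_zero, wvA_ex_zero, hs, pow_zero, one_mul]
  | succ n ih =>
    rw [wvA_succ]
    refine (ih _ _ (wvA_stp_nonneg h0 _ _ hh)).trans ?_
    rw [wvA_sz_succ ρ, ex_cons h, pow_add, mul_comm (2 ^ _ : ℝ) (2 ^ sz (Fin.tail ρ)), mul_assoc]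
    refine mul_le_mul_of_nonneg_left ?_ (by positivity)
    rw [mul_expect]
    exact ex_mono fun l' => wvA_stp_le_mean h0 h2 _ _ hh l'

theorem wv_lip (h0 : ∀ a c l, 0 ≤ τ a c l) (h2 : ∀ a c l, τ a c l ≤ 2) (ρ : PA n)
    (x : Fin n → A) (h h' : (Fin n → L) → ℝ) :
    wv τ n ρ x h ≤ wv τ n ρ x h' + 2 ^ n * 𝔼 l, |h l - h' l| := by
  induction n with
  | zero =>
    rw [wvA_zero, wvA_zero, wvA_ex_zero fun l => |h l - h' l|, pow_zero, one_mul]
    linarith [le_abs_self (h Fin.elim0 - h' Fin.elim0)]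
  | succ n ih =>
    rw [wvA_succ, wvA_succ]
    refine (ih _ _ _ (stp τ (ρ 0) (x 0) h')).trans (add_le_add le_rfl ?_)
    rw [ex_cons fun l => |h l - h' l|, pow_succ, mul_assoc]
    refine mul_le_mul_of_nonneg_left ?_ (by positivity)
    rw [mul_expect]
    exact ex_mono fun l' => wvA_stp_abs h0 h2 _ _ h h' l'

/-- The value is attained by an adapted strategy. -/
theorem exists_strat (τ : A → Bool → L → ℝ) (ρ : PA n) (x : Fin n → A) (h : (Fin n → L) → ℝ) :
    ∃ s : (Fin n → L) → Fin n → Bool, Adapted s ∧ Resp s ρ ∧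
      𝔼 l, ker τ x (s l) l * h l = wv τ n ρ x h := by
  induction n with
  | zero =>
    refine ⟨fun _ => Fin.elim0, fun j => j.elim0, fun _ j => j.elim0, ?_⟩
    rw [wvA_zero, wvA_ex_zero fun l => ker τ x Fin.elim0 l * h l]
    simp [ker]
  | succ n ih =>
    obtain ⟨s', hA, hR, hE⟩ := ih (Fin.tail ρ) (Fin.tail x) (stp τ (ρ 0) (x 0) h)
    choose b hb hb' using wvA_stp_bit τ (ρ 0) (x 0) h
    refine ⟨fun l => Fin.cons (b (Fin.tail l)) (s' (Fin.tail l)), ?_, ?_, ?_⟩
    · intro j l l' hl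
      refine Fin.cases (fun hl => ?_) (fun j hl => ?_) j hl
      · have : Fin.tail l = Fin.tail l' := funext fun i => hl _ (Fin.succ_pos i)
        simp only [Fin.cons_zero, this]
      · simp only [Fin.cons_succ]
        exact hA j _ _ fun i hi => hl _ (Fin.succ_lt_succ_iff.2 hi)
    · intro l j c
      refine Fin.cases (fun hj => ?_) (fun j hj => ?_) j
      · simp only [Fin.cons_zero]
        exact hb _ c hj
      · simp only [Fin.cons_succ]
        exact hR _ j c hj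
    · rw [wvA_succ, ← hE, ex_cons]
      refine expect_congr rfl fun l' _ => ?_
      rw [hb' l']
      unfold Tr
      rw [mul_expect]
      refine expect_congr rfl fun a _ => ?_
      rw [wvA_ker_cons]
      simp only [Fin.tail_cons, Fin.cons_zero]
      ring

/-- An adapted strategy for a probability kernel has a density of mean one. -/
theorem ex_ker_adapted (h1 : ∀ a c, 𝔼 l, τ a c l = 1) (x : Fin n → A)
    {s : (Fin n → L) → Fin n → Bool} (hs : Adapted s) : 𝔼 l, ker τ x (s l) l = 1 := by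
  induction n with
  | zero => simp [ker]
  | succ n ih =>
    obtain ⟨l0⟩ := ‹Nonempty L›
    have hind : ∀ (a : L) (l' : Fin n → L), s (Fin.cons a l') = s (Fin.cons l0 l') := by
      intro a l'
      funext j
      refine hs j _ _ fun i hi => ?_
      refine Fin.cases (fun hi => absurd hi (Fin.not_lt_zero j)) (fun i _ => ?_) i hi
      simp only [Fin.cons_succ]
    have hA : Adapted fun l' : Fin n → L => Fin.tail (s (Fin.cons l0 l')) := by
      intro j l l' hl
      refine hs j.succ _ _ fun i hi => ?_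
      refine Fin.cases (fun hi => absurd hi (Fin.not_lt_zero _)) (fun i hi => ?_) i hi
      simp only [Fin.cons_succ]
      exact hl i (Fin.succ_lt_succ_iff.1 hi)
    rw [ex_cons, ← ih (Fin.tail x) hA]
    refine expect_congr rfl fun l' _ => ?_
    simp only [hind, wvA_ker_cons]
    rw [← expect_mul, h1, one_mul]

end Pool.Agent.Lib.MP_8a52c3_lc.Mono
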